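import Mathlib
import Pool.Agent.H15.G.R_seed8.H932R3.Fam

set_option autoImplicit false

/-!
# Stability of the families of weighted ideals, and the base case
-/

namespace Pool.Agent.H932R3

open Polynomial Pool.Agent.H932R2

variable {K : Type*} [Field K]

theorem sh_subY (ρ : ℕ) (t : K) (γ' : K[X]) (f : K[X][X]) :
    sh 0 γ' (subY ρ t f) = (sh 0 (X ^ ρ + C t * γ') f).comp (C (C t) * X) := by
  have h : (sh 0 γ').comp (subY ρ t : K[X][X] →+* K[X][X]) =
      (compRingHom (C (C t) * X)).comp (sh 0 (X ^ ρ + C t * γ')) := by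
    refine ringHom_ext' (ringHom_ext' ?_ ?_) ?_
    · ext a
      simp [sh_C, subY_C]
    · simp [sh_C, subY_C]
    · simp [sh_X, sh_C, subY_X]
      ring
  exact congrArg (fun φ : K[X][X] →+* K[X][X] => φ f) h

theorem sh_subX (t : K) (ht : t ≠ 0) (γ' : K[X]) (f : K[X][X]) :
    sh 0 γ' (subX t f) =
      (sh 0 (γ'.comp (C t⁻¹ * (X - 1))) f).map (compRingHom (1 + C t * X)) := by
  have h : (sh 0 γ').comp (subX t : K[X][X] →+* K[X][X]) =
      (mapRingHom (compRingHom (1 + C t * X))).comp (sh 0 (γ'.comp (C t⁻¹ * (X - 1)))) := by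
    refine ringHom_ext' (ringHom_ext' ?_ ?_) ?_
    · ext a
      simp [sh_C, subX_C]
    · simp [sh_C, subX_C]
    · have h1 : (C t⁻¹ * (X - 1) : K[X]).comp (1 + C t * X) = X := by
        simp only [mul_comp, C_comp, sub_comp, X_comp, one_comp, add_sub_cancel_left]
        rw [← mul_assoc, ← C_mul, inv_mul_cancel₀ ht, C_1, one_mul]
      have h2 : (γ'.comp (C t⁻¹ * (X - 1))).comp (1 + C t * X) = γ' := by
        rw [comp_assoc, h1, comp_X]
      simp only [RingHom.comp_apply, RingHom.coe_coe, subX_X, sh_X, C_0, add_zero, comp_X,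
        map_add, coe_mapRingHom, Polynomial.map_X, Polynomial.map_C, coe_compRingHom_apply]
      rw [h2]
  exact congrArg (fun φ : K[X][X] →+* K[X][X] => φ f) h

theorem prodPoly_comp {r : ℕ} (x : Fin r → K) (w : Fin r → ℕ) (l : ℕ) (t : K) :
    (prodPoly (fun i => 1 + t * x i) w l).comp (1 + C t * X) =
      C (∏ a, t ^ (w a - l)) * prodPoly x w l := by
  unfold prodPoly
  rw [Polynomial.prod_comp, map_prod, ← Finset.prod_mul_distrib]
  refine Finset.prod_congr rfl fun a _ => ?_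
  rw [pow_comp, sub_comp, X_comp, C_comp, C_pow, ← mul_pow]
  congr 1
  simp only [map_add, map_mul, map_one]
  ring

theorem wFam_stable {r : ℕ} {𝒞 : Set (Fin r → K)} (h𝒞 : AffInv 𝒞) (w : Fin r → ℕ) :
    Stable (wFam 𝒞 w) := by
  constructor
  · rintro _ ⟨x, hx, γ', rfl⟩ ρ t _
    refine ⟨_, ⟨x, hx, X ^ ρ + C t * γ', rfl⟩, fun f hf => ?_⟩
    rw [Ideal.mem_comap, mem_wIdeal]
    intro l
    show prodPoly x w l ∣ (sh 0 γ' (subY ρ t f)).coeff l
    rw [sh_subY, comp_C_mul_X_coeff]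
    exact Dvd.dvd.mul_right (mem_wIdeal.1 hf l) _
  · rintro _ ⟨x, hx, γ', rfl⟩ t ht
    refine ⟨_, ⟨_, h𝒞 x hx t ht 1, γ'.comp (C t⁻¹ * (X - 1)), rfl⟩, fun f hf => ?_⟩
    rw [Ideal.mem_comap, mem_wIdeal]
    intro l
    show prodPoly x w l ∣ (sh 0 γ' (subX t f)).coeff l
    rw [sh_subX t ht, coeff_map]
    have h1 := map_dvd (compRingHom (1 + C t * X)) (mem_wIdeal.1 hf l)
    rw [coe_compRingHom_apply, prodPoly_comp] at h1
    exact (dvd_mul_left _ _).trans h1

theorem prodPoly_monic {r : ℕ} (x : Fin r → K) (w : Fin r → ℕ) (l : ℕ) :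
    (prodPoly x w l).Monic :=
  monic_prod_of_monic _ _ fun _ _ => (monic_X_sub_C _).pow _

theorem prodPoly_natDegree {r : ℕ} (x : Fin r → K) (w : Fin r → ℕ) (l : ℕ) :
    (prodPoly x w l).natDegree = ∑ a, (w a - l) := by
  unfold prodPoly
  rw [natDegree_prod_of_monic _ _ fun _ _ => (monic_X_sub_C _).pow _]
  refine Finset.sum_congr rfl fun a _ => ?_
  rw [(monic_X_sub_C (x a)).natDegree_pow, natDegree_X_sub_C, mul_one]

theorem sh_zero_zero (f : K[X][X]) : sh 0 0 f = f := by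
  have h : (sh (0 : K) 0) = RingHom.id _ := by
    refine ringHom_ext' (ringHom_ext' ?_ ?_) ?_
    · ext a
      simp [sh_C]
    · simp [sh_C]
    · simp [sh_X]
  rw [h]
  rfl

/-- The base case. -/
theorem RkS.base {r : ℕ} {𝒞 : Set (Fin r → K)} {x : Fin r → K} (hx : x ∈ 𝒞) (w : Fin r → ℕ)
    (M : Finset (ℕ × ℕ)) (hM : ∀ p ∈ M, p.1 < ∑ a, (w a - p.2)) :
    RkS (wFam 𝒞 w) (↑M : Set (ℕ × ℕ)) M.card := by
  classical
  refine ⟨_, ⟨x, hx, 0, rfl⟩, fun i => mon K (enumM M i),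
    fun i => Submodule.subset_span ⟨_, enumM_mem M i, rfl⟩, fun c hc => ?_⟩
  rw [mem_wIdeal, sh_zero_zero] at hc
  intro i
  set p := enumM M i with hp
  have h3 := hc p.2
  have hdeg : ((∑ i, c i • mon K (enumM M i)).coeff p.2).degree < (prodPoly x w p.2).degree := by
    rw [degree_eq_natDegree (prodPoly_monic x w p.2).ne_zero, prodPoly_natDegree,
      degree_lt_iff_coeff_zero]
    intro a ha
    rw [finsetSum_coeff, finsetSum_coeff]
    refine Finset.sum_eq_zero fun j _ => ?_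
    rw [coeff_smul, coeff_smul, coeff_mon, if_neg, smul_zero]
    intro h
    have := hM _ (enumM_mem M j)
    rw [h] at this
    simp only at this
    omega
  have h4 := eq_zero_of_dvd_of_degree_lt h3 hdeg
  have h5 := congrArg (fun q => q.coeff p.1) h4
  simp only [coeff_zero] at h5
  rw [finsetSum_coeff, finsetSum_coeff, Finset.sum_eq_single i] at h5
  · rw [coeff_smul, coeff_smul, coeff_mon, if_pos rfl] at h5
    simpa using h5
  · intro j _ hj
    rw [coeff_smul, coeff_smul, coeff_mon, if_neg, smul_zero]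
    intro h
    exact hj (enumM_inj M (h.trans hp))
  · intro h
    exact absurd (Finset.mem_univ i) h

theorem point_mem {x : K} {γ : K[X]} {m : ℕ} {f : K[X][X]}
    (hf : f ∈ cIdeal (fun _ : Fin 1 => x) (C (γ.eval x)) m) (l : ℕ) :
    (X - C x) ^ (m - l) ∣ (sh 0 γ f).coeff l := by
  rcases Nat.lt_or_ge l m with hl | hl
  · have h2 : f ∈ cIdeal (fun _ : Fin 1 => x) γ m := point_le _ _ _ hf
    have h3 := mem_cIdeal_iff_sh.1 h2 l hl
    rwa [rootPoly_const, pow_one] at h3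
  · rw [Nat.sub_eq_zero_of_le hl, pow_zero]
    exact one_dvd _

theorem iInf_le_wIdeal {r : ℕ} {x : Fin r → K} (hx : Function.Injective x) (γ : K[X])
    (w : Fin r → ℕ) :
    ⨅ a, cIdeal (fun _ : Fin 1 => x a) (C (γ.eval (x a))) (w a) ≤ wIdeal x γ w := by
  intro f hf
  rw [mem_wIdeal]
  intro l
  refine Finset.prod_dvd_of_coprime (fun a _ b _ hab => ?_) fun a _ =>
    point_mem ((Ideal.mem_iInf.1 hf) a) l
  exact (isCoprime_X_sub_C_of_isUnit_sub
    (isUnit_iff_ne_zero.2 (sub_ne_zero.2 fun h => hab (hx h)))).pow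

theorem cIdeal_le_wIdeal {r : ℕ} (x : Fin r → K) (γ : K[X]) (m : ℕ) :
    cIdeal x γ m ≤ wIdeal x γ (fun _ => m) := by
  intro f hf
  rw [mem_wIdeal]
  intro l
  have h1 : prodPoly x (fun _ => m) l = rootPoly x ^ (m - l) := by
    unfold prodPoly rootPoly
    rw [Finset.prod_pow]
  rw [h1]
  rcases Nat.lt_or_ge l m with hl | hl
  · exact mem_cIdeal_iff_sh.1 hf l hl
  · rw [Nat.sub_eq_zero_of_le hl, pow_zero]
    exact one_dvd _

end Pool.Agent.H932R3
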