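import Mathlib
import Pool.Agent.H15.G.R_seed8.H932R3.ChainS

set_option autoImplicit false

/-!
# Maximal rank for some member of a stable family
-/

namespace Pool.Agent.H932R3

open Polynomial Pool.Agent.H932R2

variable {K : Type*} [Field K] [Infinite K] {𝓘 : Set (Ideal K[X][X])} {n : ℕ}

theorem initial (h𝓘 : Stable 𝓘) {δ d k b B : ℕ} (hδ : 2 ≤ δ) (hd : d + 1 = δ * k + b)
    (hb' : b ≤ δ) (hY : YY δ b ≤ k) (hB : δ * d ≤ B)
    (hK : ∀ k : ℕ, 0 < k → k ≤ B → (k : K) ≠ 0) :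
    ∃ u t j, t < δ * δ ∧ j ≤ u + 1 ∧ sz (δ * δ) u t j = (d + 1) * (d + 2) ∧
      (RkS 𝓘 (Lset (δ * δ) (δ * δ * u + t) j) n → RkS 𝓘 (Tset d) n) := by
  have hdB : d ≤ B := (Nat.le_mul_of_pos_left d (by omega)).trans hB
  have hkB : k ≤ B := by
    rcases k with _ | k
    · omega
    · have h1 : k + 1 ≤ δ * (k + 1) / 2 * 1 := by
        rw [mul_one, Nat.le_div_iff_mul_le (by norm_num)]
        nlinarith
      have h2 : δ * (k + 1) ≥ 2 * (k + 1) := Nat.mul_le_mul_right _ hδ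
      omega
  obtain ⟨e, he⟩ : ∃ e, δ = b + e := Nat.exists_eq_add_of_le hb'
  have hY2 : 2 * YY δ b + e = e * e := by
    rw [he]
    exact YY_two b e
  have hc2 := cc_two δ
  have hcnt := cnt_add δ b
  obtain ⟨c, hc⟩ : ∃ c, c = cc δ := ⟨_, rfl⟩
  obtain ⟨Y, hYd⟩ : ∃ Y, Y = YY δ b := ⟨_, rfl⟩
  rw [← hc] at hc2 hcnt
  rw [← hYd] at hY hY2 hcnt
  have hcs : c < δ * δ := by omega
  have hbs : δ * b ≤ δ * δ := Nat.mul_le_mul_left _ hb'
  have hδδ : 2 * δ ≤ δ * δ := Nat.mul_le_mul_right _ hδ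
  obtain ⟨σ, hσ⟩ : ∃ σ, δ * δ = σ + 1 := ⟨δ * δ - 1, by omega⟩
  have key : ∀ V, V + c = δ * δ * k + δ * b →
      RkS 𝓘 (Lset (δ * δ) V (Y - (c - δ * b))) n → RkS 𝓘 (Tset d) n := by
    intro V hV h
    refine RkS.compressY h𝓘 δ B hK (step_M1 (by omega) hdB) ?_
    refine RkS.compressX h𝓘 B hK (step_D (by omega) hd hb' hB) ?_
    rw [← hc, ← hYd, hσ]
    refine RkS.compressY h𝓘 σ B hK (step_E (g := δ * b) rfl hkB) ?_
    rw [← hσ]
    exact RkS.compressY h𝓘 (δ * δ) B hK (step_L (by omega) (by rw [hσ]) (by rw [hV, hσ]) (by omega)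
      hY hkB) h
  rcases Nat.lt_or_ge (δ * b) c with h1 | h1
  · obtain ⟨w, rfl⟩ : ∃ w, k = w + 1 := ⟨k - 1, by omega⟩
    obtain ⟨g, hg⟩ : ∃ g, c = δ * b + g := Nat.exists_eq_add_of_le h1.le
    obtain ⟨t, ht⟩ : ∃ t, δ * δ = g + t := Nat.exists_eq_add_of_le (by omega)
    obtain ⟨j, hj⟩ : ∃ j, Y = g + j := Nat.exists_eq_add_of_le (by omega)
    refine ⟨w, t, j, by omega, by omega, ?_, ?_⟩
    · unfold sz
      rw [hd, show d + 2 = (d + 1) + 1 from rfl, hd]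
      zify at he hY2 hc2 hg ht hj ⊢
      have he' : (e : ℤ) = δ - b := by linarith
      rw [he'] at hY2
      have ht' : (t : ℤ) = δ * δ - g := by linarith
      have hj' : (j : ℤ) = Y - g := by linarith
      have hg' : (g : ℤ) = c - δ * b := by linarith
      rw [ht', hj', hg']
      linear_combination hY2 - ((w : ℤ) + 2) * hc2
    · have := key (δ * δ * w + t) (by
        have e1 : δ * δ * (w + 1) = δ * δ * w + δ * δ := by ring
        omega)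
      have h3 : Y - (c - δ * b) = j := by omega
      rwa [h3] at this
  · obtain ⟨t, ht⟩ : ∃ t, δ * b = c + t := Nat.exists_eq_add_of_le h1
    refine ⟨k, t, Y, by omega, by omega, ?_, ?_⟩
    · unfold sz
      rw [hd, show d + 2 = (d + 1) + 1 from rfl, hd]
      zify at he hY2 hc2 ht ⊢
      have he' : (e : ℤ) = δ - b := by linarith
      rw [he'] at hY2
      have ht' : (t : ℤ) = δ * b - c := by linarith
      rw [ht']
      linear_combination hY2 - ((k : ℤ) + 1) * hc2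
    · have := key (δ * δ * k + t) (by omega)
      have h3 : Y - (c - δ * b) = Y := by omega
      rwa [h3] at this


/-- The bound on the defect of the top row for large degrees. -/
theorem YY_le {δ d : ℕ} (hδ : 2 ≤ δ) (hd : δ * ((δ - 1) * (δ - 2)) ≤ 2 * d) :
    YY δ (d % δ + 1) ≤ d / δ := by
  have hdm := Nat.div_add_mod d δ
  have hml := Nat.mod_lt d (show 0 < δ by omega)
  by_contra h
  obtain ⟨e, he⟩ : ∃ e, δ = d % δ + 1 + e := Nat.exists_eq_add_of_le hml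
  have h1 : 2 * YY δ (d % δ + 1) + e = e * e := by
    have := YY_two (d % δ + 1) e
    rwa [← he] at this
  have h2 : 2 * (d / δ + 1) + e ≤ e * e := by omega
  obtain ⟨f, hf⟩ : ∃ f, δ = f + 2 := ⟨δ - 2, by omega⟩
  have h3 : e ≤ f + 1 := by omega
  have h4 : 2 * (d / δ + 1) ≤ (f + 1) * f := by
    rcases e with _ | e
    · omega
    · have : (e + 1) * e ≤ (f + 1) * f := Nat.mul_le_mul h3 (by omega)
      have h5 : (e + 1) * (e + 1) = (e + 1) * e + (e + 1) := by ring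
      omega
  have h5 : (δ - 1) * (δ - 2) = (f + 1) * f := by
    rw [hf]
    rfl
  rw [h5] at hd
  have h6 : δ * (2 * (d / δ + 1)) ≤ δ * ((f + 1) * f) := Nat.mul_le_mul_left _ h4
  have h7 : δ * (2 * (d / δ + 1)) = 2 * (δ * (d / δ)) + 2 * δ := by ring
  omega

theorem card_of_sz {s u t j N : ℕ} (hj : j ≤ u + 1) (h : sz s u t j = 2 * N) :
    (Lfin s u t j).card = N := by
  have := card_Lfin (s := s) (t := t) hj
  omega

theorem master (h𝓘 : Stable 𝓘) {r δ κ d B N₀ : ℕ} (hδ : 2 ≤ δ)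
    (hr : r = δ * δ + 2 * κ)
    {u₀ t₀ j₀ : ℕ} (ht₀ : t₀ < r) (hj₀ : j₀ ≤ u₀ + 1)
    (hbase : RkS 𝓘 (↑(Lfin r u₀ t₀ j₀) : Set (ℕ × ℕ)) (Lfin r u₀ t₀ j₀).card)
    (hN₀ : sz r u₀ t₀ j₀ = 2 * N₀)
    (hc : κ = 0 ∨ 2 * N₀ < δ * δ * (δ * δ + 3) * (δ * δ + 4))
    (hd : δ * ((δ - 1) * (δ - 2)) ≤ 2 * d) (hB : δ * d ≤ B)
    (hBm : ∀ u, δ * δ * u * (u + 1) ≤ 2 * N₀ → u ≤ B)
    (hK : ∀ k : ℕ, 0 < k → k ≤ B → (k : K) ≠ 0) :
    (∀ N, (d + 1) * (d + 2) ≤ 2 * N₀ → 2 * N = (d + 1) * (d + 2) →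
      RkS 𝓘 (Tset d) N) ∧
    (2 * N₀ ≤ (d + 1) * (d + 2) → RkS 𝓘 (Tset d) N₀) := by
  have hs : 0 < δ * δ := Nat.mul_pos (by omega) (by omega)
  have hdm := Nat.div_add_mod d δ
  have hml := Nat.mod_lt d (show 0 < δ by omega)
  have hY := YY_le hδ hd
  obtain ⟨u1, t1, j1, ht1, hj1, hz1⟩ := exists_param (δ * δ) N₀ hs
  have hR1 := RkS.balanced h𝓘 hs hr ht₀ hj₀ hbase ht1 hj1 (hz1.trans hN₀.symm)
    (by rwa [hN₀]) B (hBm u1 (by unfold sz at hz1; omega)) hK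
  constructor
  · intro N hle hN
    obtain ⟨u, t, j, ht, hj, hz, himp⟩ := initial (n := N) h𝓘 hδ
      (show d + 1 = δ * (d / δ) + (d % δ + 1) by omega) hml hY hB hK
    refine himp ?_
    have hcN := card_of_sz hj (hz.trans hN.symm)
    rw [← coe_Lfin ht hj, ← hcN]
    exact hR1.subset (Lfin_subset ht hj ht1 hj1 (by rw [hz, hz1]; exact hle))
  · intro hle
    obtain ⟨u, t, j, ht, hj, hz, himp⟩ := initial (n := N₀) h𝓘 hδ
      (show d + 1 = δ * (d / δ) + (d % δ + 1) by omega) hml hY hB hK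
    refine himp ?_
    rw [← coe_Lfin ht hj]
    have h1 := card_of_sz hj1 hz1
    rw [h1] at hR1
    refine hR1.mono ?_
    have := Lfin_subset ht1 hj1 ht hj (by rw [hz, hz1]; exact hle)
    exact_mod_cast this

/-- The numerical condition. -/
def CondN (r N δ κ : ℕ) : Prop :=
  2 ≤ δ ∧ r = δ * δ + 2 * κ ∧ (κ = 0 ∨ 2 * N < δ * δ * (δ * δ + 3) * (δ * δ + 4))

omit [Infinite K] in
theorem exists_d0 (N : ℕ) (hN : 1 ≤ N) :
    ∃ d, (d + 1) * (d + 2) ≤ 2 * N ∧ 2 * N < (d + 2) * (d + 3) := by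
  have hX : ∀ X : ℕ, X < (X + 1) * (X + 2) := fun X => by nlinarith
  have h0 : ∃ d, 2 * N < (d + 1) * (d + 2) := ⟨2 * N, hX _⟩
  have h1 : Nat.find h0 ≠ 0 := by
    intro h
    have := Nat.find_spec h0
    rw [h] at this
    omega
  obtain ⟨d, hd⟩ := Nat.exists_eq_succ_of_ne_zero h1
  refine ⟨d, ?_, ?_⟩
  · have := Nat.find_min h0 (m := d) (by omega)
    exact not_lt.1 this
  · have := Nat.find_spec h0
    rw [hd] at this
    exact this

theorem exists_rank (h𝓘 : Stable 𝓘) {r N₀ : ℕ} (hN10 : 10 ≤ N₀)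
    {u₀ t₀ j₀ : ℕ} (ht₀ : t₀ < r) (hj₀ : j₀ ≤ u₀ + 1)
    (hbase : RkS 𝓘 (↑(Lfin r u₀ t₀ j₀) : Set (ℕ × ℕ)) (Lfin r u₀ t₀ j₀).card)
    (hN₀ : sz r u₀ t₀ j₀ = 2 * N₀)
    (hcond : ∃ δ κ, CondN r N₀ δ κ) (B : ℕ) (hBN : 2 * N₀ * r ≤ B * B)
    (hK : ∀ k : ℕ, 0 < k → k ≤ B → (k : K) ≠ 0) :
    ∃ d, (d + 1) * (d + 2) ≤ 2 * N₀ ∧ 2 * N₀ < (d + 2) * (d + 3) ∧
      (∀ N, 2 * N = (d + 1) * (d + 2) → RkS 𝓘 (Tset d) N) ∧
      RkS 𝓘 (Tset (d + 1)) N₀ := by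
  classical
  obtain ⟨d, hd1, hd2⟩ := exists_d0 N₀ (by omega)
  obtain ⟨κ, hδ, hrδ, hc⟩ := Nat.find_spec hcond
  have hmin := fun δ' => Nat.find_min hcond (m := δ')
  set δ := Nat.find hcond with hδdef
  have hdδ : δ * ((δ - 1) * (δ - 2)) ≤ 2 * d := by
    rcases Nat.lt_or_ge δ 4 with h4 | h4
    · rcases Nat.lt_or_ge δ 3 with h3 | h3
      · have h2 : δ = 2 := by omega
        rw [h2]
        omega
      · have h3' : δ = 3 := by omega
        rw [h3']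
        by_contra h
        have h5 : (d + 2) * (d + 3) ≤ 4 * 5 := Nat.mul_le_mul (by omega) (by omega)
        omega
    · obtain ⟨σ, hσ⟩ : ∃ σ, δ = σ + 2 := ⟨δ - 2, by omega⟩
      have h5 := hmin σ (by omega)
      have h6 : σ * σ * (σ * σ + 3) * (σ * σ + 4) ≤ 2 * N₀ := by
        by_contra h7
        refine h5 ⟨κ + 2 * δ - 2, by omega, ?_, Or.inr (by omega)⟩
        rw [hrδ, hσ]
        have : κ + 2 * (σ + 2) - 2 = κ + 2 * σ + 2 := by omega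
        rw [this]
        ring
      rw [hσ]
      have h8 : (σ + 2 - 1) * (σ + 2 - 2) = (σ + 1) * σ := rfl
      rw [h8]
      by_contra h9
      push Not at h9
      obtain ⟨y, rfl⟩ : ∃ y, σ = y + 2 := ⟨σ - 2, by omega⟩
      have h10 : (2 * d + 4) * (2 * d + 6) ≤
          ((y + 2 + 2) * ((y + 2 + 1) * (y + 2)) + 3) * ((y + 2 + 2) * ((y + 2 + 1) * (y + 2)) + 5) :=
        Nat.mul_le_mul (by omega) (by omega)
      have h11 : (2 * d + 4) * (2 * d + 6) = 4 * ((d + 2) * (d + 3)) := by ring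
      have h12 : ((y + 2 + 2) * ((y + 2 + 1) * (y + 2)) + 3) *
          ((y + 2 + 2) * ((y + 2 + 1) * (y + 2)) + 5) <
          4 * ((y + 2) * (y + 2) * ((y + 2) * (y + 2) + 3) * ((y + 2) * (y + 2) + 4)) := by
        zify
        have hy : (0 : ℤ) ≤ y := by positivity
        have h13 : (0 : ℤ) < 4 * ((y + 2) * (y + 2) * ((y + 2) * (y + 2) + 3) *
            ((y + 2) * (y + 2) + 4)) - ((y + 2 + 2) * ((y + 2 + 1) * (y + 2)) + 3) *
          ((y + 2 + 2) * ((y + 2 + 1) * (y + 2)) + 5) := by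
          ring_nf
          positivity
        linarith
      omega
  have hδr : δ * δ ≤ r := by omega
  have hBd : δ * (d + 1) ≤ B := by
    rw [← Nat.mul_self_le_mul_self_iff]
    have h1 : (d + 1) * (d + 1) ≤ 2 * N₀ := by nlinarith
    calc δ * (d + 1) * (δ * (d + 1)) = ((d + 1) * (d + 1)) * (δ * δ) := by ring
      _ ≤ 2 * N₀ * r := Nat.mul_le_mul h1 hδr
      _ ≤ B * B := hBN
  have hBm : ∀ u, δ * δ * u * (u + 1) ≤ 2 * N₀ → u ≤ B := by
    intro u hu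
    rw [← Nat.mul_self_le_mul_self_iff]
    have hδ1 : 1 ≤ δ * δ := Nat.mul_pos (by omega) (by omega)
    have h1 : u * u ≤ 2 * N₀ := by nlinarith
    have h2 : 1 ≤ r := by omega
    nlinarith
  refine ⟨d, hd1, hd2, fun N hN => ?_, ?_⟩
  · exact (master h𝓘 hδ hrδ ht₀ hj₀ hbase hN₀ hc hdδ
      (le_trans (Nat.mul_le_mul_left _ (by omega)) hBd) hBm hK).1 N hd1 hN
  · exact (master h𝓘 hδ hrδ ht₀ hj₀ hbase hN₀ hc (by omega) hBd hBm hK).2 hd2.le

end Pool.Agent.H932R3
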