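import Mathlib
import Pool.Agent.H15.G.R_seed8.H932R3.MasterS

set_option autoImplicit false

/-!
# Openness and dimension counts for points with different multiplicities
-/

namespace Pool.Agent.H932R3

open Polynomial Pool.Agent.H932R2

variable {K : Type*} [Field K]

/-- The intersection of the ideals `(y - γ_a, (x - c_a) ^ r) ^ (w_a)`. -/
noncomputable def vIdeal {ι : Type*} (r : ℕ) (w : ι → ℕ) (c : ι → K) (γ : ι → K[X]) :
    Ideal K[X][X] :=
  ⨅ a, cIdeal (fun _ : Fin r => c a) (γ a) (w a)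

/-- All the conditions. -/
noncomputable def condMapV {ι : Type*} (r : ℕ) (w : ι → ℕ) (c : ι → K) (γ : ι → K[X]) :
    K[X][X] →ₗ[K] ((Σ a : ι, EE r (w a)) → K) :=
  LinearMap.pi fun p => (LinearMap.proj p.2).comp (condMap r (w p.1) (c p.1) (γ p.1))

theorem mem_vIdeal_iff {ι : Type*} {r : ℕ} {w : ι → ℕ} {c : ι → K} {γ : ι → K[X]}
    {f : K[X][X]} : f ∈ vIdeal r w c γ ↔ condMapV r w c γ f = 0 := by
  unfold vIdeal
  simp only [Ideal.mem_iInf, mem_cIdeal_iff']
  constructor
  · intro h
    ext ⟨a, e⟩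
    exact congrFun (h a) e
  · intro h a
    ext e
    exact congrFun h ⟨a, e⟩

theorem exists_openV {σ ι : Type*} [Fintype ι] (r : ℕ) (w : ι → ℕ) (c : ι → MvPolynomial σ K)
    (γ : ι → (MvPolynomial σ K)[X]) (T : Set (ℕ × ℕ)) (n : ℕ) (P0 : σ → K)
    (h : RkI (vIdeal r w (fun a => MvPolynomial.eval P0 (c a))
      (fun a => (γ a).map (MvPolynomial.eval P0))) T n) :
    ∃ F : MvPolynomial σ K, F ≠ 0 ∧ ∀ P, MvPolynomial.eval P F ≠ 0 →
      RkI (vIdeal r w (fun a => MvPolynomial.eval P (c a))
        (fun a => (γ a).map (MvPolynomial.eval P))) T n := by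
  classical
  obtain ⟨v, hv, hli⟩ := h
  let L : (σ → K) → (Fin n → K) →ₗ[K] ((Σ a : ι, EE r (w a)) → K) := fun P =>
    (condMapV r w (fun a => MvPolynomial.eval P (c a))
      (fun a => (γ a).map (MvPolynomial.eval P))).comp (Fintype.linearCombination K v)
  have hL : ∀ P (a : Fin n → K), L P a = condMapV r w (fun a => MvPolynomial.eval P (c a))
      (fun a => (γ a).map (MvPolynomial.eval P)) (∑ i, a i • v i) := fun P a => rfl
  have hker : LinearMap.ker (L P0) = ⊥ := by
    rw [LinearMap.ker_eq_bot']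
    intro a ha
    rw [hL, ← mem_vIdeal_iff] at ha
    exact funext (hli a ha)
  obtain ⟨G, hG⟩ := LinearMap.exists_leftInverse_of_injective (L P0) hker
  let Gen : (Σ a : ι, EE r (w a)) → Fin n → MvPolynomial σ K := fun p i =>
    ((sh (c p.1) (γ p.1) ((v i).map (mapRingHom MvPolynomial.C))).coeff p.2.1.2).coeff p.2.1.1
  have hGen : ∀ P p i, MvPolynomial.eval P (Gen p i) = L P (Pi.single i 1) p := by
    intro P p i
    rw [hL]
    have h1 : ∑ j, (Pi.single i 1 : Fin n → K) j • v j = v i := by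
      rw [Finset.sum_eq_single i]
      · simp
      · intro j _ hj
        rw [Pi.single_eq_of_ne hj, zero_smul]
      · intro h
        exact absurd (Finset.mem_univ i) h
    rw [h1]
    exact eval_gen P (c p.1) (γ p.1) (v i) _ _
  let Mx : Matrix (Fin n) (Fin n) (MvPolynomial σ K) := fun k i =>
    ∑ p, MvPolynomial.C (G (Pi.single p 1) k) * Gen p i
  have hMx : ∀ P k i, MvPolynomial.eval P (Mx k i) = G (L P (Pi.single i 1)) k := by
    intro P k i
    show MvPolynomial.eval P (∑ p, MvPolynomial.C (G (Pi.single p 1) k) * Gen p i) = _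
    rw [map_sum]
    have h1 : L P (Pi.single i 1) = ∑ p, (L P (Pi.single i 1) p) • (Pi.single p 1 : _ → K) := by
      ext q
      simp [Finset.sum_apply, Pi.single_apply]
    conv_rhs => rw [h1]
    rw [map_sum, Finset.sum_apply]
    refine Finset.sum_congr rfl fun p _ => ?_
    rw [map_mul, MvPolynomial.eval_C, hGen, map_smul, Pi.smul_apply, smul_eq_mul, mul_comm]
  have hdet : ∀ P, MvPolynomial.eval P Mx.det =
      (Matrix.of fun k i => G (L P (Pi.single i 1)) k).det := by
    intro P
    rw [RingHom.map_det]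
    congr 1
    ext k i
    exact hMx P k i
  refine ⟨Mx.det, ?_, fun P hP => ⟨v, hv, fun a ha => ?_⟩⟩
  · intro h0
    have h1 := hdet P0
    rw [h0, map_zero] at h1
    have h2 : (Matrix.of fun k i => G (L P0 (Pi.single i 1)) k) = (1 : Matrix (Fin n) (Fin n) K) := by
      ext k i
      have h3 : G (L P0 (Pi.single i 1)) = Pi.single i 1 :=
        LinearMap.congr_fun hG (Pi.single i 1)
      rw [Matrix.of_apply, h3, Matrix.one_apply, Pi.single_apply]
    rw [h2, Matrix.det_one] at h1
    exact zero_ne_one h1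
  · rw [hdet] at hP
    rw [mem_vIdeal_iff, ← hL] at ha
    have h1 : (Matrix.of fun k i => G (L P (Pi.single i 1)) k).mulVec a = 0 := by
      ext k
      rw [Matrix.mulVec, dotProduct, Pi.zero_apply]
      have h2 : a = ∑ i, a i • (Pi.single i 1 : Fin n → K) := by
        ext q
        simp [Finset.sum_apply, Pi.single_apply]
      have h3 : G (L P a) k = ∑ i, a i * G (L P (Pi.single i 1)) k := by
        conv_lhs => rw [h2]
        rw [map_sum, map_sum, Finset.sum_apply]
        refine Finset.sum_congr rfl fun i _ => ?_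
        rw [map_smul, map_smul, Pi.smul_apply, smul_eq_mul]
      rw [ha, map_zero, Pi.zero_apply] at h3
      rw [h3]
      exact Finset.sum_congr rfl fun i _ => mul_comm _ _
    exact fun i => congrFun (Matrix.eq_zero_of_mulVec_eq_zero hP h1) i

theorem finrank_infV {ι : Type*} [Fintype ι] {r : ℕ} {w : ι → ℕ} {c : ι → K} {γ : ι → K[X]}
    {M : Finset (ℕ × ℕ)} {n : ℕ}
    (hR : RkI (vIdeal r w c γ) (↑M : Set (ℕ × ℕ)) n)
    (hn : n = M.card ∨ n = ∑ a, (EE r (w a)).card) :
    Module.finrank K ↥(mspan K (↑M : Set (ℕ × ℕ)) ⊓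
      Submodule.restrictScalars K (vIdeal r w c γ)) =
      M.card - ∑ a, (EE r (w a)).card := by
  classical
  obtain ⟨v, hv, hli⟩ := hR
  have hcard : Fintype.card (Σ a : ι, EE r (w a)) = ∑ a, (EE r (w a)).card := by
    rw [Fintype.card_sigma]
    exact Finset.sum_congr rfl fun a _ => Fintype.card_coe _
  choose u hu using fun i => (mem_mspan_iff M (v i)).1 (hv i)
  have h1 := finrank_ker_aux ((condMapV r w c γ).comp (coordMap K M)) u ?_
    (by rwa [hcard])
  · rw [hcard] at h1
    rw [← h1]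
    symm
    refine LinearEquiv.finrank_eq (LinearEquiv.ofBijective
      { toFun := fun f => ⟨coordMap K M f.1, (mem_mspan_iff M _).2 ⟨f.1, rfl⟩,
          mem_vIdeal_iff.2 f.2⟩
        map_add' := fun f g => Subtype.ext (map_add _ _ _)
        map_smul' := fun a f => Subtype.ext (map_smul _ _ _) } ⟨?_, ?_⟩)
    · intro f g hfg
      exact Subtype.ext (coordMap_inj M (congrArg Subtype.val hfg))
    · rintro ⟨f, hf, hf'⟩
      obtain ⟨a, rfl⟩ := (mem_mspan_iff M f).1 hf
      exact ⟨⟨a, mem_vIdeal_iff.1 hf'⟩, rfl⟩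
  · rw [Fintype.linearIndependent_iff]
    intro a ha
    apply hli a
    rw [mem_vIdeal_iff, map_sum, ← ha]
    refine Finset.sum_congr rfl fun i _ => ?_
    rw [map_smul, LinearMap.comp_apply, hu]

/-- The dimension in every degree from the ranks in two consecutive degrees. -/
theorem finrank_allV {ι : Type*} [Fintype ι] {r : ℕ} {w : ι → ℕ} {c : ι → K} {γ : ι → K[X]}
    {e : ℕ}
    (h2 : RkI (vIdeal r w c γ) (Tset e) (Tfin e).card)
    (h3 : RkI (vIdeal r w c γ) (Tset (e + 1)) (∑ a, (EE r (w a)).card)) (d : ℕ) :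
    Module.finrank K ↥(mspan K (Tset d) ⊓ Submodule.restrictScalars K (vIdeal r w c γ)) =
      (d + 2).choose 2 - ∑ a, (EE r (w a)).card := by
  have hN : ∀ d, (Tfin d).card = (d + 2).choose 2 := by
    intro d
    have h4 := card_Tfin d
    have h5 : (d + 2).choose 2 * 2 = (d + 2) * (d + 1) := by
      rw [Nat.choose_two_right, Nat.div_mul_cancel (Nat.even_mul_pred_self _).two_dvd]
      rfl
    linarith
  rcases Nat.lt_or_ge e d with h | h
  · rw [← coe_Tfin, ← hN]
    refine finrank_infV (n := ∑ a, (EE r (w a)).card) ?_ (Or.inr rfl)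
    rw [coe_Tfin]
    exact h3.mono (Tset_mono h)
  · rw [← coe_Tfin, ← hN]
    refine finrank_infV (n := (Tfin d).card) ?_ (Or.inl rfl)
    rw [← coe_Tfin] at h2
    refine h2.subset ?_
    have := Tset_mono h
    rw [← coe_Tfin, ← coe_Tfin] at this
    exact_mod_cast this

end Pool.Agent.H932R3
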