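import Mathlib
import Pool.Agent.H15.G.R_seed8.H932R3.OpenV

set_option autoImplicit false

/-!
# Full compressions and reachable slopes
-/

namespace Pool.Agent.H932R3

open Polynomial Pool.Agent.H932R2

/-- The rows met by `M` on the line `i + ρ l = n`. -/
def lineRows (ρ : ℕ) (M : Finset (ℕ × ℕ)) (n : ℕ) : Finset ℕ :=
  (M.filter fun p => p.1 + ρ * p.2 = n).image Prod.snd

theorem mem_lineRows {ρ : ℕ} {M : Finset (ℕ × ℕ)} {n l : ℕ} :
    l ∈ lineRows ρ M n ↔ ρ * l ≤ n ∧ (n - ρ * l, l) ∈ M := by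
  unfold lineRows
  rw [Finset.mem_image]
  constructor
  · rintro ⟨⟨i, l'⟩, hp, rfl⟩
    rw [Finset.mem_filter] at hp
    obtain ⟨h1, h2⟩ := hp
    simp only at h2 ⊢
    refine ⟨by omega, ?_⟩
    have : n - ρ * l' = i := by omega
    rwa [this]
  · rintro ⟨h1, h2⟩
    exact ⟨_, Finset.mem_filter.2 ⟨h2, Nat.sub_add_cancel h1⟩, rfl⟩

theorem card_lineRows (ρ : ℕ) (M : Finset (ℕ × ℕ)) (n : ℕ) :
    (lineRows ρ M n).card = (M.filter fun p => p.1 + ρ * p.2 = n).card := by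
  unfold lineRows
  refine Finset.card_image_of_injOn ?_
  rintro ⟨i, l⟩ hp ⟨i', l'⟩ hp' h
  rw [Finset.mem_coe, Finset.mem_filter] at hp hp'
  simp only at h hp hp'
  subst h
  rw [Prod.mk.injEq]
  exact ⟨by omega, rfl⟩

theorem exists_row {ρ : ℕ} {M : Finset (ℕ × ℕ)} {n q : ℕ} (h : q < (lineRows ρ M n).card) :
    ∃ l, ρ * l + ρ * q ≤ n ∧ (n - ρ * l, l) ∈ M := by
  have hne : (lineRows ρ M n).Nonempty := Finset.card_pos.1 (by omega)
  have h1 := (lineRows ρ M n).min'_mem hne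
  have h2 := (lineRows ρ M n).max'_mem hne
  have h3 : lineRows ρ M n ⊆
      Finset.Icc ((lineRows ρ M n).min' hne) ((lineRows ρ M n).max' hne) := by
    intro l hl
    rw [Finset.mem_Icc]
    exact ⟨Finset.min'_le _ _ hl, Finset.le_max' _ _ hl⟩
  have h4 := Finset.card_le_card h3
  rw [Nat.card_Icc] at h4
  rw [mem_lineRows] at h1 h2
  refine ⟨_, ?_, h1.2⟩
  rw [← Nat.mul_add]
  exact (Nat.mul_le_mul_left _ (by omega)).trans h2.1

/-- The full compression of a finite set. -/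
def cY (ρ : ℕ) (M : Finset (ℕ × ℕ)) : Finset (ℕ × ℕ) :=
  ((Finset.range (M.sup (fun p => p.1 + ρ * p.2) + 1)).sigma fun n =>
    Finset.range (lineRows ρ M n).card).image fun x => (x.1 - ρ * x.2, x.2)

theorem mem_cY {ρ : ℕ} {M : Finset (ℕ × ℕ)} {i q : ℕ} (h : (i, q) ∈ cY ρ M) :
    q < (lineRows ρ M (i + ρ * q)).card := by
  unfold cY at h
  rw [Finset.mem_image] at h
  obtain ⟨⟨n, q'⟩, hx, hx'⟩ := h
  rw [Finset.mem_sigma] at hx
  simp only [Finset.mem_range, Prod.mk.injEq] at hx hx'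
  obtain ⟨h1, rfl⟩ := hx'
  obtain ⟨l, h2, _⟩ := exists_row hx.2
  have h3 : i + ρ * q' = n := by omega
  rw [h3]
  exact hx.2

theorem card_cY (ρ : ℕ) (M : Finset (ℕ × ℕ)) : (cY ρ M).card = M.card := by
  unfold cY
  rw [Finset.card_image_of_injOn, Finset.card_sigma]
  · simp only [Finset.card_range, card_lineRows]
    refine (Finset.card_eq_sum_card_fiberwise fun p hp => ?_).symm
    rw [Finset.mem_coe, Finset.mem_range, Nat.lt_succ_iff]
    exact Finset.le_sup (f := fun p : ℕ × ℕ => p.1 + ρ * p.2) hp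
  · rintro ⟨n, q⟩ hx ⟨n', q'⟩ hx' h
    rw [Finset.mem_coe, Finset.mem_sigma] at hx hx'
    simp only [Finset.mem_range, Prod.mk.injEq] at hx hx' h
    obtain ⟨h1, rfl⟩ := h
    obtain ⟨l, h2, _⟩ := exists_row hx.2
    obtain ⟨l', h2', _⟩ := exists_row hx'.2
    have : n = n' := by omega
    subst this
    rfl

theorem row_le_of_mem_cY {ρ B : ℕ} {M : Finset (ℕ × ℕ)} (hM : ∀ p ∈ M, p.2 ≤ B)
    {i q : ℕ} (h : (i, q) ∈ cY ρ M) : q ≤ B := by
  have h1 := mem_cY h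
  have h2 : lineRows ρ M (i + ρ * q) ⊆ Finset.range (B + 1) := by
    intro l hl
    rw [Finset.mem_range]
    exact Nat.lt_succ_of_le (hM _ (mem_lineRows.1 hl).2)
  have h3 := Finset.card_le_card h2
  rw [Finset.card_range] at h3
  omega

theorem domY_cY {ρ B : ℕ} {M : Finset (ℕ × ℕ)} (hM : ∀ p ∈ M, p.2 ≤ B) :
    DomY ρ B (↑M : Set (ℕ × ℕ)) (↑(cY ρ M) : Set (ℕ × ℕ)) := by
  rintro ⟨i, q⟩ hp
  have h1 : q + 1 ≤ (lineRows ρ M (i + ρ * q)).card := mem_cY hp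
  refine ⟨fun a => ((lineRows ρ M (i + ρ * q)).equivFin.symm (Fin.castLE h1 a) : ℕ),
    fun a b hab => ?_, fun a => ?_⟩
  · exact Fin.castLE_injective h1 ((lineRows ρ M (i + ρ * q)).equivFin.symm.injective
      (Subtype.val_injective hab))
  · have h2 := mem_lineRows.1 ((lineRows ρ M (i + ρ * q)).equivFin.symm (Fin.castLE h1 a)).2
    exact ⟨hM _ h2.2, h2.1, h2.2⟩

theorem cY_bound {ρ : ℕ} (hρ : 0 < ρ) {M : Finset (ℕ × ℕ)} {α β V : ℝ} (h : β ≤ ρ * α)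
    (hM : ∀ p ∈ M, α * (p.1 : ℝ) + β * (p.2 : ℝ) ≤ V) :
    ∀ p ∈ cY ρ M, (β / ρ) * (p.1 : ℝ) + (ρ * α) * (p.2 : ℝ) ≤ V := by
  rintro ⟨i, q⟩ hp
  obtain ⟨l, h1, h2⟩ := exists_row (mem_cY hp)
  have h3 := hM _ h2
  simp only at h3 ⊢
  have h4 : ((i + ρ * q - ρ * l : ℕ) : ℝ) = (i : ℝ) + ρ * q - ρ * l := by
    rw [Nat.cast_sub (by omega)]
    push_cast
    ring
  rw [h4] at h3
  have hρ' : (0 : ℝ) < ρ := by exact_mod_cast hρ
  have h5 : (ρ : ℝ) * l ≤ i := by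
    have : ρ * l ≤ i := by omega
    exact_mod_cast this
  have h6 : 0 ≤ (ρ * α - β) * ((i : ℝ) / ρ - l) := by
    refine mul_nonneg (by linarith) ?_
    rw [sub_nonneg, le_div_iff₀ hρ']
    linarith
  have h7 : (ρ * α - β) * ((i : ℝ) / ρ - l) =
      α * i - (β / ρ) * i - (ρ * α - β) * l := by
    field_simp
  rw [h7] at h6
  nlinarith

/-- The slopes reachable from `δ ^ 2`. -/
inductive Reach (δ : ℕ) : ℝ → Prop
  | base : Reach δ ((δ : ℝ) ^ 2)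
  | step (σ : ℝ) (ρ : ℕ) : Reach δ σ → σ ≤ ρ → Reach δ ((ρ : ℝ) ^ 2 / σ)

theorem Reach.pos {δ : ℕ} (hδ : 0 < δ) {σ : ℝ} (h : Reach δ σ) : 0 < σ := by
  induction h with
  | base => positivity
  | step σ ρ _ h2 ih =>
    have : (0 : ℝ) < ρ := lt_of_lt_of_le ih h2
    positivity

variable {K : Type*} [Field K] [Infinite K]

theorem reach_chain {𝓘 : Set (Ideal K[X][X])} (h𝓘 : Stable 𝓘) {δ B : ℕ} (hδ : 0 < δ)
    (hK : ∀ k : ℕ, 0 < k → k ≤ B → (k : K) ≠ 0) {M : Finset (ℕ × ℕ)}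
    (hMB : ∀ p ∈ M, p.2 ≤ B) {V : ℝ}
    (hM : ∀ p ∈ M, (p.1 : ℝ) + (δ : ℝ) ^ 2 * (p.2 : ℝ) ≤ V) {σ : ℝ} (hσ : Reach δ σ) :
    ∃ M' : Finset (ℕ × ℕ), (∀ p ∈ M', p.2 ≤ B) ∧ M'.card = M.card ∧
      (∀ p ∈ M', (δ / Real.sqrt σ) * (p.1 : ℝ) + (δ * Real.sqrt σ) * (p.2 : ℝ) ≤ V) ∧
      (RkS 𝓘 (↑M' : Set (ℕ × ℕ)) M'.card → RkS 𝓘 (↑M : Set (ℕ × ℕ)) M.card) := by
  induction hσ with
  | base =>
    refine ⟨M, hMB, rfl, fun p hp => ?_, fun h => h⟩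
    have hδ' : (0 : ℝ) < δ := by exact_mod_cast hδ
    rw [Real.sqrt_sq hδ'.le, div_self hδ'.ne', one_mul]
    have := hM p hp
    rwa [pow_two] at this
  | step σ ρ hσ hρ ih =>
    obtain ⟨M', h1, h2, h3, h4⟩ := ih
    have hσ0 : 0 < σ := hσ.pos hδ
    have hρ0 : (0 : ℝ) < ρ := lt_of_lt_of_le hσ0 hρ
    have hρ1 : 0 < ρ := by exact_mod_cast hρ0
    have hs0 : 0 < Real.sqrt σ := Real.sqrt_pos.2 hσ0
    have hδ' : (0 : ℝ) < δ := by exact_mod_cast hδ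
    have hss : Real.sqrt σ * Real.sqrt σ = σ := Real.mul_self_sqrt hσ0.le
    refine ⟨cY ρ M', ?_, (card_cY ρ M').trans h2, ?_, fun h => h4 ?_⟩
    · rintro ⟨i, q⟩ hp
      exact row_le_of_mem_cY h1 hp
    · have h5 := cY_bound hρ1 (α := δ / Real.sqrt σ) (β := δ * Real.sqrt σ) ?_ h3
      · intro p hp
        have h6 := h5 p hp
        have h7 : Real.sqrt ((ρ : ℝ) ^ 2 / σ) = ρ / Real.sqrt σ := by
          rw [Real.sqrt_div (by positivity), Real.sqrt_sq hρ0.le]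
        rw [h7]
        have h8 : (δ : ℝ) / (ρ / Real.sqrt σ) = δ * Real.sqrt σ / ρ := by
          field_simp
        have h9 : (δ : ℝ) * (ρ / Real.sqrt σ) = ρ * (δ / Real.sqrt σ) := by ring
        rw [h8, h9]
        exact h6
      · rw [mul_div_assoc', le_div_iff₀ hs0, mul_assoc, hss, mul_comm (ρ : ℝ)]
        exact mul_le_mul_of_nonneg_left hρ hδ'.le
    · rw [card_cY] at h
      exact RkS.compressY h𝓘 ρ B hK (domY_cY h1) h

theorem initialV {𝓘 : Set (Ideal K[X][X])} {n : ℕ} (h𝓘 : Stable 𝓘) {δ d k b B : ℕ} (hδ : 2 ≤ δ) (hd : d + 1 = δ * k + b)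
    (hb' : b ≤ δ) (hY : YY δ b ≤ k) (hB : δ * d ≤ B)
    (hK : ∀ k : ℕ, 0 < k → k ≤ B → (k : K) ≠ 0) :
    ∃ u t j, t < δ * δ ∧ j ≤ u + 1 ∧ sz (δ * δ) u t j = (d + 1) * (d + 2) ∧
      δ * δ * u + t + cc δ = δ * (d + 1) ∧
      (RkS 𝓘 (Lset (δ * δ) (δ * δ * u + t) j) n → RkS 𝓘 (Tset d) n) := by
  have hdB : d ≤ B := (Nat.le_mul_of_pos_left d (by omega)).trans hB
  have hkB : k ≤ B := by
    rcases k with _ | k
    · omega
    · have h1 : k + 1 ≤ δ * (k + 1) / 2 * 1 := by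
        rw [mul_one, Nat.le_div_iff_mul_le (by norm_num)]
        nlinarith
      have h2 : δ * (k + 1) ≥ 2 * (k + 1) := Nat.mul_le_mul_right _ hδ
      omega
  obtain ⟨e, he⟩ : ∃ e, δ = b + e := Nat.exists_eq_add_of_le hb'
  have hY2 : 2 * YY δ b + e = e * e := by
    rw [he]
    exact YY_two b e
  have hc2 := cc_two δ
  have hcnt := cnt_add δ b
  obtain ⟨c, hc⟩ : ∃ c, c = cc δ := ⟨_, rfl⟩
  obtain ⟨Y, hYd⟩ : ∃ Y, Y = YY δ b := ⟨_, rfl⟩
  rw [← hc] at hc2 hcnt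
  rw [← hYd] at hY hY2 hcnt
  have hcs : c < δ * δ := by omega
  have hbs : δ * b ≤ δ * δ := Nat.mul_le_mul_left _ hb'
  have hδδ : 2 * δ ≤ δ * δ := Nat.mul_le_mul_right _ hδ
  obtain ⟨σ, hσ⟩ : ∃ σ, δ * δ = σ + 1 := ⟨δ * δ - 1, by omega⟩
  have key : ∀ V, V + c = δ * δ * k + δ * b →
      RkS 𝓘 (Lset (δ * δ) V (Y - (c - δ * b))) n → RkS 𝓘 (Tset d) n := by
    intro V hV h
    refine RkS.compressY h𝓘 δ B hK (step_M1 (by omega) hdB) ?_
    refine RkS.compressX h𝓘 B hK (step_D (by omega) hd hb' hB) ?_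
    rw [← hc, ← hYd, hσ]
    refine RkS.compressY h𝓘 σ B hK (step_E (g := δ * b) rfl hkB) ?_
    rw [← hσ]
    exact RkS.compressY h𝓘 (δ * δ) B hK (step_L (by omega) (by rw [hσ]) (by rw [hV, hσ]) (by omega)
      hY hkB) h
  rcases Nat.lt_or_ge (δ * b) c with h1 | h1
  · obtain ⟨w, rfl⟩ : ∃ w, k = w + 1 := ⟨k - 1, by omega⟩
    obtain ⟨g, hg⟩ : ∃ g, c = δ * b + g := Nat.exists_eq_add_of_le h1.le
    obtain ⟨t, ht⟩ : ∃ t, δ * δ = g + t := Nat.exists_eq_add_of_le (by omega)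
    obtain ⟨j, hj⟩ : ∃ j, Y = g + j := Nat.exists_eq_add_of_le (by omega)
    refine ⟨w, t, j, by omega, by omega, ?_, ?_, ?_⟩
    · unfold sz
      rw [hd, show d + 2 = (d + 1) + 1 from rfl, hd]
      zify at he hY2 hc2 hg ht hj ⊢
      have he' : (e : ℤ) = δ - b := by linarith
      rw [he'] at hY2
      have ht' : (t : ℤ) = δ * δ - g := by linarith
      have hj' : (j : ℤ) = Y - g := by linarith
      have hg' : (g : ℤ) = c - δ * b := by linarith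
      rw [ht', hj', hg']
      linear_combination hY2 - ((w : ℤ) + 2) * hc2
    · rw [← hc, hd]
      have e1 : δ * (δ * (w + 1) + b) = δ * δ * w + δ * δ + δ * b := by ring
      omega
    · have := key (δ * δ * w + t) (by
        have e1 : δ * δ * (w + 1) = δ * δ * w + δ * δ := by ring
        omega)
      have h3 : Y - (c - δ * b) = j := by omega
      rwa [h3] at this
  · obtain ⟨t, ht⟩ : ∃ t, δ * b = c + t := Nat.exists_eq_add_of_le h1
    refine ⟨k, t, Y, by omega, by omega, ?_, ?_, ?_⟩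
    · unfold sz
      rw [hd, show d + 2 = (d + 1) + 1 from rfl, hd]
      zify at he hY2 hc2 ht ⊢
      have he' : (e : ℤ) = δ - b := by linarith
      rw [he'] at hY2
      have ht' : (t : ℤ) = δ * b - c := by linarith
      rw [ht']
      linear_combination hY2 - ((k : ℤ) + 1) * hc2
    · rw [← hc, hd]
      have e1 : δ * (δ * k + b) = δ * δ * k + δ * b := by ring
      omega
    · have := key (δ * δ * k + t) (by omega)
      have h3 : Y - (c - δ * b) = Y := by omega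
      rwa [h3] at this



theorem nagata_rank {𝓘 : Set (Ideal K[X][X])} (h𝓘 : Stable 𝓘) {r m δ d B : ℕ} (hδ : 2 ≤ δ)
    (hbase : RkS 𝓘 (↑(EE r m) : Set (ℕ × ℕ)) (EE r m).card)
    (hd : δ * ((δ - 1) * (δ - 2)) ≤ 2 * d) (hB : δ * d ≤ B)
    (hK : ∀ k : ℕ, 0 < k → k ≤ B → (k : K) ≠ 0) {σ : ℝ} (hσ : Reach δ σ)
    (h1 : 2 * (d : ℝ) + 3 - δ < 2 * m * Real.sqrt σ)
    (h2 : (2 * (d : ℝ) + 3 - δ) * Real.sqrt σ < 2 * m * r) :
    RkS 𝓘 (Tset d) (Tfin d).card := by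
  have hml := Nat.mod_lt d (show 0 < δ by omega)
  have hdm := Nat.div_add_mod d δ
  obtain ⟨u, t, j, ht, hj, hz, hV, himp⟩ := initialV (n := (Tfin d).card) h𝓘 hδ
    (show d + 1 = δ * (d / δ) + (d % δ + 1) by omega) hml (YY_le hδ hd) hB hK
  refine himp ?_
  have hδ0 : 0 < δ := by omega
  have hδ' : (0 : ℝ) < δ := by exact_mod_cast hδ0
  have hcard : (Lfin (δ * δ) u t j).card = (Tfin d).card :=
    card_of_sz hj (hz.trans (card_Tfin d).symm)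
  rw [← coe_Lfin ht hj, ← hcard]
  have hc := cc_two δ
  obtain ⟨V, hVd⟩ : ∃ V : ℝ, V = ((δ * δ * u + t : ℕ) : ℝ) := ⟨_, rfl⟩
  have hVe : 2 * V = δ * (2 * (d : ℝ) + 3 - δ) := by
    have h3 : ((δ * δ * u + t + cc δ : ℕ) : ℝ) = ((δ * (d + 1) : ℕ) : ℝ) := by rw [hV]
    have h4 : ((2 * cc δ + δ : ℕ) : ℝ) = ((δ * δ : ℕ) : ℝ) := by rw [hc]
    rw [hVd]
    push_cast at h3 h4 ⊢
    linarith
  have hLV : ∀ p ∈ Lfin (δ * δ) u t j, (p.1 : ℝ) + (δ : ℝ) ^ 2 * (p.2 : ℝ) ≤ V := by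
    rintro ⟨i, l⟩ hp
    have h3 : ((i, l) : ℕ × ℕ) ∈ (↑(Lfin (δ * δ) u t j) : Set (ℕ × ℕ)) := hp
    rw [coe_Lfin ht hj, mem_Lset] at h3
    have h4 : i + δ * δ * l ≤ δ * δ * u + t := by omega
    have h5 : ((i + δ * δ * l : ℕ) : ℝ) ≤ ((δ * δ * u + t : ℕ) : ℝ) := by exact_mod_cast h4
    rw [← hVd] at h5
    push_cast at h5
    simp only
    nlinarith
  have hLB : ∀ p ∈ Lfin (δ * δ) u t j, p.2 ≤ B := by
    rintro ⟨i, l⟩ hp
    have h3 : ((i, l) : ℕ × ℕ) ∈ (↑(Lfin (δ * δ) u t j) : Set (ℕ × ℕ)) := hp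
    rw [coe_Lfin ht hj, mem_Lset] at h3
    have h4 : δ * δ * l ≤ δ * δ * u + t := by omega
    have h5 : δ * (δ * l) ≤ δ * (d + 1) := by
      rw [← Nat.mul_assoc]
      omega
    have h6 : δ * l ≤ d + 1 := Nat.le_of_mul_le_mul_left h5 hδ0
    have h7 : 2 * l ≤ δ * l := Nat.mul_le_mul_right _ hδ
    have h8 : 2 * d ≤ δ * d := Nat.mul_le_mul_right _ hδ
    simp only
    omega
  obtain ⟨M', h3, h4, h5, h6⟩ := reach_chain h𝓘 hδ0 hK hLB hLV hσ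
  refine h6 (hbase.subset ?_)
  have hσ0 : 0 < σ := hσ.pos hδ0
  have hs0 : 0 < Real.sqrt σ := Real.sqrt_pos.2 hσ0
  have hss : Real.sqrt σ * Real.sqrt σ = σ := Real.mul_self_sqrt hσ0.le
  rintro ⟨i, l⟩ hp
  have h7 := h5 _ hp
  simp only at h7
  have h8 : (i : ℝ) + σ * l ≤ (2 * (d : ℝ) + 3 - δ) / 2 * Real.sqrt σ := by
    have h9 : (δ / Real.sqrt σ * (i : ℝ) + δ * Real.sqrt σ * (l : ℝ)) * (Real.sqrt σ / δ) =
        i + σ * l := by
      field_simp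
      rw [pow_two, hss]
      ring
    rw [← h9]
    have h10 : V = δ * ((2 * (d : ℝ) + 3 - δ) / 2) := by linarith
    have h11 : (2 * (d : ℝ) + 3 - δ) / 2 * Real.sqrt σ = V * (Real.sqrt σ / δ) := by
      rw [h10]
      field_simp
    rw [h11]
    exact mul_le_mul_of_nonneg_right h7 (by positivity)
  have hi0 : (0 : ℝ) ≤ i := Nat.cast_nonneg i
  have hl0 : (0 : ℝ) ≤ l := Nat.cast_nonneg l
  have hr0 : (0 : ℝ) ≤ r := Nat.cast_nonneg r
  have hlm : l < m := by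
    have h12 : σ * l < σ * m := by nlinarith
    have h13 : (l : ℝ) < m := lt_of_mul_lt_mul_left h12 hσ0.le
    exact_mod_cast h13
  rw [mem_EE]
  refine ⟨hlm, ?_⟩
  have h14 : (i : ℝ) < r * (m - l) := by
    have hlm' : (l : ℝ) + 1 ≤ m := by exact_mod_cast hlm
    rcases le_total σ r with h15 | h15
    · have h16 : (i : ℝ) < σ * (m - l) := by nlinarith
      have h17 : σ * ((m : ℝ) - l) ≤ r * (m - l) :=
        mul_le_mul_of_nonneg_right h15 (by linarith)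
      linarith
    · have h16 : (r : ℝ) * l ≤ σ * l := mul_le_mul_of_nonneg_right h15 hl0
      nlinarith
  have h15 : ((r * (m - l) : ℕ) : ℝ) = r * (m - l) := by
    rw [Nat.cast_mul, Nat.cast_sub hlm.le]
  rw [← h15] at h14
  exact_mod_cast h14

end Pool.Agent.H932R3
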