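import Mathlib
import Pool.Agent.H15.G.R_seed8.H932R3.ReachS

set_option autoImplicit false

/-!
# Reachable slopes close to a given integer
-/

namespace Pool.Agent.H932R3

theorem reach_unit {δ : ℕ} (hδ : 4 ≤ δ) (k : ℕ) (hk : k ≤ δ) :
    ∃ σ : ℝ, Reach δ σ ∧ σ ≤ (δ : ℝ) ^ 2 + 4 * k ∧
      ((δ : ℝ) ^ 2 + 4 * k) * (1 - 4 * k / (δ : ℝ) ^ 6) ≤ σ := by
  have hδ4 : (4 : ℝ) ≤ δ := by exact_mod_cast hδ
  induction k with
  | zero =>
    refine ⟨_, Reach.base, ?_, ?_⟩ <;> simp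
  | succ k ih =>
    obtain ⟨σ, h1, h2, h3⟩ := ih (by omega)
    have hσ0 : 0 < σ := h1.pos (by omega)
    obtain ⟨x, hx⟩ : ∃ x : ℝ, x = (δ : ℝ) ^ 2 + 4 * k := ⟨_, rfl⟩
    rw [← hx] at h2 h3
    have hkδ : (k : ℝ) + 1 ≤ δ := by exact_mod_cast hk
    have hk0 : (0 : ℝ) ≤ k := Nat.cast_nonneg k
    have hx1 : (δ : ℝ) ^ 2 ≤ x := by rw [hx]; linarith
    have hx16 : (16 : ℝ) ≤ x := by nlinarith
    have hx2 : x ≤ (δ : ℝ) ^ 2 + 4 * δ := by rw [hx]; linarith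
    have hδ6 : (0 : ℝ) < (δ : ℝ) ^ 6 := by positivity
    have hfrac : x * (4 * k / (δ : ℝ) ^ 6) ≤ 1 / 2 := by
      rw [mul_div_assoc', div_le_iff₀ hδ6]
      have h4 : x * (4 * k) ≤ ((δ : ℝ) ^ 2 + 4 * δ) * (4 * δ) := by
        apply mul_le_mul hx2 (by linarith) (by positivity) (by positivity)
      have h5 : ((δ : ℝ) ^ 2 + 4 * δ) * (4 * δ) ≤ 1 / 2 * (δ : ℝ) ^ 6 := by
        have h6 : (256 : ℝ) ≤ (δ : ℝ) ^ 4 := by
          calc (256 : ℝ) = 4 ^ 4 := by norm_num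
            _ ≤ (δ : ℝ) ^ 4 := by gcongr
        have h7 : (δ : ℝ) ^ 6 = (δ : ℝ) ^ 4 * (δ : ℝ) ^ 2 := by ring
        rw [h7]
        have h8 : (δ : ℝ) ^ 2 + 4 * δ ≤ 2 * (δ : ℝ) ^ 2 := by nlinarith
        have h9 : 4 * (δ : ℝ) ≤ (δ : ℝ) ^ 2 := by nlinarith
        have h10 : ((δ : ℝ) ^ 2 + 4 * δ) * (4 * δ) ≤ 2 * (δ : ℝ) ^ 2 * (δ : ℝ) ^ 2 :=
          mul_le_mul h8 h9 (by positivity) (by positivity)
        nlinarith [mul_nonneg (sub_nonneg.2 h6) (sq_nonneg (δ : ℝ)), sq_nonneg ((δ : ℝ) ^ 2),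
          mul_le_mul_of_nonneg_right (show (4 : ℝ) ≤ (δ : ℝ) ^ 2 / 4 by nlinarith)
            (show (0 : ℝ) ≤ (δ : ℝ) ^ 4 by positivity)]
      linarith
    have hσlow : x - 1 / 2 ≤ σ := by
      have : x * (1 - 4 * k / (δ : ℝ) ^ 6) = x - x * (4 * k / (δ : ℝ) ^ 6) := by ring
      linarith
    have r1 : ((δ ^ 2 + 4 * k + 1 : ℕ) : ℝ) = x + 1 := by
      rw [hx]
      push_cast
      ring
    have r2 : ((δ ^ 2 + 4 * k + 3 : ℕ) : ℝ) = x + 3 := by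
      rw [hx]
      push_cast
      ring
    have hR1 : Reach δ ((x + 1) ^ 2 / σ) := by
      have := Reach.step σ (δ ^ 2 + 4 * k + 1) h1 (by rw [r1]; linarith)
      rwa [r1] at this
    have hle : (x + 1) ^ 2 / σ ≤ x + 3 := by
      rw [div_le_iff₀ hσ0]
      nlinarith
    have hR2 : Reach δ ((x + 3) ^ 2 / ((x + 1) ^ 2 / σ)) := by
      have := Reach.step _ (δ ^ 2 + 4 * k + 3) hR1 (by rw [r2]; exact hle)
      rwa [r2] at this
    have hx0 : (0 : ℝ) < x + 1 := by linarith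
    have e1 : (x + 3) ^ 2 / ((x + 1) ^ 2 / σ) = σ * ((x + 3) ^ 2 / (x + 1) ^ 2) := by
      field_simp
    rw [e1] at hR2
    have e2 : (δ : ℝ) ^ 2 + 4 * ((k + 1 : ℕ) : ℝ) = x + 4 := by
      rw [hx]
      push_cast
      ring
    refine ⟨_, hR2, ?_, ?_⟩
    · rw [e2, mul_div_assoc', div_le_iff₀ (by positivity)]
      have h4 : σ * (x + 3) ^ 2 ≤ x * (x + 3) ^ 2 :=
        mul_le_mul_of_nonneg_right h2 (by positivity)
      nlinarith
    · rw [e2]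
      have hq0 : 0 ≤ (x + 3) ^ 2 / (x + 1) ^ 2 := by positivity
      have h4 : x * (1 - 4 * k / (δ : ℝ) ^ 6) * ((x + 3) ^ 2 / (x + 1) ^ 2) ≤
          σ * ((x + 3) ^ 2 / (x + 1) ^ 2) := mul_le_mul_of_nonneg_right h3 hq0
      refine le_trans ?_ h4
      have h5 : (x + 4) * (1 - 4 / (δ : ℝ) ^ 6) ≤ x * ((x + 3) ^ 2 / (x + 1) ^ 2) := by
        rw [mul_div_assoc', le_div_iff₀ (by positivity)]
        have h6 : (x + 4) * (x + 1) ^ 2 - x * (x + 3) ^ 2 = 4 := by ring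
        have h7 : (δ : ℝ) ^ 6 ≤ (x + 4) * (x + 1) ^ 2 := by
          have h8 : (δ : ℝ) ^ 6 = (δ : ℝ) ^ 2 * ((δ : ℝ) ^ 2) ^ 2 := by ring
          rw [h8]
          have h9 : ((δ : ℝ) ^ 2) ^ 2 ≤ (x + 1) ^ 2 := by
            apply pow_le_pow_left₀ (by positivity)
            linarith
          apply mul_le_mul (by linarith) h9 (by positivity) (by linarith)
        have h8 : 4 ≤ (x + 4) * (x + 1) ^ 2 * (4 / (δ : ℝ) ^ 6) := by
          rw [mul_div_assoc', le_div_iff₀ hδ6]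
          linarith
        nlinarith
      have hk6 : 4 * (k : ℝ) / (δ : ℝ) ^ 6 ≤ 1 := by
        have h7 : 16 * (4 * (k : ℝ) / (δ : ℝ) ^ 6) ≤ x * (4 * k / (δ : ℝ) ^ 6) :=
          mul_le_mul_of_nonneg_right hx16 (by positivity)
        linarith
      have h6 : (x + 4) * (1 - 4 * ((k + 1 : ℕ) : ℝ) / (δ : ℝ) ^ 6) ≤
          (x + 4) * (1 - 4 / (δ : ℝ) ^ 6) * (1 - 4 * k / (δ : ℝ) ^ 6) := by
        rw [mul_assoc]
        apply mul_le_mul_of_nonneg_left _ (by linarith)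
        push_cast
        have h7 : 0 ≤ (4 / (δ : ℝ) ^ 6) * (4 * k / (δ : ℝ) ^ 6) := by positivity
        have h8 : 4 * ((k : ℝ) + 1) / (δ : ℝ) ^ 6 = 4 * k / (δ : ℝ) ^ 6 + 4 / (δ : ℝ) ^ 6 := by
          ring
        rw [h8]
        nlinarith
      refine h6.trans ?_
      have h7 := mul_le_mul_of_nonneg_right h5 (sub_nonneg.2 hk6)
      calc (x + 4) * (1 - 4 / (δ : ℝ) ^ 6) * (1 - 4 * k / (δ : ℝ) ^ 6) ≤
          x * ((x + 3) ^ 2 / (x + 1) ^ 2) * (1 - 4 * k / (δ : ℝ) ^ 6) := h7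
        _ = x * (1 - 4 * k / (δ : ℝ) ^ 6) * ((x + 3) ^ 2 / (x + 1) ^ 2) := by ring

theorem exists_shift {D : ℝ} (h : 4 ≤ D) : ∃ y : ℝ, 0 ≤ y ∧ D = y + 4 :=
  ⟨D - 4, by linarith, by ring⟩

theorem polyA1 {D : ℝ} (h : 4 ≤ D) : (D + 4) ^ 7 < 3136 * D ^ 5 * (D - 3) ^ 2 := by
  obtain ⟨y, hy, rfl⟩ := exists_shift h
  have : 0 < 3136 * (y + 4) ^ 5 * (y + 4 - 3) ^ 2 - (y + 4 + 4) ^ 7 := by
    ring_nf
    positivity
  linarith

theorem polyA2 {D : ℝ} (h : 4 ≤ D) :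
    32 * ((D - 1) * (D - 2)) * (D + 4) < 7 * D ^ 5 * (D - 3) := by
  obtain ⟨y, hy, rfl⟩ := exists_shift h
  have : 0 < 7 * (y + 4) ^ 5 * (y + 4 - 3) -
      32 * ((y + 4 - 1) * (y + 4 - 2)) * (y + 4 + 4) := by
    ring_nf
    positivity
  linarith

theorem polyA3 {D : ℝ} (h : 4 ≤ D) : 4 * (D + 4) ^ 2 < 6 * D ^ 3 := by
  obtain ⟨y, hy, rfl⟩ := exists_shift h
  have : 0 < 6 * (y + 4) ^ 3 - 4 * (y + 4 + 4) ^ 2 := by
    ring_nf
    positivity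
  linarith

theorem polyB3 {D : ℝ} (h : 4 ≤ D) :
    (D ^ 2 + 2) * (D ^ 6 + 4 * D * (D ^ 2 + 4 * D) * (D ^ 2 + 4 * D + 2)) <
      6 * D ^ 2 * (D ^ 6 - 4 * D) := by
  obtain ⟨y, hy, rfl⟩ := exists_shift h
  have : 0 < 6 * (y + 4) ^ 2 * ((y + 4) ^ 6 - 4 * (y + 4)) -
      ((y + 4) ^ 2 + 2) * ((y + 4) ^ 6 + 4 * (y + 4) * ((y + 4) ^ 2 + 4 * (y + 4)) *
        ((y + 4) ^ 2 + 4 * (y + 4) + 2)) := by
    ring_nf
    positivity
  linarith

theorem polyB1 {D : ℝ} (h : 4 ≤ D) :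
    (D ^ 2 + 4 * D + 5) * (D ^ 6 + 4 * D * (D ^ 2 + 4 * D) * (D ^ 2 + 4 * D + 2)) <
      70 * D * (D - 3) * (D ^ 6 - 4 * D) := by
  obtain ⟨y, hy, rfl⟩ := exists_shift h
  have : 0 < 70 * (y + 4) * (y + 4 - 3) * ((y + 4) ^ 6 - 4 * (y + 4)) -
      ((y + 4) ^ 2 + 4 * (y + 4) + 5) * ((y + 4) ^ 6 + 4 * (y + 4) *
        ((y + 4) ^ 2 + 4 * (y + 4)) * ((y + 4) ^ 2 + 4 * (y + 4) + 2)) := by
    ring_nf
    positivity
  linarith

theorem polyB2 {D : ℝ} (h : 4 ≤ D) :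
    8 * ((D - 1) * (D - 2)) * (D ^ 6 + 4 * D * (D ^ 2 + 4 * D) * (D ^ 2 + 4 * D + 2)) <
      7 * D * (D - 3) * D ^ 2 * (D ^ 6 - 4 * D) := by
  obtain ⟨y, hy, rfl⟩ := exists_shift h
  have : 0 < 7 * (y + 4) * (y + 4 - 3) * (y + 4) ^ 2 * ((y + 4) ^ 6 - 4 * (y + 4)) -
      8 * ((y + 4 - 1) * (y + 4 - 2)) * ((y + 4) ^ 6 + 4 * (y + 4) *
        ((y + 4) ^ 2 + 4 * (y + 4)) * ((y + 4) ^ 2 + 4 * (y + 4) + 2)) := by
    ring_nf
    positivity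
  linarith

/-- The slope `σ` is reachable from `δ ^ 2` and sufficiently close to `r`. -/
structure Near (r δ : ℕ) (σ : ℝ) : Prop where
  four : 4 ≤ δ
  sq : δ * δ ≤ r
  reach : Reach δ σ
  one : ∀ m : ℕ, ((r % 4 ≤ 1 ∧ 65536 * m ^ 2 ≤ r ^ 5) ∨ 80 * m ≤ r ^ 2) →
    (m : ℝ) * |σ - r| < 7 / 8 * δ * (δ - 3)
  two : ((δ : ℝ) - 1) * (δ - 2) * |σ - r| < 7 / 8 * δ * (δ - 3)
  three : (r : ℝ) * |σ - r| < 6

theorem near_A {δ k : ℕ} (hδ : 4 ≤ δ) (hk : k ≤ δ) : ∃ σ, Near (δ * δ + 4 * k) δ σ := by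
  obtain ⟨σ, h1, h2, h3⟩ := reach_unit hδ k hk
  obtain ⟨D, hD⟩ : ∃ D : ℝ, D = δ := ⟨_, rfl⟩
  have hD4 : 4 ≤ D := by rw [hD]; exact_mod_cast hδ
  have hkD : (k : ℝ) ≤ D := by rw [hD]; exact_mod_cast hk
  have hk0 : (0 : ℝ) ≤ k := Nat.cast_nonneg k
  rw [← hD] at h2 h3
  obtain ⟨R, hR⟩ : ∃ R : ℝ, R = D ^ 2 + 4 * k := ⟨_, rfl⟩
  rw [← hR] at h2 h3
  have hRr : ((δ * δ + 4 * k : ℕ) : ℝ) = R := by
    rw [hR, hD]
    push_cast
    ring
  have hD6 : (0 : ℝ) < D ^ 6 := by positivity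
  have hR0 : 0 < R := by rw [hR]; positivity
  have habs : |σ - R| = R - σ := by rw [abs_sub_comm, abs_of_nonneg (by linarith)]
  have hg1 : R - σ ≤ R * (4 * k / D ^ 6) := by
    have : R * (1 - 4 * k / D ^ 6) = R - R * (4 * k / D ^ 6) := by ring
    linarith
  have hg2 : R * (4 * k / D ^ 6) ≤ R * (4 / D ^ 5) := by
    apply mul_le_mul_of_nonneg_left _ hR0.le
    rw [div_le_div_iff₀ hD6 (by positivity)]
    have : 4 * (k : ℝ) * D ^ 5 ≤ 4 * D * D ^ 5 := by gcongr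
    calc 4 * (k : ℝ) * D ^ 5 ≤ 4 * D * D ^ 5 := this
      _ = 4 * D ^ 6 := by ring
  have hR1 : R ≤ D * (D + 4) := by rw [hR]; nlinarith
  have hg : R - σ ≤ R * (4 / D ^ 5) := hg1.trans hg2
  have hg3 : R * (4 / D ^ 5) ≤ 4 * (D + 4) / D ^ 4 := by
    rw [mul_div_assoc', div_le_div_iff₀ (by positivity) (by positivity)]
    have : R * 4 * D ^ 4 ≤ D * (D + 4) * 4 * D ^ 4 := by gcongr
    calc R * 4 * D ^ 4 ≤ D * (D + 4) * 4 * D ^ 4 := this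
      _ = 4 * (D + 4) * D ^ 5 := by ring
  have hg0 : 0 ≤ R - σ := by linarith
  refine ⟨σ, hδ, by omega, h1, ?_, ?_, ?_⟩
  · intro m hm
    rw [hRr, ← hD, habs]
    have hm' : (65536 : ℝ) * (m : ℝ) ^ 2 ≤ R ^ 5 := by
      rcases hm with ⟨_, hm⟩ | hm
      · rw [← hRr]
        exact_mod_cast hm
      · have h4 : (80 : ℝ) * m ≤ R ^ 2 := by
          rw [← hRr]
          exact_mod_cast hm
        have hm0 : (0 : ℝ) ≤ m := Nat.cast_nonneg m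
        have h5 : ((80 : ℝ) * m) ^ 2 ≤ (R ^ 2) ^ 2 := by gcongr
        have h6 : (16 : ℝ) ≤ R := by rw [hR]; nlinarith
        have h7 : (R ^ 2) ^ 2 * 16 ≤ (R ^ 2) ^ 2 * R := by gcongr
        nlinarith
    have h4 : (m : ℝ) * (R - σ) ≤ m * (R * (4 / D ^ 5)) := by gcongr
    refine lt_of_le_of_lt h4 ?_
    have h5 : 0 < 7 / 8 * D * (D - 3) := by
      have : 0 < D - 3 := by linarith
      positivity
    refine lt_of_pow_lt_pow_left₀ 2 h5.le ?_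
    have h6 : ((m : ℝ) * (R * (4 / D ^ 5))) ^ 2 = (m : ℝ) ^ 2 * R ^ 2 * 16 / D ^ 10 := by
      field_simp
      ring
    rw [h6, div_lt_iff₀ (by positivity)]
    have h7 : (m : ℝ) ^ 2 * R ^ 2 * 16 ≤ R ^ 5 / 65536 * R ^ 2 * 16 := by
      have : (m : ℝ) ^ 2 ≤ R ^ 5 / 65536 := by linarith
      gcongr
    refine lt_of_le_of_lt h7 ?_
    have h8 : R ^ 5 / 65536 * R ^ 2 * 16 = R ^ 7 / 4096 := by ring
    rw [h8]
    have h9 : R ^ 7 ≤ (D * (D + 4)) ^ 7 := by gcongr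
    have h10 := polyA1 hD4
    have h11 : (D * (D + 4)) ^ 7 < D ^ 7 * (3136 * D ^ 5 * (D - 3) ^ 2) := by
      rw [mul_pow]
      gcongr
    have h12 : (7 / 8 * D * (D - 3)) ^ 2 * D ^ 10 =
        D ^ 7 * (3136 * D ^ 5 * (D - 3) ^ 2) / 4096 := by ring
    rw [h12]
    linarith
  · rw [hRr, ← hD, habs]
    have h4 : (D - 1) * (D - 2) * (R - σ) ≤ (D - 1) * (D - 2) * (4 * (D + 4) / D ^ 4) := by
      apply mul_le_mul_of_nonneg_left (hg.trans hg3)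
      nlinarith
    refine lt_of_le_of_lt h4 ?_
    rw [mul_div_assoc', div_lt_iff₀ (by positivity)]
    have h5 := polyA2 hD4
    nlinarith
  · rw [hRr, habs]
    have h4 : R * (R - σ) ≤ D * (D + 4) * (4 * (D + 4) / D ^ 4) :=
      mul_le_mul hR1 (hg.trans hg3) hg0 (by positivity)
    refine lt_of_le_of_lt h4 ?_
    rw [mul_div_assoc', div_lt_iff₀ (by positivity)]
    have h5 := polyA3 hD4
    have h6 : D * (4 * (D + 4) ^ 2) < D * (6 * D ^ 3) := by gcongr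
    nlinarith

theorem near_B {δ k : ℕ} (hδ : 4 ≤ δ) (hk : k ≤ δ) : ∃ σ, Near (δ * δ + 4 * k + 2) δ σ := by
  obtain ⟨τ, h1, h2, h3⟩ := reach_unit hδ k hk
  have hτ0 : 0 < τ := h1.pos (by omega)
  obtain ⟨D, hD⟩ : ∃ D : ℝ, D = δ := ⟨_, rfl⟩
  have hD4 : 4 ≤ D := by rw [hD]; exact_mod_cast hδ
  have hkD : (k : ℝ) ≤ D := by rw [hD]; exact_mod_cast hk
  have hk0 : (0 : ℝ) ≤ k := Nat.cast_nonneg k
  rw [← hD] at h2 h3
  obtain ⟨x, hx⟩ : ∃ x : ℝ, x = D ^ 2 + 4 * k := ⟨_, rfl⟩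
  rw [← hx] at h2 h3
  have hRr : ((δ * δ + 4 * k + 2 : ℕ) : ℝ) = x + 2 := by
    rw [hx, hD]
    push_cast
    ring
  have hρ : ((δ * δ + 4 * k + 1 : ℕ) : ℝ) = x + 1 := by
    rw [hx, hD]
    push_cast
    ring
  have hR := Reach.step τ (δ * δ + 4 * k + 1) h1 (by rw [hρ]; linarith)
  rw [hρ] at hR
  have hD6 : (0 : ℝ) < D ^ 6 := by positivity
  have hx1 : D ^ 2 ≤ x := by rw [hx]; linarith
  have hx0 : 0 < x := by nlinarith
  have hx2 : x ≤ D ^ 2 + 4 * D := by rw [hx]; linarith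
  obtain ⟨g, hg⟩ : ∃ g : ℝ, g = (x + 1) ^ 2 / τ - (x + 2) := ⟨_, rfl⟩
  have hg0 : 0 ≤ g := by
    rw [hg, sub_nonneg, le_div_iff₀ hτ0]
    nlinarith
  -- the main estimate, multiplied out
  have hxu : 0 < x * (D ^ 6 - 4 * D) := by
    have h4 : 4 * D < D ^ 6 := by
      have h5 : (4 : ℝ) ^ 5 ≤ D ^ 5 := by gcongr
      have h6 : D ^ 6 = D * D ^ 5 := by ring
      rw [h6]
      nlinarith
    have : 0 < D ^ 6 - 4 * D := by linarith
    positivity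
  have hmain : g * (x * (D ^ 6 - 4 * D)) ≤ D ^ 6 + 4 * D * x * (x + 2) := by
    have h4 : x * (D ^ 6 - 4 * D) ≤ τ * D ^ 6 := by
      have h5 : x * (1 - 4 * k / D ^ 6) * D ^ 6 = x * (D ^ 6 - 4 * k) := by
        field_simp
      have h6 : x * (1 - 4 * k / D ^ 6) * D ^ 6 ≤ τ * D ^ 6 :=
        mul_le_mul_of_nonneg_right h3 hD6.le
      have h7 : x * (D ^ 6 - 4 * D) ≤ x * (D ^ 6 - 4 * k) := by
        apply mul_le_mul_of_nonneg_left _ hx0.le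
        linarith
      linarith
    have h5 : g + (x + 2) = (x + 1) ^ 2 / τ := by rw [hg]; ring
    have h6 : (g + (x + 2)) * τ = (x + 1) ^ 2 := by
      rw [h5]
      field_simp
    have h7 : (g + (x + 2)) * (x * (D ^ 6 - 4 * D)) ≤ (g + (x + 2)) * (τ * D ^ 6) := by
      apply mul_le_mul_of_nonneg_left h4
      linarith
    have h8 : (g + (x + 2)) * (τ * D ^ 6) = (x + 1) ^ 2 * D ^ 6 := by
      rw [← mul_assoc, h6]
    nlinarith
  obtain ⟨T, hT⟩ : ∃ T : ℝ, T = D ^ 6 + 4 * D * (D ^ 2 + 4 * D) * (D ^ 2 + 4 * D + 2) :=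
    ⟨_, rfl⟩
  obtain ⟨U, hU⟩ : ∃ U : ℝ, U = D ^ 6 - 4 * D := ⟨_, rfl⟩
  have hmain2 : g * (x * U) ≤ T := by
    rw [hU, hT]
    refine hmain.trans ?_
    have h4 : 4 * D * x * (x + 2) ≤ 4 * D * (D ^ 2 + 4 * D) * (D ^ 2 + 4 * D + 2) := by
      gcongr
    linarith
  rw [← hU] at hxu
  have hU0 : 0 < U := by
    by_contra h
    push Not at h
    nlinarith
  have hT0 : 0 < T := by rw [hT]; positivity
  have habs : |(x + 1) ^ 2 / τ - (x + 2)| = g := by rw [← hg, abs_of_nonneg hg0]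
  have hB1 := polyB1 hD4
  have hB2 := polyB2 hD4
  have hB3 := polyB3 hD4
  rw [← hT, ← hU] at hB1 hB2 hB3
  refine ⟨_, hδ, by omega, hR, ?_, ?_, ?_⟩
  · intro m hm
    rw [hRr, ← hD, habs]
    have hm' : (80 : ℝ) * m ≤ (x + 2) ^ 2 := by
      rcases hm with ⟨hm, _⟩ | hm
      · exfalso
        have h4 : δ * δ % 4 ≤ 1 := by
          rcases Nat.even_or_odd δ with ⟨a, ha⟩ | ⟨a, ha⟩
          · rw [ha]
            have : (a + a) * (a + a) = 4 * (a * a) := by ring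
            omega
          · rw [ha]
            have : (2 * a + 1) * (2 * a + 1) = 4 * (a * a + a) + 1 := by ring
            omega
        omega
      · rw [← hRr]
        exact_mod_cast hm
    have h4 : (x + 2) ^ 2 ≤ x * (D ^ 2 + 4 * D + 5) := by
      have h5 : (x + 2) ^ 2 = x * (x + 4) + 4 := by ring
      have h6 : (16 : ℝ) ≤ x := by nlinarith
      have h7 : x * (x + 5) ≤ x * (D ^ 2 + 4 * D + 5) := by gcongr
      nlinarith
    -- multiply by 80 * x * U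
    have h5 : 80 * ((m : ℝ) * g) * (x * U) ≤ (x + 2) ^ 2 * T := by
      calc 80 * ((m : ℝ) * g) * (x * U) = (80 * (m : ℝ)) * (g * (x * U)) := by ring
        _ ≤ (x + 2) ^ 2 * T := mul_le_mul hm' hmain2 (by positivity) (by positivity)
    have h6 : (x + 2) ^ 2 * T ≤ x * (D ^ 2 + 4 * D + 5) * T := by gcongr
    have h7 : x * (D ^ 2 + 4 * D + 5) * T < x * (70 * D * (D - 3) * U) := by
      rw [mul_assoc]
      gcongr
    have h8 : 80 * ((m : ℝ) * g) * (x * U) < 80 * (7 / 8 * D * (D - 3)) * (x * U) := by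
      calc 80 * ((m : ℝ) * g) * (x * U) ≤ x * (D ^ 2 + 4 * D + 5) * T := h5.trans h6
        _ < x * (70 * D * (D - 3) * U) := h7
        _ = 80 * (7 / 8 * D * (D - 3)) * (x * U) := by ring
    have h9 := lt_of_mul_lt_mul_right h8 hxu.le
    linarith
  · rw [hRr, ← hD, habs]
    have hK0 : 0 < (D - 1) * (D - 2) := by nlinarith
    have h5 : 8 * ((D - 1) * (D - 2) * g) * (x * U) ≤ 8 * ((D - 1) * (D - 2)) * T := by
      calc 8 * ((D - 1) * (D - 2) * g) * (x * U) =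
            8 * ((D - 1) * (D - 2)) * (g * (x * U)) := by ring
        _ ≤ 8 * ((D - 1) * (D - 2)) * T := by gcongr
    have hD3 : 0 < D - 3 := by linarith
    have h6 : 7 * D * (D - 3) * D ^ 2 * U ≤ 7 * D * (D - 3) * x * U := by gcongr
    have h8 : 8 * ((D - 1) * (D - 2) * g) * (x * U) < 8 * (7 / 8 * D * (D - 3)) * (x * U) := by
      calc 8 * ((D - 1) * (D - 2) * g) * (x * U) ≤ 8 * ((D - 1) * (D - 2)) * T := h5
        _ < 7 * D * (D - 3) * D ^ 2 * U := hB2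
        _ ≤ 7 * D * (D - 3) * x * U := h6
        _ = 8 * (7 / 8 * D * (D - 3)) * (x * U) := by ring
    have h9 := lt_of_mul_lt_mul_right h8 hxu.le
    linarith
  · rw [hRr, habs]
    have h4 : (x + 2) * D ^ 2 ≤ x * (D ^ 2 + 2) := by nlinarith
    have h5 : (x + 2) * g * (x * U) * D ^ 2 ≤ x * ((D ^ 2 + 2) * T) := by
      calc (x + 2) * g * (x * U) * D ^ 2 = ((x + 2) * D ^ 2) * (g * (x * U)) := by ring
        _ ≤ (x * (D ^ 2 + 2)) * T := mul_le_mul h4 hmain2 (by positivity) (by positivity)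
        _ = x * ((D ^ 2 + 2) * T) := by ring
    have h6 : x * ((D ^ 2 + 2) * T) < x * (6 * D ^ 2 * U) := by gcongr
    have h8 : (x + 2) * g * (x * U * D ^ 2) < 6 * (x * U * D ^ 2) := by
      calc (x + 2) * g * (x * U * D ^ 2) = (x + 2) * g * (x * U) * D ^ 2 := by ring
        _ ≤ x * ((D ^ 2 + 2) * T) := h5
        _ < x * (6 * D ^ 2 * U) := h6
        _ = 6 * (x * U * D ^ 2) := by ring
    exact lt_of_mul_lt_mul_right h8 (by positivity)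

theorem exists_near {r : ℕ} (hr : 16 ≤ r) (hr' : r % 2 = 0 ∨ 25 ≤ r) :
    ∃ δ σ, Near r δ σ := by
  have key : ∀ n : ℕ, 16 ≤ n → n % 4 ≤ 1 → (n % 2 = 0 ∨ 25 ≤ n) →
      ∃ δ k, 4 ≤ δ ∧ k ≤ δ ∧ n = δ * δ + 4 * k := by
    intro n hn hn4 hn'
    have h0 : n.sqrt * n.sqrt ≤ n := Nat.sqrt_le n
    have h1 : n < (n.sqrt + 1) * (n.sqrt + 1) := Nat.lt_succ_sqrt n
    have h3 : 4 ≤ n.sqrt := Nat.le_sqrt.2 (by omega)
    have h5 : 25 ≤ n → 5 ≤ n.sqrt := fun h => Nat.le_sqrt.2 (by omega)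
    obtain ⟨q, hq⟩ : ∃ q, q = n.sqrt := ⟨_, rfl⟩
    rw [← hq] at h0 h1 h3 h5
    have h1' : (q + 1) * (q + 1) = q * q + 2 * q + 1 := by ring
    by_cases hpar : q % 2 = n % 2
    · have h6 : (n - q * q) % 4 = 0 := by
        rcases Nat.even_or_odd q with ⟨a, ha⟩ | ⟨a, ha⟩
        · have : q * q = 4 * (a * a) := by rw [ha]; ring
          omega
        · have : q * q = 4 * (a * a + a) + 1 := by rw [ha]; ring
          omega
      exact ⟨q, (n - q * q) / 4, h3, by omega, by omega⟩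
    · obtain ⟨p, rfl⟩ : ∃ p, q = p + 1 := ⟨q - 1, by omega⟩
      have h2 : (p + 1) * (p + 1) = p * p + 2 * p + 1 := by ring
      have h6 : (n - p * p) % 4 = 0 := by
        rcases Nat.even_or_odd p with ⟨a, ha⟩ | ⟨a, ha⟩
        · have : p * p = 4 * (a * a) := by rw [ha]; ring
          omega
        · have : p * p = 4 * (a * a + a) + 1 := by rw [ha]; ring
          omega
      refine ⟨p, (n - p * p) / 4, ?_, by omega, by omega⟩
      rcases hn' with hn' | hn'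
      · by_contra h7
        have : p = 3 := by omega
        omega
      · have := h5 hn'
        omega
  by_cases h4 : r % 4 ≤ 1
  · obtain ⟨δ, k, h1, h2, rfl⟩ := key r hr h4 hr'
    obtain ⟨σ, hσ⟩ := near_A h1 h2
    exact ⟨δ, σ, hσ⟩
  · obtain ⟨δ, k, h1, h2, h3⟩ := key (r - 2) (by omega) (by omega) (by omega)
    obtain ⟨σ, hσ⟩ := near_B h1 h2
    have : r = δ * δ + 4 * k + 2 := by omega
    rw [this]
    exact ⟨δ, σ, hσ⟩

end Pool.Agent.H932R3
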