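import Mathlib
import Pool.Agent.H15.G.R_seed8.H932R3.ReachS

set_option autoImplicit false

/-!
# Lower bounds for the sets obtained by compressions, and independence of the conditions
-/

namespace Pool.Agent.H932R3

open Polynomial Pool.Agent.H932R2

theorem mem_cY_of {ρ : ℕ} {M : Finset (ℕ × ℕ)} {i q : ℕ}
    (h : q < (lineRows ρ M (i + ρ * q)).card) : (i, q) ∈ cY ρ M := by
  unfold cY
  rw [Finset.mem_image]
  refine ⟨⟨i + ρ * q, q⟩, ?_, ?_⟩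
  · rw [Finset.mem_sigma, Finset.mem_range, Finset.mem_range]
    refine ⟨?_, h⟩
    obtain ⟨l, h1, h2⟩ := exists_row h
    rw [Nat.lt_succ_iff]
    have h3 := Finset.le_sup (f := fun p : ℕ × ℕ => p.1 + ρ * p.2) h2
    simp only at h3
    have h4 : i + ρ * q - ρ * l + ρ * l = i + ρ * q := Nat.sub_add_cancel (by omega)
    rw [h4] at h3
    exact h3
  · simp

theorem cY_lower {ρ : ℕ} (hρ : 0 < ρ) {M : Finset (ℕ × ℕ)} {α β V : ℝ}
    (h : β ≤ ρ * α)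
    (hM : ∀ p : ℕ × ℕ, α * (p.1 : ℝ) + β * (p.2 : ℝ) ≤ V → p ∈ M) :
    ∀ p : ℕ × ℕ, (β / ρ) * (p.1 : ℝ) + (ρ * α) * (p.2 : ℝ) ≤ V - (α - β / ρ) * (ρ - 1) →
      p ∈ cY ρ M := by
  rintro ⟨i, q⟩ hp
  simp only at hp
  have hρ' : (0 : ℝ) < ρ := by exact_mod_cast hρ
  obtain ⟨a, b, hb, rfl⟩ : ∃ a b, b < ρ ∧ i = ρ * a + b :=
    ⟨i / ρ, i % ρ, Nat.mod_lt _ hρ, (Nat.div_add_mod i ρ).symm⟩
  have hrow : ∀ t ≤ q, ρ * (a + q - (a + t)) + b = ρ * a + b + ρ * q - ρ * (a + t) := by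
    intro t ht
    obtain ⟨s, rfl⟩ : ∃ s, q = t + s := Nat.exists_eq_add_of_le ht
    have e1 : a + (t + s) - (a + t) = s := by omega
    rw [e1]
    have e2 : ρ * a + b + ρ * (t + s) = ρ * (a + t) + (ρ * s + b) := by ring
    rw [e2, Nat.add_sub_cancel_left]
  have hmem : ∀ t ≤ q, ((ρ * a + b + ρ * q - ρ * (a + t), a + t) : ℕ × ℕ) ∈ M := by
    intro t ht
    refine hM _ ?_
    simp only
    rw [← hrow t ht]
    obtain ⟨s, rfl⟩ : ∃ s, q = t + s := Nat.exists_eq_add_of_le ht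
    have e1 : a + (t + s) - (a + t) = s := by omega
    rw [e1]
    push_cast at hp ⊢
    have hb' : (b : ℝ) ≤ ρ - 1 := by
      have : (b : ℝ) + 1 ≤ ρ := by exact_mod_cast hb
      linarith
    have hc : 0 ≤ α - β / ρ := by
      rw [sub_nonneg, div_le_iff₀ hρ']
      linarith
    have h1 : (α - β / ρ) * b ≤ (α - β / ρ) * (ρ - 1) := mul_le_mul_of_nonneg_left hb' hc
    have h2 : β / ρ * (ρ * (a : ℝ) + b) = β * a + β / ρ * b := by
      field_simp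
    have ht0 : (0 : ℝ) ≤ t := Nat.cast_nonneg t
    have h3 : β * t ≤ ρ * α * t := mul_le_mul_of_nonneg_right h ht0
    rw [h2] at hp
    nlinarith
  have hcard : q + 1 ≤ (lineRows ρ M (ρ * a + b + ρ * q)).card := by
    have h1 : (Finset.image (fun t => a + t) (Finset.range (q + 1))).card = q + 1 := by
      rw [Finset.card_image_of_injective _ (fun x y h => Nat.add_left_cancel h),
        Finset.card_range]
    rw [← h1]
    refine Finset.card_le_card fun l hl => ?_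
    rw [Finset.mem_image] at hl
    obtain ⟨t, ht, rfl⟩ := hl
    rw [Finset.mem_range] at ht
    rw [mem_lineRows]
    refine ⟨?_, hmem t (by omega)⟩
    have : ρ * (a + t) ≤ ρ * a + ρ * q := by
      rw [← Nat.mul_add]
      exact Nat.mul_le_mul_left _ (by omega)
    omega
  exact mem_cY_of hcard

/-- Lower bound along the reachable slopes. -/
theorem reach_chain_lower {K : Type*} [Field K] [Infinite K]
    {𝓘 : Set (Ideal K[X][X])} (h𝓘 : Stable 𝓘) {δ B : ℕ} (hδ : 0 < δ)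
    (hK : ∀ k : ℕ, 0 < k → k ≤ B → (k : K) ≠ 0) {M : Finset (ℕ × ℕ)}
    (hMB : ∀ p ∈ M, p.2 ≤ B) {V : ℝ} {n : ℕ}
    (hM : ∀ p : ℕ × ℕ, (p.1 : ℝ) + (δ : ℝ) ^ 2 * (p.2 : ℝ) ≤ V → p ∈ M) {σ : ℝ}
    (hσ : Reach δ σ) :
    ∃ M' : Finset (ℕ × ℕ), (∀ p ∈ M', p.2 ≤ B) ∧
      (∀ p : ℕ × ℕ, (δ / Real.sqrt σ) * (p.1 : ℝ) + (δ * Real.sqrt σ) * (p.2 : ℝ) ≤
        V - δ * (Real.sqrt σ - δ) → p ∈ M') ∧
      (RkS 𝓘 (↑M' : Set (ℕ × ℕ)) n → RkS 𝓘 (↑M : Set (ℕ × ℕ)) n) := by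
  induction hσ with
  | base =>
    refine ⟨M, hMB, fun p hp => ?_, fun h => h⟩
    have hδ' : (0 : ℝ) < δ := by exact_mod_cast hδ
    rw [Real.sqrt_sq hδ'.le, div_self hδ'.ne', one_mul, sub_self, mul_zero, sub_zero] at hp
    refine hM p ?_
    rwa [pow_two]
  | step σ ρ hσ hρ ih =>
    obtain ⟨M', h1, h3, h4⟩ := ih
    have hσ0 : 0 < σ := hσ.pos hδ
    have hρ0 : (0 : ℝ) < ρ := lt_of_lt_of_le hσ0 hρ
    have hρ1 : 0 < ρ := by exact_mod_cast hρ0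
    have hs0 : 0 < Real.sqrt σ := Real.sqrt_pos.2 hσ0
    have hδ' : (0 : ℝ) < δ := by exact_mod_cast hδ
    have hss : Real.sqrt σ * Real.sqrt σ = σ := Real.mul_self_sqrt hσ0.le
    refine ⟨cY ρ M', ?_, ?_, fun h => h4 ?_⟩
    · rintro ⟨i, q⟩ hp
      exact row_le_of_mem_cY h1 hp
    · intro p hp
      refine cY_lower hρ1 (α := δ / Real.sqrt σ) (β := δ * Real.sqrt σ) ?_ h3 p ?_
      · rw [mul_div_assoc', le_div_iff₀ hs0, mul_assoc, hss, mul_comm (ρ : ℝ)]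
        exact mul_le_mul_of_nonneg_left hρ hδ'.le
      · have h7 : Real.sqrt ((ρ : ℝ) ^ 2 / σ) = ρ / Real.sqrt σ := by
          rw [Real.sqrt_div (by positivity), Real.sqrt_sq hρ0.le]
        rw [h7] at hp
        have h8 : (δ : ℝ) / (ρ / Real.sqrt σ) = δ * Real.sqrt σ / ρ := by
          field_simp
        have h9 : (δ : ℝ) * (ρ / Real.sqrt σ) = ρ * (δ / Real.sqrt σ) := by ring
        rw [h8, h9] at hp
        refine hp.trans ?_
        have h10 : δ * Real.sqrt σ / ρ ≤ δ / Real.sqrt σ := by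
          rw [div_le_div_iff₀ hρ0 hs0, mul_assoc, hss]
          exact mul_le_mul_of_nonneg_left hρ hδ'.le
        have h11 : δ * (ρ / Real.sqrt σ - δ) = δ * (Real.sqrt σ - δ) +
            (δ / Real.sqrt σ - δ * Real.sqrt σ / ρ) * ρ := by
          have e1 : (δ / Real.sqrt σ - δ * Real.sqrt σ / ρ) * ρ =
              δ * (ρ / Real.sqrt σ) - δ * Real.sqrt σ := by
            field_simp
          rw [e1]
          ring
        rw [h11]
        nlinarith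
    · exact RkS.compressY h𝓘 ρ B hK (domY_cY h1) h

/-- Independence of the conditions. -/
theorem indep_rank {K : Type*} [Field K] [Infinite K] {𝓘 : Set (Ideal K[X][X])}
    (h𝓘 : Stable 𝓘) {r m δ d B : ℕ} (hδ : 2 ≤ δ)
    (hbase : RkS 𝓘 (↑(EE r m) : Set (ℕ × ℕ)) (EE r m).card)
    (hd : δ * ((δ - 1) * (δ - 2)) ≤ 2 * d) (hB : δ * d ≤ B)
    (hK : ∀ k : ℕ, 0 < k → k ≤ B → (k : K) ≠ 0) {σ : ℝ} (hσ : Reach δ σ)
    (h1 : 2 * m * Real.sqrt σ ≤ 2 * (d : ℝ) + 3 + δ - 2 * Real.sqrt σ - 2 / δ)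
    (h2 : 2 * (r : ℝ) * m ≤ (2 * (d : ℝ) + 3 + δ - 2 * Real.sqrt σ - 2 / δ) * Real.sqrt σ + 2) :
    RkS 𝓘 (Tset d) (EE r m).card := by
  have hml := Nat.mod_lt d (show 0 < δ by omega)
  have hdm := Nat.div_add_mod d δ
  obtain ⟨u, t, j, ht, hj, hz, hV, himp⟩ := initialV (n := (EE r m).card) h𝓘 hδ
    (show d + 1 = δ * (d / δ) + (d % δ + 1) by omega) hml (YY_le hδ hd) hB hK
  refine himp ?_
  have hδ0 : 0 < δ := by omega
  have hδ' : (0 : ℝ) < δ := by exact_mod_cast hδ0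
  rw [← coe_Lfin ht hj]
  have hc := cc_two δ
  obtain ⟨V, hVd⟩ : ∃ V : ℝ, V = ((δ * δ * u + t : ℕ) : ℝ) := ⟨_, rfl⟩
  have hVe : 2 * V = δ * (2 * (d : ℝ) + 3 - δ) := by
    have h3 : ((δ * δ * u + t + cc δ : ℕ) : ℝ) = ((δ * (d + 1) : ℕ) : ℝ) := by rw [hV]
    have h4 : ((2 * cc δ + δ : ℕ) : ℝ) = ((δ * δ : ℕ) : ℝ) := by rw [hc]
    rw [hVd]
    push_cast at h3 h4 ⊢
    linarith
  have hLV : ∀ p : ℕ × ℕ, (p.1 : ℝ) + (δ : ℝ) ^ 2 * (p.2 : ℝ) ≤ V - 1 →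
      p ∈ Lfin (δ * δ) u t j := by
    rintro ⟨i, l⟩ hp
    have h3 : ((i, l) : ℕ × ℕ) ∈ (↑(Lfin (δ * δ) u t j) : Set (ℕ × ℕ)) := by
      rw [coe_Lfin ht hj, mem_Lset]
      left
      have h5 : ((i + δ * δ * l : ℕ) : ℝ) + 1 ≤ ((δ * δ * u + t : ℕ) : ℝ) := by
        rw [← hVd]
        push_cast
        simp only at hp
        nlinarith
      have h6 : i + δ * δ * l + 1 ≤ δ * δ * u + t := by exact_mod_cast h5
      omega
    exact h3
  have hLB : ∀ p ∈ Lfin (δ * δ) u t j, p.2 ≤ B := by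
    rintro ⟨i, l⟩ hp
    have h3 : ((i, l) : ℕ × ℕ) ∈ (↑(Lfin (δ * δ) u t j) : Set (ℕ × ℕ)) := hp
    rw [coe_Lfin ht hj, mem_Lset] at h3
    have h4 : δ * δ * l ≤ δ * δ * u + t := by omega
    have h5 : δ * (δ * l) ≤ δ * (d + 1) := by
      rw [← Nat.mul_assoc]
      omega
    have h6 : δ * l ≤ d + 1 := Nat.le_of_mul_le_mul_left h5 hδ0
    have h7 : 2 * l ≤ δ * l := Nat.mul_le_mul_right _ hδ
    have h8 : 2 * d ≤ δ * d := Nat.mul_le_mul_right _ hδ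
    simp only
    omega
  obtain ⟨M', h3, h5, h6⟩ := reach_chain_lower h𝓘 hδ0 hK hLB (n := (EE r m).card) hLV hσ
  refine h6 (hbase.mono ?_)
  have hσ0 : 0 < σ := hσ.pos hδ0
  have hs0 : 0 < Real.sqrt σ := Real.sqrt_pos.2 hσ0
  have hss : Real.sqrt σ * Real.sqrt σ = σ := Real.mul_self_sqrt hσ0.le
  rintro ⟨i, l⟩ hp
  rw [Finset.mem_coe, mem_EE] at hp
  obtain ⟨hl, hi⟩ := hp
  refine h5 _ ?_
  simp only
  have hi' : (i : ℝ) + 1 ≤ r * (m - l) := by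
    have h7 : ((i + 1 : ℕ) : ℝ) ≤ ((r * (m - l) : ℕ) : ℝ) := by exact_mod_cast hi
    rw [Nat.cast_mul, Nat.cast_sub hl.le] at h7
    push_cast at h7
    exact h7
  have hl0 : (0 : ℝ) ≤ l := Nat.cast_nonneg l
  have hlm : (l : ℝ) ≤ m := by exact_mod_cast hl.le
  have key : (i : ℝ) + σ * l ≤
      (2 * (d : ℝ) + 3 + δ - 2 * Real.sqrt σ - 2 / δ) * Real.sqrt σ / 2 := by
    rcases le_total σ r with h15 | h15
    · have h16 : σ * l ≤ r * l := mul_le_mul_of_nonneg_right h15 hl0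
      nlinarith
    · have h16 : (σ - r) * l ≤ (σ - r) * m := mul_le_mul_of_nonneg_left hlm (by linarith)
      have h17 : 2 * m * Real.sqrt σ * Real.sqrt σ ≤
          (2 * (d : ℝ) + 3 + δ - 2 * Real.sqrt σ - 2 / δ) * Real.sqrt σ :=
        mul_le_mul_of_nonneg_right h1 hs0.le
      have h18 : 2 * m * Real.sqrt σ * Real.sqrt σ = 2 * m * σ := by
        rw [mul_assoc, hss]
      rw [h18] at h17
      nlinarith
  have e1 : δ / Real.sqrt σ * (i : ℝ) + δ * Real.sqrt σ * (l : ℝ) =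
      (δ / Real.sqrt σ) * (i + σ * l) := by
    have e0 : δ / Real.sqrt σ * (Real.sqrt σ * Real.sqrt σ * l) = δ * Real.sqrt σ * l := by
      field_simp
    rw [hss] at e0
    rw [mul_add, e0]
  have e2 : V - 1 - δ * (Real.sqrt σ - δ) = (δ / Real.sqrt σ) *
      ((2 * (d : ℝ) + 3 + δ - 2 * Real.sqrt σ - 2 / δ) * Real.sqrt σ / 2) := by
    have h10 : V = δ * ((2 * (d : ℝ) + 3 - δ) / 2) := by linarith
    rw [h10]
    field_simp
    ring
  rw [e1, e2]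
  exact mul_le_mul_of_nonneg_left key (by positivity)

end Pool.Agent.H932R3
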