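import Mathlib
import Pool.Agent.H15.G.R_seed8.H932R3.LowerS

set_option autoImplicit false

/-!
# Ranks in one degree from a target set
-/

namespace Pool.Agent.H932R3

open Polynomial Pool.Agent.H932R2

variable {K : Type*} [Field K] [Infinite K]

theorem upper_rank {𝓘 : Set (Ideal K[X][X])} (h𝓘 : Stable 𝓘) {δ d B : ℕ} (hδ : 2 ≤ δ)
    {W : Finset (ℕ × ℕ)} (hbase : RkS 𝓘 (↑W : Set (ℕ × ℕ)) W.card)
    (hd : δ * ((δ - 1) * (δ - 2)) ≤ 2 * d) (hB : δ * d ≤ B)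
    (hK : ∀ k : ℕ, 0 < k → k ≤ B → (k : K) ≠ 0) {σ : ℝ} (hσ : Reach δ σ)
    (hW : ∀ p : ℕ × ℕ, (p.1 : ℝ) + σ * p.2 ≤ (2 * (d : ℝ) + 3 - δ) / 2 * Real.sqrt σ → p ∈ W) :
    RkS 𝓘 (Tset d) (Tfin d).card := by
  have hml := Nat.mod_lt d (show 0 < δ by omega)
  have hdm := Nat.div_add_mod d δ
  obtain ⟨u, t, j, ht, hj, hz, hV, himp⟩ := initialV (n := (Tfin d).card) h𝓘 hδ
    (show d + 1 = δ * (d / δ) + (d % δ + 1) by omega) hml (YY_le hδ hd) hB hK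
  refine himp ?_
  have hδ0 : 0 < δ := by omega
  have hδ' : (0 : ℝ) < δ := by exact_mod_cast hδ0
  have hcard : (Lfin (δ * δ) u t j).card = (Tfin d).card :=
    card_of_sz hj (hz.trans (card_Tfin d).symm)
  rw [← coe_Lfin ht hj, ← hcard]
  have hc := cc_two δ
  obtain ⟨V, hVd⟩ : ∃ V : ℝ, V = ((δ * δ * u + t : ℕ) : ℝ) := ⟨_, rfl⟩
  have hVe : 2 * V = δ * (2 * (d : ℝ) + 3 - δ) := by
    have h3 : ((δ * δ * u + t + cc δ : ℕ) : ℝ) = ((δ * (d + 1) : ℕ) : ℝ) := by rw [hV]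
    have h4 : ((2 * cc δ + δ : ℕ) : ℝ) = ((δ * δ : ℕ) : ℝ) := by rw [hc]
    rw [hVd]
    push_cast at h3 h4 ⊢
    linarith
  have hLV : ∀ p ∈ Lfin (δ * δ) u t j, (p.1 : ℝ) + (δ : ℝ) ^ 2 * (p.2 : ℝ) ≤ V := by
    rintro ⟨i, l⟩ hp
    have h3 : ((i, l) : ℕ × ℕ) ∈ (↑(Lfin (δ * δ) u t j) : Set (ℕ × ℕ)) := hp
    rw [coe_Lfin ht hj, mem_Lset] at h3
    have h4 : i + δ * δ * l ≤ δ * δ * u + t := by omega
    have h5 : ((i + δ * δ * l : ℕ) : ℝ) ≤ ((δ * δ * u + t : ℕ) : ℝ) := by exact_mod_cast h4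
    rw [← hVd] at h5
    push_cast at h5
    simp only
    nlinarith
  have hLB : ∀ p ∈ Lfin (δ * δ) u t j, p.2 ≤ B := by
    rintro ⟨i, l⟩ hp
    have h3 : ((i, l) : ℕ × ℕ) ∈ (↑(Lfin (δ * δ) u t j) : Set (ℕ × ℕ)) := hp
    rw [coe_Lfin ht hj, mem_Lset] at h3
    have h4 : δ * δ * l ≤ δ * δ * u + t := by omega
    have h5 : δ * (δ * l) ≤ δ * (d + 1) := by
      rw [← Nat.mul_assoc]
      omega
    have h6 : δ * l ≤ d + 1 := Nat.le_of_mul_le_mul_left h5 hδ0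
    have h7 : 2 * l ≤ δ * l := Nat.mul_le_mul_right _ hδ
    have h8 : 2 * d ≤ δ * d := Nat.mul_le_mul_right _ hδ
    simp only
    omega
  obtain ⟨M', h3, h4, h5, h6⟩ := reach_chain h𝓘 hδ0 hK hLB hLV hσ
  refine h6 (hbase.subset ?_)
  have hσ0 : 0 < σ := hσ.pos hδ0
  have hs0 : 0 < Real.sqrt σ := Real.sqrt_pos.2 hσ0
  have hss : Real.sqrt σ * Real.sqrt σ = σ := Real.mul_self_sqrt hσ0.le
  rintro ⟨i, l⟩ hp
  have h7 := h5 _ hp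
  simp only at h7
  refine hW _ ?_
  simp only
  have h9 : (δ / Real.sqrt σ * (i : ℝ) + δ * Real.sqrt σ * (l : ℝ)) * (Real.sqrt σ / δ) =
      i + σ * l := by
    field_simp
    rw [pow_two, hss]
    ring
  rw [← h9]
  have h10 : V = δ * ((2 * (d : ℝ) + 3 - δ) / 2) := by linarith
  have h11 : (2 * (d : ℝ) + 3 - δ) / 2 * Real.sqrt σ = V * (Real.sqrt σ / δ) := by
    rw [h10]
    field_simp
  rw [h11]
  exact mul_le_mul_of_nonneg_right h7 (by positivity)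

theorem lower_rank {𝓘 : Set (Ideal K[X][X])} (h𝓘 : Stable 𝓘) {δ d B : ℕ} (hδ : 2 ≤ δ)
    {W : Finset (ℕ × ℕ)} (hbase : RkS 𝓘 (↑W : Set (ℕ × ℕ)) W.card)
    (hd : δ * ((δ - 1) * (δ - 2)) ≤ 2 * d) (hB : δ * d ≤ B)
    (hK : ∀ k : ℕ, 0 < k → k ≤ B → (k : K) ≠ 0) {σ : ℝ} (hσ : Reach δ σ)
    (hW : ∀ p ∈ W, (p.1 : ℝ) + σ * p.2 ≤
      (2 * (d : ℝ) + 3 + δ - 2 * Real.sqrt σ - 2 / δ) * Real.sqrt σ / 2) :
    RkS 𝓘 (Tset d) W.card := by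
  have hml := Nat.mod_lt d (show 0 < δ by omega)
  have hdm := Nat.div_add_mod d δ
  obtain ⟨u, t, j, ht, hj, hz, hV, himp⟩ := initialV (n := W.card) h𝓘 hδ
    (show d + 1 = δ * (d / δ) + (d % δ + 1) by omega) hml (YY_le hδ hd) hB hK
  refine himp ?_
  have hδ0 : 0 < δ := by omega
  have hδ' : (0 : ℝ) < δ := by exact_mod_cast hδ0
  rw [← coe_Lfin ht hj]
  have hc := cc_two δ
  obtain ⟨V, hVd⟩ : ∃ V : ℝ, V = ((δ * δ * u + t : ℕ) : ℝ) := ⟨_, rfl⟩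
  have hVe : 2 * V = δ * (2 * (d : ℝ) + 3 - δ) := by
    have h3 : ((δ * δ * u + t + cc δ : ℕ) : ℝ) = ((δ * (d + 1) : ℕ) : ℝ) := by rw [hV]
    have h4 : ((2 * cc δ + δ : ℕ) : ℝ) = ((δ * δ : ℕ) : ℝ) := by rw [hc]
    rw [hVd]
    push_cast at h3 h4 ⊢
    linarith
  have hLV : ∀ p : ℕ × ℕ, (p.1 : ℝ) + (δ : ℝ) ^ 2 * (p.2 : ℝ) ≤ V - 1 →
      p ∈ Lfin (δ * δ) u t j := by
    rintro ⟨i, l⟩ hp
    have h3 : ((i, l) : ℕ × ℕ) ∈ (↑(Lfin (δ * δ) u t j) : Set (ℕ × ℕ)) := by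
      rw [coe_Lfin ht hj, mem_Lset]
      left
      have h5 : ((i + δ * δ * l : ℕ) : ℝ) + 1 ≤ ((δ * δ * u + t : ℕ) : ℝ) := by
        rw [← hVd]
        push_cast
        simp only at hp
        nlinarith
      have h6 : i + δ * δ * l + 1 ≤ δ * δ * u + t := by exact_mod_cast h5
      omega
    exact h3
  have hLB : ∀ p ∈ Lfin (δ * δ) u t j, p.2 ≤ B := by
    rintro ⟨i, l⟩ hp
    have h3 : ((i, l) : ℕ × ℕ) ∈ (↑(Lfin (δ * δ) u t j) : Set (ℕ × ℕ)) := hp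
    rw [coe_Lfin ht hj, mem_Lset] at h3
    have h4 : δ * δ * l ≤ δ * δ * u + t := by omega
    have h5 : δ * (δ * l) ≤ δ * (d + 1) := by
      rw [← Nat.mul_assoc]
      omega
    have h6 : δ * l ≤ d + 1 := Nat.le_of_mul_le_mul_left h5 hδ0
    have h7 : 2 * l ≤ δ * l := Nat.mul_le_mul_right _ hδ
    have h8 : 2 * d ≤ δ * d := Nat.mul_le_mul_right _ hδ
    simp only
    omega
  obtain ⟨M', h3, h5, h6⟩ := reach_chain_lower h𝓘 hδ0 hK hLB (n := W.card) hLV hσ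
  refine h6 (hbase.mono ?_)
  have hσ0 : 0 < σ := hσ.pos hδ0
  have hs0 : 0 < Real.sqrt σ := Real.sqrt_pos.2 hσ0
  have hss : Real.sqrt σ * Real.sqrt σ = σ := Real.mul_self_sqrt hσ0.le
  rintro ⟨i, l⟩ hp
  rw [Finset.mem_coe] at hp
  have key := hW _ hp
  refine h5 _ ?_
  simp only at key ⊢
  have e1 : δ / Real.sqrt σ * (i : ℝ) + δ * Real.sqrt σ * (l : ℝ) =
      (δ / Real.sqrt σ) * (i + σ * l) := by
    have e0 : δ / Real.sqrt σ * (Real.sqrt σ * Real.sqrt σ * l) = δ * Real.sqrt σ * l := by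
      field_simp
    rw [hss] at e0
    rw [mul_add, e0]
  have e2 : V - 1 - δ * (Real.sqrt σ - δ) = (δ / Real.sqrt σ) *
      ((2 * (d : ℝ) + 3 + δ - 2 * Real.sqrt σ - 2 / δ) * Real.sqrt σ / 2) := by
    have h10 : V = δ * ((2 * (d : ℝ) + 3 - δ) / 2) := by linarith
    rw [h10]
    field_simp
    ring
  rw [e1, e2]
  exact mul_le_mul_of_nonneg_left key (by positivity)

end Pool.Agent.H932R3
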