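import Mathlib
import Pool.Agent.H15.G.R_seed8.H932R3.Crit

set_option autoImplicit false

/-!
# Maximal rank away from the critical degrees
-/

namespace Pool.Agent.H932R3

open Polynomial Pool.Agent.H932R2

theorem crit_ineq_upper {s τ S δ m g X d : ℝ} (hs : 0 < s) (hτ : 0 < τ) (hsδ : s < δ + 2)
    (hg : |τ * τ - s * s| = g) (hS0 : 0 ≤ S) (hS : S ≤ s * s * (m + 1)) (hm : 0 ≤ m)
    (h4 : (m + 1) * g ≤ τ / 8) (hd : 2 * d + 6 ≤ s + 2 * S / s)
    (hX : X = (2 * d + 3 - δ) / 2 * τ) : X + (m + 1) * g < S := by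
  have hg0 : 0 ≤ g := by rw [← hg]; exact abs_nonneg _
  have h1 : S / s * τ ≤ S + (m + 1) * g / 2 := by
    rcases le_total τ s with h | h
    · have : S / s * τ ≤ S / s * s := mul_le_mul_of_nonneg_left h (by positivity)
      have e : S / s * s = S := by field_simp
      have : 0 ≤ (m + 1) * g / 2 := by positivity
      linarith
    · have e : S / s * τ = S + S / s * (τ - s) := by field_simp; ring
      have h5 : S / s ≤ s * (m + 1) := by
        rw [div_le_iff₀ hs]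
        linarith
      have h6 : S / s * (τ - s) ≤ s * (m + 1) * (τ - s) :=
        mul_le_mul_of_nonneg_right h5 (by linarith)
      have h7 : τ * τ - s * s = g := by
        rw [← hg, abs_of_nonneg]
        nlinarith
      have h8 : 2 * (s * (τ - s)) ≤ g := by nlinarith [mul_nonneg (sub_nonneg.2 h) (sub_nonneg.2 h)]
      have h9 : s * (m + 1) * (τ - s) ≤ (m + 1) * g / 2 := by nlinarith
      linarith
  have h2 : X ≤ S / s * τ + (s - 3 - δ) / 2 * τ := by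
    rw [hX]
    have h5 : 2 * d + 3 - δ ≤ s + 2 * S / s - 3 - δ := by linarith
    have h6 : (2 * d + 3 - δ) / 2 * τ ≤ (s + 2 * S / s - 3 - δ) / 2 * τ :=
      mul_le_mul_of_nonneg_right (by linarith) hτ.le
    have h7 : (s + 2 * S / s - 3 - δ) / 2 * τ = S / s * τ + (s - 3 - δ) / 2 * τ := by ring
    linarith
  have h3 : (s - 3 - δ) / 2 * τ < -1 / 2 * τ := mul_lt_mul_of_pos_right (by linarith) hτ
  linarith

theorem crit_ineq_lower {s τ S δ m g Y d : ℝ} (hs : 9 ≤ s) (hτ : 0 < τ) (hδ : 9 ≤ δ)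
    (hsδ : s < δ + 2)
    (hg : |τ * τ - s * s| = g) (hg1 : g ≤ 1) (hS0 : 0 ≤ S) (hS : S ≤ s * s * (m + 1))
    (hm : 0 ≤ m) (h4 : (m + 1) * g ≤ τ / 8) (hd : s + 2 * S / s ≤ 2 * d)
    (hY : Y = (2 * d + 3 + δ - 2 * τ - 2 / δ) * τ / 2) : S + (m + 1) * g ≤ Y := by
  have hs0 : 0 < s := by linarith
  have hg0 : 0 ≤ g := by rw [← hg]; exact abs_nonneg _
  have h1 : S - (m + 1) * g ≤ S / s * τ := by
    rcases le_total s τ with h | h
    · have : S / s * s ≤ S / s * τ := mul_le_mul_of_nonneg_left h (by positivity)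
      have e : S / s * s = S := by field_simp
      have : 0 ≤ (m + 1) * g := by positivity
      linarith
    · have e : S / s * τ = S - S / s * (s - τ) := by field_simp; ring
      have h5 : S / s ≤ s * (m + 1) := by
        rw [div_le_iff₀ hs0]
        linarith
      have h6 : S / s * (s - τ) ≤ s * (m + 1) * (s - τ) :=
        mul_le_mul_of_nonneg_right h5 (by linarith)
      have h7 : s * s - τ * τ = g := by
        rw [← hg, abs_sub_comm, abs_of_nonneg]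
        nlinarith
      have h8 : s * (s - τ) ≤ g := by nlinarith [mul_nonneg hτ.le (sub_nonneg.2 h)]
      have h9 : s * (m + 1) * (s - τ) ≤ (m + 1) * g := by nlinarith
      linarith
  have hτs : τ ≤ s + 1 / 9 := by
    by_contra h
    have h5 : s + 1 / 9 < τ := not_le.1 h
    have h6 : τ * τ - s * s ≤ g := by rw [← hg]; exact le_abs_self _
    nlinarith
  have hδ2 : 2 / δ ≤ 2 / 9 := div_le_div_of_nonneg_left (by norm_num) (by norm_num) hδ
  have h2 : S / s * τ + 1 / 4 * τ ≤ Y := by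
    rw [hY]
    have h5 : 2 * (S / s) + 1 / 2 ≤ 2 * d + 3 + δ - 2 * τ - 2 / δ := by
      have : 2 * S / s = 2 * (S / s) := by ring
      linarith
    have h6 : (2 * (S / s) + 1 / 2) * (τ / 2) ≤ (2 * d + 3 + δ - 2 * τ - 2 / δ) * (τ / 2) :=
      mul_le_mul_of_nonneg_right h5 (by linarith)
    linarith
  linarith

variable {K : Type*} [Field K] [Infinite K]

theorem sum_near_le {n m : ℕ} {w : Fin n → ℕ} (hw : ∀ a, w a = m ∨ w a = m + 1) :
    ∑ a, (w a : ℝ) ≤ n * (m + 1) := by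
  calc ∑ a, (w a : ℝ) ≤ ∑ _a : Fin n, ((m : ℝ) + 1) := by
        refine Finset.sum_le_sum fun a _ => ?_
        rcases hw a with h | h <;> rw [h]
        · linarith
        · push_cast; linarith
    _ = n * (m + 1) := by
        rw [Finset.sum_const, Finset.card_univ, Fintype.card_fin, nsmul_eq_mul]

theorem crit_upper {n m : ℕ} (hn : 0 < n) {𝒞 : Set (Fin n → K)} {x : Fin n → K} (hx : x ∈ 𝒞)
    (h𝒞 : AffInv 𝒞) {w : Fin n → ℕ} (hw : ∀ a, w a = m ∨ w a = m + 1) {δ d B : ℕ} {σ : ℝ}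
    (hδ : 9 ≤ δ) (h2 : n < (δ + 2) * (δ + 2)) (hσ : Reach δ σ)
    (h3 : |σ - n| ≤ 1) (h4 : ((m + 1 : ℕ) : ℝ) * |σ - n| ≤ Real.sqrt σ / 8)
    (hd : 2 * (d : ℝ) + 6 ≤ Real.sqrt n + 2 * (∑ a, (w a : ℝ)) / Real.sqrt n)
    (hd0 : δ * ((δ - 1) * (δ - 2)) ≤ 2 * d) (hB : δ * d ≤ B)
    (hK : ∀ k : ℕ, 0 < k → k ≤ B → (k : K) ≠ 0) :
    RkS (wFam 𝒞 w) (Tset d) (Tfin d).card := by
  have hnR : (0 : ℝ) < n := by exact_mod_cast hn
  have hσ0 : 0 < σ := hσ.pos (by omega)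
  have hs0 : 0 < Real.sqrt n := Real.sqrt_pos.2 hnR
  have hτ0 : 0 < Real.sqrt σ := Real.sqrt_pos.2 hσ0
  have hss : Real.sqrt n * Real.sqrt n = n := Real.mul_self_sqrt hnR.le
  have hττ : Real.sqrt σ * Real.sqrt σ = σ := Real.mul_self_sqrt hσ0.le
  have hsδ : Real.sqrt n < δ + 2 := by
    rw [Real.sqrt_lt' (by positivity)]
    have : (n : ℝ) < (((δ + 2) * (δ + 2) : ℕ) : ℝ) := by exact_mod_cast h2
    push_cast at this
    nlinarith
  push_cast at h4
  have hS0 : 0 ≤ ∑ a, (w a : ℝ) := Finset.sum_nonneg fun _ _ => Nat.cast_nonneg _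
  have key := crit_ineq_upper (g := |σ - n|) (m := m) (δ := δ) (d := d) hs0 hτ0 hsδ
    (by rw [hττ, hss]) hS0 (by rw [hss]; exact sum_near_le hw) (Nat.cast_nonneg m) h4 hd rfl
  obtain ⟨m', hm1, ⟨a₀, ha⟩, hm2⟩ : ∃ m', (∀ a, m' ≤ w a) ∧ (∃ a₀, w a₀ = m') ∧ m' ≤ m + 1 := by
    by_cases h : ∃ a, w a = m
    · exact ⟨m, fun a => by rcases hw a with h' | h' <;> omega, h, by omega⟩
    · push Not at h
      have hall : ∀ a, w a = m + 1 := fun a => (hw a).resolve_left (h a)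
      exact ⟨m + 1, fun a => (hall a).ge, ⟨⟨0, hn⟩, hall _⟩, le_rfl⟩
  have hm2' : (m' : ℝ) ≤ m + 1 := by exact_mod_cast hm2
  have habs1 := le_abs_self (σ - n)
  have habs2 := neg_abs_le (σ - n)
  have habs0 := abs_nonneg (σ - n)
  have hm0 : (0 : ℝ) ≤ m := Nat.cast_nonneg m
  have hm'0 : (0 : ℝ) ≤ m' := Nat.cast_nonneg m'
  refine upper_rank (wFam_stable h𝒞 w) (W := Ww w) (by omega) (base_Ww hx w) hd0 hB hK hσ
    (Ww_upper hm1 ha (by linarith) ?_ ?_)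
  · have : 0 ≤ ((m : ℝ) + 1) * |σ - n| := by positivity
    linarith
  · have h5 : (n - σ) * m' ≤ |σ - n| * m' := mul_le_mul_of_nonneg_right (by linarith) hm'0
    have h6 : |σ - n| * m' ≤ |σ - n| * (m + 1) := mul_le_mul_of_nonneg_left hm2' habs0
    linarith

theorem crit_lower {n m : ℕ} (hn : 81 ≤ n) {𝒞 : Set (Fin n → K)} {x : Fin n → K} (hx : x ∈ 𝒞)
    (h𝒞 : AffInv 𝒞) {w : Fin n → ℕ} (hw : ∀ a, w a = m ∨ w a = m + 1) {δ d B : ℕ} {σ : ℝ}
    (hδ : 9 ≤ δ) (h2 : n < (δ + 2) * (δ + 2)) (hσ : Reach δ σ)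
    (h3 : |σ - n| ≤ 1) (h4 : ((m + 1 : ℕ) : ℝ) * |σ - n| ≤ Real.sqrt σ / 8)
    (hd : Real.sqrt n + 2 * (∑ a, (w a : ℝ)) / Real.sqrt n ≤ 2 * (d : ℝ))
    (hd0 : δ * ((δ - 1) * (δ - 2)) ≤ 2 * d) (hB : δ * d ≤ B)
    (hK : ∀ k : ℕ, 0 < k → k ≤ B → (k : K) ≠ 0) :
    RkS (wFam 𝒞 w) (Tset d) (∑ a, (w a + 1).choose 2) := by
  have hnR : (81 : ℝ) ≤ n := by exact_mod_cast hn
  have hσ0 : 0 < σ := hσ.pos (by omega)
  have hs9 : 9 ≤ Real.sqrt n := Real.le_sqrt_of_sq_le (by norm_num; linarith)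
  have hτ0 : 0 < Real.sqrt σ := Real.sqrt_pos.2 hσ0
  have hss : Real.sqrt n * Real.sqrt n = n := Real.mul_self_sqrt (by linarith)
  have hττ : Real.sqrt σ * Real.sqrt σ = σ := Real.mul_self_sqrt hσ0.le
  have hsδ : Real.sqrt n < δ + 2 := by
    rw [Real.sqrt_lt' (by positivity)]
    have : (n : ℝ) < (((δ + 2) * (δ + 2) : ℕ) : ℝ) := by exact_mod_cast h2
    push_cast at this
    nlinarith
  push_cast at h4
  have hS0 : 0 ≤ ∑ a, (w a : ℝ) := Finset.sum_nonneg fun _ _ => Nat.cast_nonneg _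
  have key := crit_ineq_lower (g := |σ - n|) (m := m) (δ := δ) (d := d) hs9 hτ0
    (by exact_mod_cast hδ) hsδ
    (by rw [hττ, hss]) h3 hS0 (by rw [hss]; exact sum_near_le hw) (Nat.cast_nonneg m) h4 hd rfl
  have habs1 := le_abs_self (σ - n)
  have habs0 := abs_nonneg (σ - n)
  have hm0 : (0 : ℝ) ≤ m := Nat.cast_nonneg m
  rw [← card_Ww]
  refine lower_rank (wFam_stable h𝒞 w) (W := Ww w) (by omega) (base_Ww hx w) hd0 hB hK hσ
    (Ww_lower hw ?_ ?_)
  · have : 0 ≤ ((m : ℝ) + 1) * |σ - n| := by positivity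
    linarith
  · have h5 : (σ - n) * m ≤ |σ - n| * (m + 1) := by
      calc (σ - n) * m ≤ |σ - n| * m := mul_le_mul_of_nonneg_right habs1 hm0
        _ ≤ |σ - n| * (m + 1) := mul_le_mul_of_nonneg_left (by linarith) habs0
    linarith

end Pool.Agent.H932R3
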