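import Mathlib
import Pool.Agent.H15.G.R_seed8.H932R3.NearU

set_option autoImplicit false

/-!
# Main theorem for multiplicities differing by at most one
-/

namespace Pool.Agent.H932R3

open Polynomial Pool.Agent.H932R2

theorem near_points {L : Type*} [Field L] [CharZero L] {n m : ℕ} (hn : 10 ≤ n) (hm : 1 ≤ m)
    {w : Fin n → ℕ} (hw : ∀ i, w i = m ∨ w i = m + 1)
    (hcond : ∃ δ κ, CondN n (∑ i, (w i + 1).choose 2) δ κ) :
    ∃ F : MvPolynomial (Fin n × Fin 2) ℚ, F ≠ 0 ∧
      ∀ P : Fin n → Fin 2 → L,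
        MvPolynomial.aeval (fun ij : Fin n × Fin 2 => P ij.1 ij.2) F ≠ 0 →
        ∀ d : ℕ,
          Module.finrank L
            ↥(MvPolynomial.homogeneousSubmodule (Fin 3) L d ⊓
              Submodule.restrictScalars L
                (⨅ i : Fin n,
                  (Ideal.span
                    ({MvPolynomial.X 0 - MvPolynomial.C (P i 0) * MvPolynomial.X 2,
                      MvPolynomial.X 1 - MvPolynomial.C (P i 1) * MvPolynomial.X 2} :
                      Set (MvPolynomial (Fin 3) L))) ^ (w i)))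
          = Nat.choose (d + 2) 2 - ∑ i, Nat.choose (w i + 1) 2 := by
  classical
  let 𝒞 : Set (Fin n → ℚ) := {x | Function.Injective x}
  have h𝒞 : AffInv 𝒞 := by
    intro x hx t ht c a b hab
    exact hx (mul_left_cancel₀ ht (add_left_cancel hab))
  have hx0 : (fun i : Fin n => Infinite.natEmbedding ℚ i) ∈ 𝒞 := by
    intro a b hab
    exact Fin.ext ((Infinite.natEmbedding ℚ).injective hab)
  obtain ⟨e, h1, h2⟩ := near_rank (K := ℚ) hn hm hx0 h𝒞 hw hcond
    (fun k hk _ => by exact_mod_cast hk.ne')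
  let c : Fin n → MvPolynomial (Fin n × Fin 2) ℚ := fun a => MvPolynomial.X (a, 0)
  let γ : Fin n → (MvPolynomial (Fin n × Fin 2) ℚ)[X] := fun a => C (MvPolynomial.X (a, 1))
  have hop : ∀ (T : Set (ℕ × ℕ)) (N : ℕ), RkS (wFam 𝒞 w) T N →
      ∃ F : MvPolynomial (Fin n × Fin 2) ℚ, F ≠ 0 ∧ ∀ P : Fin n × Fin 2 → L,
        MvPolynomial.aeval P F ≠ 0 →
        RkI (vIdeal 1 w (fun a => P (a, 0)) (fun a => C (P (a, 1)))) T N := by
    rintro T N ⟨_, ⟨x, hx, g, rfl⟩, hR⟩
    have h3 := hR.anti (iInf_le_wIdeal hx g w)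
    let P0 : Fin n × Fin 2 → ℚ := fun ij => if ij.2 = 0 then x ij.1 else g.eval (x ij.1)
    obtain ⟨F, hF, hF'⟩ := exists_openV_ext (L := L) 1 w c γ T N P0 (by
      simpa [P0, c, γ, vIdeal] using h3)
    refine ⟨F, hF, fun P hP => ?_⟩
    have h4 := hF' P hP
    have e1 : (fun a => MvPolynomial.aeval P (c a)) = fun a => P (a, 0) := by
      funext a
      exact MvPolynomial.aeval_X _ _
    have e2 : (fun a => (γ a).map
        ((MvPolynomial.aeval P : MvPolynomial (Fin n × Fin 2) ℚ →ₐ[ℚ] L) :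
          MvPolynomial (Fin n × Fin 2) ℚ →+* L)) = fun a => C (P (a, 1)) := by
      funext a
      show (C (MvPolynomial.X (a, 1))).map _ = _
      rw [Polynomial.map_C]
      congr 1
      exact MvPolynomial.aeval_X _ _
    rw [e1, e2] at h4
    exact h4
  obtain ⟨F1, hF1, hF1'⟩ := hop _ _ h1
  obtain ⟨F2, hF2, hF2'⟩ := hop _ _ h2
  refine ⟨F1 * F2, mul_ne_zero hF1 hF2, fun P hP d => ?_⟩
  rw [map_mul] at hP
  have h3 := hF1' _ (left_ne_zero_of_mul hP)
  have h4 := hF2' _ (right_ne_zero_of_mul hP)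
  have hsum : ∑ a, (EE 1 (w a)).card = ∑ i, (w i + 1).choose 2 :=
    Finset.sum_congr rfl fun i _ => card_EE_eq (w i)
  have h5 := finrank_allV h3 (by rw [hsum]; exact h4) d
  rw [hsum] at h5
  rw [← h5]
  refine finrank_forms _ _ fun F hF => ?_
  rw [Submodule.restrictScalars_mem, Submodule.restrictScalars_mem]
  unfold vIdeal
  rw [Ideal.mem_iInf, Ideal.mem_iInf]
  exact forall_congr' fun i => mem_ptIdeal_iff hF

end Pool.Agent.H932R3
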