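import Mathlib
import Pool.Agent.H15.G.R_seed8.H932R3.ReachS
import Pool.Agent.H15.G.R_seed8.H932R2.Main

set_option autoImplicit false

/-!
# Emptiness of linear systems
-/

namespace Pool.Agent.H932R3

open Polynomial Pool.Agent.H932R2

variable {K : Type*} [Field K]

theorem ideal_pow_mem {R : Type*} [CommRing R] {I : Ideal R} {f : R} {m : ℕ} (hf : f ∈ I ^ m)
    (k : ℕ) : f ^ k ∈ I ^ (k * m) := by
  induction k with
  | zero =>
    rw [zero_mul]
    have : I ^ 0 = (⊤ : Ideal R) := by simp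
    rw [this]
    exact Submodule.mem_top
  | succ k ih =>
    rw [pow_succ, Nat.succ_mul, Ideal.IsTwoSided.pow_add]
    exact Ideal.mul_mem_mul ih hf

/-- No nonzero form of degree `d` has its dehomogenisation in `J`. -/
def NoForm (J : Ideal K[X][X]) (d : ℕ) : Prop :=
  ∀ F ∈ MvPolynomial.homogeneousSubmodule (Fin 3) K d, deh K F ∈ J → F = 0

theorem NoForm.anti {J J' : Ideal K[X][X]} {d : ℕ} (h : J' ≤ J) (hJ : NoForm J d) :
    NoForm J' d := fun F hF hF' => hJ F hF (h hF')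

theorem NoForm.of_rk {J : Ideal K[X][X]} {d : ℕ} (h : RkI J (Tset d) (Tfin d).card) :
    NoForm J d := by
  intro F hF hF'
  rw [← coe_Tfin] at h
  have h1 := h.full
  have h2 := deh_mem_mspan (d := d) hF
  rw [← coe_Tfin, mem_mspan_iff] at h2
  obtain ⟨a, ha⟩ := h2
  rw [coordMap_apply] at ha
  have h3 := h1 a (by rw [ha]; exact hF')
  refine deh_eq_zero (d := d) hF ?_
  rw [← ha]
  exact Finset.sum_eq_zero fun i _ => by rw [h3 i, zero_smul]

theorem NoForm.rk {J : Ideal K[X][X]} {d : ℕ} (h : NoForm J d) :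
    RkI J (Tset d) (Tfin d).card := by
  rw [← coe_Tfin]
  refine ⟨fun i => mon K (enumM (Tfin d) i),
    fun i => Submodule.subset_span ⟨_, enumM_mem (Tfin d) i, rfl⟩, fun c hc => ?_⟩
  have h1 : ∑ i, c i • mon K (enumM (Tfin d) i) ∈ mspan K (Tset d) := by
    rw [← coe_Tfin]
    exact Submodule.sum_mem _ fun i _ => Submodule.smul_mem _ _
      (Submodule.subset_span ⟨_, enumM_mem (Tfin d) i, rfl⟩)
  obtain ⟨F, hF, hF'⟩ := exists_form h1
  have h2 := h F hF (by rw [hF']; exact hc)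
  rw [h2, map_zero] at hF'
  exact fun i => mspan_eq_zero c hF'.symm i

theorem NoForm.mono {J : Ideal K[X][X]} {d d' : ℕ} (h : d ≤ d') (hJ : NoForm J d') :
    NoForm J d := by
  intro F hF hF'
  have h1 : F * MvPolynomial.X 2 ^ (d' - d) ∈ MvPolynomial.homogeneousSubmodule (Fin 3) K d' := by
    rw [MvPolynomial.mem_homogeneousSubmodule] at hF ⊢
    have h2 := hF.mul ((MvPolynomial.isHomogeneous_X K (2 : Fin 3)).pow (d' - d))
    rw [one_mul, Nat.add_sub_cancel' h] at h2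
    exact h2
  have h2 := hJ _ h1 (by
    rw [map_mul, map_pow, deh_X2, one_pow, mul_one]
    exact hF')
  rcases mul_eq_zero.1 h2 with h3 | h3
  · exact h3
  · exact absurd (eq_zero_of_pow_eq_zero h3) (MvPolynomial.X_ne_zero _)

theorem eq_zero_of_pow_eq_zero' {F : MvPolynomial (Fin 3) K} {k : ℕ} (h : F ^ k = 0) : F = 0 :=
  eq_zero_of_pow_eq_zero h

theorem NoForm.of_pow {J J' : Ideal K[X][X]} {d k : ℕ} (h : ∀ f ∈ J, f ^ k ∈ J')
    (hJ : NoForm J' (k * d)) : NoForm J d := by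
  intro F hF hF'
  have h1 : F ^ k ∈ MvPolynomial.homogeneousSubmodule (Fin 3) K (k * d) := by
    rw [MvPolynomial.mem_homogeneousSubmodule] at hF ⊢
    have := hF.pow k
    rwa [mul_comm] at this
  exact eq_zero_of_pow_eq_zero' (hJ _ h1 (by rw [map_pow]; exact h _ hF'))

theorem base_EE {r : ℕ} {𝒞 : Set (Fin r → K)} {x : Fin r → K} (hx : x ∈ 𝒞) (m : ℕ) :
    RkS (wFam 𝒞 fun _ => m) (↑(EE r m) : Set (ℕ × ℕ)) (EE r m).card := by
  refine RkS.base hx _ _ fun p hp => ?_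
  obtain ⟨i, l⟩ := p
  rw [mem_EE] at hp
  simpa using hp.2

/-- General collisions, one degree. -/
theorem collision_open {r m d : ℕ} (hr : 0 < r) {c1 : K} {g : K[X]}
    (hR' : RkI (cIdeal (fun _ : Fin r => c1) g m) (Tset d) (Tfin d).card) :
    ∃ F : MvPolynomial (Fin (r + 1)) K, F ≠ 0 ∧
      ∀ (c : K) (a : Fin r → K), MvPolynomial.eval (Fin.cons c a : Fin (r + 1) → K) F ≠ 0 →
        NoForm (jetIdeal m c a) d := by
  classical
  let c : Unit → MvPolynomial (Fin (r + 1)) K := fun _ => MvPolynomial.X 0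
  let γ : Unit → (MvPolynomial (Fin (r + 1)) K)[X] := fun _ =>
    ∑ j : Fin r, C (MvPolynomial.X j.succ) * X ^ (j : ℕ)
  have hev : ∀ (c0 : K) (a : Fin r → K),
      uIdeal r m (fun i => MvPolynomial.eval (Fin.cons c0 a : Fin (r + 1) → K) (c i))
        (fun i => (γ i).map (MvPolynomial.eval (Fin.cons c0 a : Fin (r + 1) → K))) =
      jetIdeal m c0 a := by
    intro c0 a
    simp only [c, γ, MvPolynomial.eval_X, Fin.cons_zero, uIdeal, iInf_const, cIdeal, jetIdeal,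
      rootPoly_const, Polynomial.map_sum, Polynomial.map_mul, Polynomial.map_C,
      Polynomial.map_pow, Polynomial.map_X, Fin.cons_succ]
  have h3 := hR'.anti (cIdeal_mod _ g m)
  have hdeg : (g %ₘ rootPoly (fun _ : Fin r => c1)).natDegree < r := by
    have h4 := natDegree_modByMonic_lt g (rootPoly_monic (fun _ : Fin r => c1)) (by
      intro h5
      have h6 := rootPoly_natDegree (fun _ : Fin r => c1)
      rw [h5, natDegree_one] at h6
      omega)
    rwa [rootPoly_natDegree] at h4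
  obtain ⟨g', hg'⟩ : ∃ g', g' = g %ₘ rootPoly (fun _ : Fin r => c1) := ⟨_, rfl⟩
  rw [← hg'] at h3 hdeg
  have hsum : ∑ j : Fin r, C (g'.coeff j) * X ^ (j : ℕ) = g' := by
    conv_rhs => rw [as_sum_range_C_mul_X_pow' g' hdeg]
    exact (Finset.sum_range fun j => C (g'.coeff j) * X ^ j).symm
  obtain ⟨F, hF, hF'⟩ := exists_open r m c γ (Tset d) (Tfin d).card
    (Fin.cons c1 (fun j : Fin r => g'.coeff j) : Fin (r + 1) → K) (by
    rw [hev, jetIdeal, hsum]
    unfold cIdeal at h3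
    rw [rootPoly_const] at h3
    exact h3)
  refine ⟨F, hF, fun c0 a hP => ?_⟩
  rw [← hev]
  exact NoForm.of_rk (hF' _ hP)

theorem collision_rank {r m d : ℕ} (hr : 0 < r)
    (h : RkS (wFam {x : Fin r → K | ∃ c, x = fun _ => c} fun _ => m) (Tset d) (Tfin d).card) :
    ∃ F : MvPolynomial (Fin (r + 1)) K, F ≠ 0 ∧
      ∀ (c : K) (a : Fin r → K), MvPolynomial.eval (Fin.cons c a : Fin (r + 1) → K) F ≠ 0 →
        NoForm (jetIdeal m c a) d := by
  obtain ⟨_, ⟨_, ⟨c1, rfl⟩, g, rfl⟩, hR⟩ := h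
  exact collision_open hr (hR.anti (cIdeal_le_wIdeal _ g m))

/-- The ideal of the plane polynomials with multiplicity `w a` at the points `P a`. -/
noncomputable def ptJ {n : ℕ} (P : Fin n → Fin 2 → K) (w : Fin n → ℕ) : Ideal K[X][X] :=
  vIdeal 1 w (fun a => P a 0) (fun a => C (P a 1))

/-- General points, one degree and one choice of multiplicities. -/
theorem points_open {n d : ℕ} (w : Fin n → ℕ) (P0 : Fin n → Fin 2 → K)
    (h : NoForm (ptJ P0 w) d) :
    ∃ F : MvPolynomial (Fin n × Fin 2) K, F ≠ 0 ∧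
      ∀ P : Fin n → Fin 2 → K, MvPolynomial.eval (fun ij : Fin n × Fin 2 => P ij.1 ij.2) F ≠ 0 →
        NoForm (ptJ P w) d := by
  classical
  let c : Fin n → MvPolynomial (Fin n × Fin 2) K := fun a => MvPolynomial.X (a, 0)
  let γ : Fin n → (MvPolynomial (Fin n × Fin 2) K)[X] := fun a => C (MvPolynomial.X (a, 1))
  have hev : ∀ P : Fin n × Fin 2 → K,
      vIdeal 1 w (fun a => MvPolynomial.eval P (c a)) (fun a => (γ a).map (MvPolynomial.eval P)) =
      ptJ (fun a b => P (a, b)) w := by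
    intro P
    simp [c, γ, ptJ]
  obtain ⟨F, hF, hF'⟩ := exists_openV 1 w c γ (Tset d) (Tfin d).card
    (fun ij : Fin n × Fin 2 => P0 ij.1 ij.2) (by
    rw [hev]
    exact h.rk)
  refine ⟨F, hF, fun P hP => ?_⟩
  have := hF' _ hP
  rw [hev] at this
  exact NoForm.of_rk this

theorem points_rank {n d : ℕ} {w : Fin n → ℕ}
    (h : RkS (wFam {x : Fin n → K | Function.Injective x} w) (Tset d) (Tfin d).card) :
    ∃ P : Fin n → Fin 2 → K, NoForm (ptJ P w) d := by
  obtain ⟨_, ⟨x, hx, γ, rfl⟩, hR⟩ := h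
  refine ⟨fun a b => if b = 0 then x a else γ.eval (x a), NoForm.of_rk (hR.anti ?_)⟩
  refine le_trans (le_of_eq ?_) (iInf_le_wIdeal hx γ w)
  simp [ptJ, vIdeal]

theorem points_rank' {n d m : ℕ} {x : Fin n → K} (hx : Function.Injective x) {γ : K[X]}
    (h : RkI (cIdeal x γ m) (Tset d) (Tfin d).card) :
    ∃ P : Fin n → Fin 2 → K, NoForm (ptJ P fun _ => m) d := by
  refine ⟨fun a b => if b = 0 then x a else γ.eval (x a), NoForm.of_rk (h.anti ?_)⟩
  refine le_trans (le_of_eq ?_) (uIdeal_le hx γ m)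
  simp [ptJ, vIdeal, uIdeal]

theorem affInv_const (r : ℕ) : AffInv {x : Fin r → K | ∃ c, x = fun _ => c} := by
  rintro _ ⟨c0, rfl⟩ t _ c
  exact ⟨c + t * c0, rfl⟩

theorem affInv_inj (r : ℕ) : AffInv {x : Fin r → K | Function.Injective x} := by
  intro x hx t ht c a b hab
  exact hx (mul_left_cancel₀ ht (add_left_cancel hab))

/-- The numerical condition for emptiness. -/
def Empt (r m d : ℕ) : Prop :=
  ∃ δ : ℕ, ∃ σ : ℝ, 4 ≤ δ ∧ δ * δ ≤ r ∧ Reach δ σ ∧ (d : ℝ) ≤ m * Real.sqrt σ ∧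
    (d : ℝ) * Real.sqrt σ ≤ m * r

theorem Empt.scale {r m d : ℕ} (h : Empt r m d) (t : ℕ) : Empt r (t * m) (t * d) := by
  obtain ⟨δ, σ, h4, h5, hσ, h1, h2⟩ := h
  have ht : (0 : ℝ) ≤ t := Nat.cast_nonneg t
  refine ⟨δ, σ, h4, h5, hσ, ?_, ?_⟩
  · push_cast
    have := mul_le_mul_of_nonneg_left h1 ht
    linarith
  · push_cast
    have := mul_le_mul_of_nonneg_left h2 ht
    linarith

theorem Empt.rk [Infinite K] {r m d : ℕ} (hK : ∀ q : ℕ, 0 < q → q ≤ r ^ 2 * d → (q : K) ≠ 0)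
    (h : Empt r m d) (hd : 0 < d) {𝒞 : Set (Fin r → K)}
    {x : Fin r → K} (hx : x ∈ 𝒞) (h𝒞 : AffInv 𝒞) :
    ∃ k, 0 < k ∧ RkS (wFam 𝒞 fun _ => k * m) (Tset (k * d)) (Tfin (k * d)).card := by
  obtain ⟨δ, σ, h4, h5, hσ, h1, h2⟩ := h
  have hδR : (4 : ℝ) ≤ δ := by exact_mod_cast h4
  refine ⟨δ * ((δ - 1) * (δ - 2)), ?_, ?_⟩
  · exact Nat.mul_pos (by omega) (Nat.mul_pos (by omega) (by omega))
  · obtain ⟨k, hk⟩ : ∃ k, k = δ * ((δ - 1) * (δ - 2)) := ⟨_, rfl⟩
    rw [← hk]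
    have hk0 : (0 : ℝ) ≤ k := Nat.cast_nonneg k
    refine nagata_rank (wFam_stable h𝒞 _) (r := r) (m := k * m) (δ := δ) (B := δ * (k * d))
      (by omega) (base_EE hx _) ?_ le_rfl ?_ hσ ?_ ?_
    · rw [← hk]
      exact (Nat.le_mul_of_pos_right k hd).trans (Nat.le_mul_of_pos_left _ (by norm_num))
    · intro j hj hj'
      refine hK j hj (hj'.trans ?_)
      have e1 : δ * (k * d) = (δ * δ) * ((δ - 1) * (δ - 2)) * d := by
        rw [hk]
        ring
      rw [e1]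
      refine Nat.mul_le_mul_right d ?_
      rw [pow_two]
      exact Nat.mul_le_mul h5 ((Nat.mul_le_mul (Nat.sub_le _ _) (Nat.sub_le _ _)).trans h5)
    · push_cast
      have := mul_le_mul_of_nonneg_left h1 hk0
      nlinarith
    · push_cast
      have h3 := mul_le_mul_of_nonneg_left h2 hk0
      have h5 : 0 < Real.sqrt σ := Real.sqrt_pos.2 (hσ.pos (by omega))
      nlinarith

/-- Emptiness for general collisions. -/
theorem collision_empty [Infinite K] {r m d : ℕ}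
    (hK : ∀ q : ℕ, 0 < q → q ≤ r ^ 2 * d → (q : K) ≠ 0) (hr : 0 < r) (hd : 0 < d)
    (h : Empt r m d) :
    ∃ F : MvPolynomial (Fin (r + 1)) K, F ≠ 0 ∧
      ∀ (c : K) (a : Fin r → K), MvPolynomial.eval (Fin.cons c a : Fin (r + 1) → K) F ≠ 0 →
        NoForm (jetIdeal m c a) d := by
  obtain ⟨k, hk, h1⟩ := h.rk (K := K) hK hd (𝒞 := {x : Fin r → K | ∃ c, x = fun _ => c})
    (x := fun _ => 0) ⟨0, rfl⟩ (affInv_const r)
  obtain ⟨F, hF, hF'⟩ := collision_rank hr h1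
  refine ⟨F, hF, fun c a hP => NoForm.of_pow (fun f hf => ?_) (hF' c a hP)⟩
  unfold jetIdeal at hf ⊢
  exact ideal_pow_mem hf k

/-- Emptiness for uniform multiplicities at general points. -/
theorem points_empty [Infinite K] {n m d : ℕ}
    (hK : ∀ q : ℕ, 0 < q → q ≤ n ^ 2 * d → (q : K) ≠ 0) (hd : 0 < d) (h : Empt n m d) :
    ∃ F : MvPolynomial (Fin n × Fin 2) K, F ≠ 0 ∧
      ∀ P : Fin n → Fin 2 → K, MvPolynomial.eval (fun ij : Fin n × Fin 2 => P ij.1 ij.2) F ≠ 0 →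
        NoForm (ptJ P fun _ => m) d := by
  have hx0 : (fun i : Fin n => Infinite.natEmbedding K i) ∈
      {x : Fin n → K | Function.Injective x} := by
    intro a b hab
    exact Fin.ext ((Infinite.natEmbedding K).injective hab)
  obtain ⟨k, hk, h1⟩ := h.rk (K := K) hK hd hx0 (affInv_inj n)
  obtain ⟨P0, hP0⟩ := points_rank h1
  obtain ⟨F, hF, hF'⟩ := points_open _ P0 hP0
  refine ⟨F, hF, fun P hP => NoForm.of_pow (fun f hf => ?_) (hF' P hP)⟩
  unfold ptJ vIdeal at hf ⊢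
  rw [Ideal.mem_iInf] at hf ⊢
  intro i
  have h2 := hf i
  unfold cIdeal at h2 ⊢
  exact ideal_pow_mem h2 k

end Pool.Agent.H932R3
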