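import Mathlib

set_option autoImplicit false

/-!
# Iterated differences of the logarithm
-/

namespace Pool.Agent.H932R3

/-- `-log` and, up to sign, its successive derivatives. -/
noncomputable def Bf : ℕ → ℝ → ℝ
  | 0, x => -Real.log x
  | j + 1, x => (j.factorial : ℝ) / x ^ (j + 1)

theorem Bf_succ (j : ℕ) (x : ℝ) : Bf (j + 1) x = (j.factorial : ℝ) / x ^ (j + 1) := rfl

theorem Bf_deriv (j : ℕ) {x : ℝ} (hx : 0 < x) : HasDerivAt (Bf j) (-Bf (j + 1) x) x := by
  cases j with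
  | zero =>
    have h := (Real.hasDerivAt_log hx.ne').neg
    have h2 : -Bf (0 + 1) x = -x⁻¹ := by
      simp [Bf]
    rw [h2]
    exact h
  | succ j =>
    have h := ((hasDerivAt_pow (j + 1) x).inv (pow_ne_zero _ hx.ne')).const_mul (j.factorial : ℝ)
    have h1 : Bf (j + 1) = fun y => (j.factorial : ℝ) * (y ^ (j + 1))⁻¹ := by
      funext y
      rw [Bf_succ, div_eq_mul_inv]
    have h2 : -Bf (j + 1 + 1) x =
        (j.factorial : ℝ) * (-(((j + 1 : ℕ) : ℝ) * x ^ (j + 1 - 1)) / (x ^ (j + 1)) ^ 2) := by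
      rw [Bf_succ, Nat.factorial_succ, Nat.add_sub_cancel]
      have : x ≠ 0 := hx.ne'
      field_simp
      push_cast
      ring
    rw [h1, h2]
    exact h

/-- A family of functions on the positive reals behaving like iterated differences of `Bf`. -/
def GoodF (f : ℕ → ℝ → ℝ) (c S : ℝ) (n : ℕ) : Prop :=
  (∀ j x, 0 < x → HasDerivAt (f j) (-f (j + 1) x) x) ∧
    ∀ j x, 0 < x → ∃ ξ, x ≤ ξ ∧ ξ ≤ x + S ∧ f j x = c * Bf (j + n) ξ

theorem GoodF.start : GoodF Bf 1 0 0 :=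
  ⟨fun j x hx => Bf_deriv j hx, fun j x _ => ⟨x, le_refl x, by simp, by simp⟩⟩

theorem GoodF.step {f : ℕ → ℝ → ℝ} {c S : ℝ} {n : ℕ} (h : GoodF f c S n) {s : ℝ} (hs : 0 < s) :
    GoodF (fun j x => f j x - f j (x + s)) (s * c) (S + s) (n + 1) := by
  obtain ⟨h1, h2⟩ := h
  refine ⟨fun j x hx => ?_, fun j x hx => ?_⟩
  · have h3 := h1 j x hx
    have h4 : HasDerivAt (fun y => f j (y + s)) (-f (j + 1) (x + s)) x := by
      have := (h1 j (x + s) (by linarith)).comp_add_const x s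
      exact this
    have h5 := h3.sub h4
    have h6 : -(f (j + 1) x - f (j + 1) (x + s)) = -f (j + 1) x - -f (j + 1) (x + s) := by ring
    rw [h6]
    exact h5
  · have hlt : x < x + s := by linarith
    obtain ⟨η, hη, hη'⟩ := exists_hasDerivAt_eq_slope (f j) (fun y => -f (j + 1) y) hlt
      (fun y hy => (h1 j y (by linarith [hy.1])).continuousAt.continuousWithinAt)
      (fun y hy => h1 j y (by linarith [hy.1]))
    obtain ⟨ξ, hξ1, hξ2, hξ3⟩ := h2 (j + 1) η (by linarith [hη.1])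
    refine ⟨ξ, by linarith [hη.1], by linarith [hη.2], ?_⟩
    have h3 : x + s - x = s := by ring
    rw [h3, eq_div_iff hs.ne'] at hη'
    have h4 : j + (n + 1) = j + 1 + n := by ring
    show f j x - f j (x + s) = _
    rw [h4, mul_assoc, ← hξ3]
    linarith

/-- The shifts. -/
def shi (k : ℕ) : ℕ := 10 * 5 ^ (k + 3)

/-- Iterated differences. -/
noncomputable def Dk : ℕ → ℕ → ℝ → ℝ
  | 0 => fun j x => (Bf j x - Bf j (x + 2)) - (Bf j (x + 2) - Bf j (x + 2 + 2))
  | k + 1 => fun j x => Dk k j x - Dk k j (x + (shi k : ℝ))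

/-- Sum of the shifts. -/
def shS : ℕ → ℕ
  | 0 => 4
  | k + 1 => shS k + shi k

/-- Product of the shifts. -/
def shQ : ℕ → ℕ
  | 0 => 4
  | k + 1 => shi k * shQ k

theorem shi_pos (k : ℕ) : 0 < shi k := by
  unfold shi
  positivity

theorem shS_le (k : ℕ) : shS k + 10 ≤ shi k := by
  induction k with
  | zero => decide
  | succ k ih =>
    have h : shi (k + 1) = 5 * shi k := by
      unfold shi
      ring
    rw [h, shS]
    omega

theorem shi_mod (k : ℕ) : shi k % 4 = 2 := by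
  unfold shi
  have h : 5 ^ (k + 3) % 4 = 1 := by
    rw [Nat.pow_mod]
    norm_num
  omega

theorem shQ_pos (k : ℕ) : 0 < shQ k := by
  induction k with
  | zero => decide
  | succ k ih =>
    rw [shQ]
    exact Nat.mul_pos (shi_pos k) ih

theorem Dk_good (k : ℕ) : GoodF (Dk k) (shQ k) (shS k) (k + 2) := by
  induction k with
  | zero =>
    have h := (GoodF.start.step (s := 2) (by norm_num)).step (s := 2) (by norm_num)
    norm_num at h
    have h1 : ((shQ 0 : ℕ) : ℝ) = 4 := by norm_num [shQ]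
    have h2 : ((shS 0 : ℕ) : ℝ) = 4 := by norm_num [shS]
    rw [h1, h2]
    exact h
  | succ k ih =>
    have h := ih.step (s := (shi k : ℝ)) (by exact_mod_cast shi_pos k)
    have h1 : ((shQ (k + 1) : ℕ) : ℝ) = (shi k : ℝ) * (shQ k : ℝ) := by
      rw [shQ]
      push_cast
      ring
    have h2 : ((shS (k + 1) : ℕ) : ℝ) = (shS k : ℝ) + (shi k : ℝ) := by
      rw [shS]
      push_cast
      ring
    rw [h1, h2]
    exact h

/-- The value of the gadget of level `k` at `y`. -/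
noncomputable def Gk (k : ℕ) (y : ℝ) : ℝ := Dk k 0 y

theorem Gk_zero (y : ℝ) : Gk 0 y = 2 * Real.log (y + 2) - Real.log y - Real.log (y + 4) := by
  unfold Gk
  simp only [Dk, Bf]
  have : y + 2 + 2 = y + 4 := by ring
  rw [this]
  ring

theorem Gk_succ (k : ℕ) (y : ℝ) : Gk (k + 1) y = Gk k y - Gk k (y + (shi k : ℝ)) := rfl

/-- The leading coefficient. -/
noncomputable def ck (k : ℕ) : ℝ := (shQ k : ℝ) * ((k + 1).factorial : ℝ)

theorem ck_pos (k : ℕ) : 0 < ck k := by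
  unfold ck
  have h1 : (0 : ℝ) < shQ k := by exact_mod_cast shQ_pos k
  positivity

theorem ck_succ (k : ℕ) : ck (k + 1) = ck k * (shi k * (k + 2)) := by
  unfold ck
  rw [shQ, Nat.factorial_succ (k + 1)]
  push_cast
  ring

theorem Gk_bounds (k : ℕ) {y : ℝ} (hy : 0 < y) :
    ck k / (y + shS k) ^ (k + 2) ≤ Gk k y ∧ Gk k y ≤ ck k / y ^ (k + 2) := by
  obtain ⟨ξ, h1, h2, h3⟩ := (Dk_good k).2 0 y hy
  have hξ : 0 < ξ := by linarith
  have h4 : Gk k y = ck k / ξ ^ (k + 2) := by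
    unfold Gk ck
    have h5 : 0 + (k + 2) = (k + 1) + 1 := by ring
    rw [h3, h5, Bf_succ]
    ring
  have h6 := ck_pos k
  rw [h4]
  constructor
  · exact div_le_div_of_nonneg_left h6.le (by positivity)
      (pow_le_pow_left₀ hξ.le h2 _)
  · exact div_le_div_of_nonneg_left h6.le (by positivity)
      (pow_le_pow_left₀ hy.le h1 _)

theorem Gk_pos (k : ℕ) {y : ℝ} (hy : 0 < y) : 0 < Gk k y := by
  refine lt_of_lt_of_le ?_ (Gk_bounds k hy).1
  have := ck_pos k
  positivity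

theorem Gk_le_zero (k : ℕ) {y : ℝ} (hy : 0 < y) : Gk k y ≤ Gk 0 y := by
  induction k with
  | zero => exact le_refl _
  | succ k ih =>
    rw [Gk_succ]
    have := Gk_pos k (y := y + shi k) (by positivity)
    linarith

theorem Gk_anti (k : ℕ) {y s : ℝ} (hy : 0 < y) (hs : 0 < s) : Gk k (y + s) ≤ Gk k y := by
  obtain ⟨ξ, h1, h2, h3⟩ := ((Dk_good k).step hs).2 0 y hy
  have h3' : Gk k y - Gk k (y + s) = s * ↑(shQ k) * Bf (0 + (k + 2 + 1)) ξ := h3
  have hξ : 0 < ξ := by linarith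
  have h4 : 0 + (k + 2 + 1) = (k + 2) + 1 := by ring
  rw [h4, Bf_succ] at h3'
  have h5 : 0 ≤ s * ↑(shQ k) * (((k + 2).factorial : ℝ) / ξ ^ (k + 2 + 1)) := by positivity
  linarith

theorem Gk_diff (k : ℕ) {y : ℝ} (hy : 0 < y) :
    Gk k y - Gk k (y + 4) ≤ 4 * (k + 2) * ck k / y ^ (k + 3) := by
  obtain ⟨ξ, h1, h2, h3⟩ := ((Dk_good k).step (s := 4) (by norm_num)).2 0 y hy
  have hξ : 0 < ξ := by linarith
  have h3' : Gk k y - Gk k (y + 4) = 4 * ↑(shQ k) * Bf (0 + (k + 2 + 1)) ξ := h3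
  have h4 : 0 + (k + 2 + 1) = (k + 2) + 1 := by ring
  rw [h3', h4, Bf_succ]
  have h5 : 4 * (↑(shQ k) : ℝ) * (((k + 2).factorial : ℝ) / ξ ^ (k + 2 + 1)) =
      4 * (k + 2) * ck k / ξ ^ (k + 3) := by
    unfold ck
    rw [Nat.factorial_succ (k + 1)]
    push_cast
    ring
  rw [h5]
  have h6 := ck_pos k
  exact div_le_div_of_nonneg_left (by positivity) (by positivity)
    (pow_le_pow_left₀ hy.le h1 _)

end Pool.Agent.H932R3
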