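import Mathlib
import Pool.Agent.H15.G.R_seed8.H932R3.ReachS
import Pool.Agent.H15.G.R_seed8.H932R3.Stage

set_option autoImplicit false

/-!
# Walking along the reachable slopes
-/

namespace Pool.Agent.H932R3

/-- Half the logarithm of the slope along a walk of unit steps. -/
noncomputable def bet : ℕ → ℝ
  | 0 => 0
  | 1 => 0
  | 2 => 0
  | 3 => 0
  | n + 4 => bet n + (Real.log (n + 3) - Real.log (n + 1))

theorem bet_add (n : ℕ) : bet (n + 4) = bet n + (Real.log (n + 3) - Real.log (n + 1)) := by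
  rw [bet]

/-- The deviation of `bet` from half the logarithm. -/
noncomputable def gam (n : ℕ) : ℝ := bet n - Real.log n / 2

theorem gam_add {p : ℕ} (hp : 3 ≤ p) :
    0 ≤ gam p - gam (p + 4) ∧
      gam p - gam (p + 4) ≤ 1 / (4 * ((p : ℝ) - 2) ^ 2) - 1 / (4 * ((p : ℝ) + 4 - 2) ^ 2) := by
  have hp3 : (3 : ℝ) ≤ p := by exact_mod_cast hp
  obtain ⟨x, hx⟩ : ∃ x : ℝ, x = p := ⟨_, rfl⟩
  have h1 : gam p - gam (p + 4) = (Real.log (x + 4) - Real.log x) / 2 -
      (Real.log (x + 3) - Real.log (x + 1)) := by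
    unfold gam
    rw [bet_add, hx]
    push_cast
    ring
  rw [← hx] at hp3 ⊢
  have h2 : (Real.log (x + 4) - Real.log x) / 2 - (Real.log (x + 3) - Real.log (x + 1)) =
      Real.log (1 + 4 / (x * (x + 3) ^ 2)) / 2 := by
    have h3 : 1 + 4 / (x * (x + 3) ^ 2) = ((x + 4) * (x + 1) ^ 2) / (x * (x + 3) ^ 2) := by
      have : x ≠ 0 := by linarith
      have : x + 3 ≠ 0 := by linarith
      field_simp
      ring
    rw [h3, Real.log_div (by positivity) (by positivity), Real.log_mul (by positivity)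
      (by positivity), Real.log_mul (by positivity) (by positivity), Real.log_pow, Real.log_pow]
    push_cast
    ring
  rw [h1, h2]
  constructor
  · have : 0 ≤ Real.log (1 + 4 / (x * (x + 3) ^ 2)) := Real.log_nonneg (by
      have : 0 ≤ 4 / (x * (x + 3) ^ 2) := by positivity
      linarith)
    linarith
  · have h4 : Real.log (1 + 4 / (x * (x + 3) ^ 2)) ≤ 4 / (x * (x + 3) ^ 2) := by
      have h5 : 0 < 1 + 4 / (x * (x + 3) ^ 2) := by positivity
      have := Real.log_le_sub_one_of_pos h5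
      linarith
    have h5 : 4 / (x * (x + 3) ^ 2) ≤ 4 / x ^ 3 := by
      refine div_le_div_of_nonneg_left (by norm_num) (by positivity) ?_
      nlinarith [mul_pos (show 0 < x by linarith) (show 0 < x by linarith)]
    have h6 : 4 / x ^ 3 ≤ 2 * (1 / (4 * (x - 2) ^ 2) - 1 / (4 * (x + 4 - 2) ^ 2)) := by
      have h7 : 2 * (1 / (4 * (x - 2) ^ 2) - 1 / (4 * (x + 4 - 2) ^ 2)) =
          4 * x / (x ^ 2 - 4) ^ 2 := by
        have h8 : x - 2 ≠ 0 := by linarith
        have h9 : x + 4 - 2 ≠ 0 := by linarith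
        have h10 : x ^ 2 - 4 ≠ 0 := by nlinarith
        have h11 : (x ^ 2 - 4) = (x - 2) * (x + 4 - 2) := by ring
        rw [h11]
        field_simp
        ring
      rw [h7, div_le_div_iff₀ (by positivity) (by
        have : 0 < x ^ 2 - 4 := by nlinarith
        positivity)]
      have h8 : (x ^ 2 - 4) ^ 2 ≤ (x ^ 2) ^ 2 := by
        have : 0 ≤ x ^ 2 - 4 := by nlinarith
        nlinarith
      nlinarith
    linarith

theorem gam_le {p : ℕ} (hp : 3 ≤ p) (n : ℕ) :
    0 ≤ gam p - gam (p + 4 * n) ∧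
      gam p - gam (p + 4 * n) ≤
        1 / (4 * ((p : ℝ) - 2) ^ 2) - 1 / (4 * ((p : ℝ) + 4 * n - 2) ^ 2) := by
  induction n with
  | zero => simp
  | succ n ih =>
    have h1 := gam_add (p := p + 4 * n) (by omega)
    have h2 : p + 4 * (n + 1) = p + 4 * n + 4 := by ring
    rw [h2]
    push_cast at h1 ⊢
    have h3 : (p : ℝ) + 4 * (n + 1) - 2 = p + 4 * n + 4 - 2 := by ring
    rw [h3]
    exact ⟨by linarith [h1.1, ih.1], by linarith [h1.2, ih.2]⟩

theorem near_of_log {σ p : ℝ} (hp : 1 ≤ p) (hσ : 0 < σ)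
    (h : |Real.log σ - Real.log p| ≤ 1 / (8 * p)) : p - 1 / 4 ≤ σ ∧ σ ≤ p + 1 / 4 := by
  have hp0 : 0 < p := by linarith
  have h1 : |Real.log σ - Real.log p| ≤ 1 := by
    refine h.trans ?_
    rw [div_le_one (by positivity)]
    linarith
  have h2 := Real.abs_exp_sub_one_le h1
  rw [Real.exp_sub, Real.exp_log hσ, Real.exp_log hp0] at h2
  have h3 : |σ / p - 1| ≤ 2 * (1 / (8 * p)) := h2.trans (by linarith)
  have h4 : |σ - p| ≤ 1 / 4 := by
    have h5 : σ - p = (σ / p - 1) * p := by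
      field_simp
    rw [h5, abs_mul, abs_of_pos hp0]
    calc |σ / p - 1| * p ≤ 2 * (1 / (8 * p)) * p := mul_le_mul_of_nonneg_right h3 hp0.le
      _ = 1 / 4 := by
        field_simp
        norm_num
  rw [abs_le] at h4
  constructor <;> linarith

/-- There is a reachable slope near `p`, with prescribed logarithm. -/
def RR (δ r p : ℕ) (T : ℝ) : Prop :=
  ∃ σ : ℝ, Reach δ σ ∧ Real.log σ = 2 * (bet p - gam r - T)

/-- The deviations are small between `P` and `r`. -/
def Small (r P : ℕ) : Prop :=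
  ∀ p, P ≤ p → p ≤ r → p % 4 = r % 4 → |gam p - gam r| ≤ 1 / (32 * (r : ℝ))

section

variable {δ r P : ℕ}

theorem RR.bound (hδ : 0 < δ) (hP : 15 ≤ P) (hsm : Small r P) {p : ℕ} (hp : P ≤ p) (hpr : p ≤ r)
    (hmod : p % 4 = r % 4) {T : ℝ} (hT : |T| ≤ 1 / (32 * (r : ℝ))) {σ : ℝ} (hσ : Reach δ σ)
    (hlog : Real.log σ = 2 * (bet p - gam r - T)) :
    (p : ℝ) - 1 / 4 ≤ σ ∧ σ ≤ (p : ℝ) + 1 / 4 := by
  have hp1 : (1 : ℝ) ≤ p := by exact_mod_cast (show 1 ≤ p by omega)
  have hr1 : (p : ℝ) ≤ r := by exact_mod_cast hpr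
  refine near_of_log hp1 (hσ.pos hδ) ?_
  have h1 : Real.log σ - Real.log p = 2 * (gam p - gam r - T) := by
    rw [hlog]
    unfold gam
    ring
  have h2 := hsm p hp hpr hmod
  rw [h1]
  have h3 : 1 / (32 * (r : ℝ)) ≤ 1 / (32 * (p : ℝ)) :=
    div_le_div_of_nonneg_left (by norm_num) (by linarith) (by linarith)
  have h4 : 1 / (8 * (p : ℝ)) = 4 * (1 / (32 * (p : ℝ))) := by
    field_simp
    norm_num
  rw [h4]
  rw [abs_le] at h2 hT ⊢
  constructor <;> linarith [h2.1, h2.2, hT.1, hT.2]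

theorem RR.stepU (hδ : 0 < δ) (hP : 15 ≤ P) (hsm : Small r P) {p : ℕ} (hp : P ≤ p)
    (hpr : p ≤ r) (hmod : p % 4 = r % 4) {T : ℝ} (hT : |T| ≤ 1 / (32 * (r : ℝ)))
    (h : RR δ r p T) : RR δ r (p + 4) T := by
  obtain ⟨σ, hσ, hlog⟩ := h
  obtain ⟨h1, h2⟩ := hσ.pos hδ |> fun _ => RR.bound hδ hP hsm hp hpr hmod hT hσ hlog
  have hσ0 := hσ.pos hδ
  have hp15 : (15 : ℝ) ≤ p := by exact_mod_cast (show 15 ≤ p by omega)
  have h3 := Reach.step σ (p + 1) hσ (by push_cast; linarith)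
  have h4 := Reach.step _ (p + 3) h3 (by
    push_cast
    rw [div_le_iff₀ hσ0]
    nlinarith)
  refine ⟨_, h4, ?_⟩
  push_cast
  rw [Real.log_div (by positivity) (by positivity), Real.log_div (by positivity) (by positivity),
    Real.log_pow, Real.log_pow, hlog, bet_add]
  push_cast
  ring

theorem RR.stepA (hδ : 0 < δ) (hP : 15 ≤ P) (hsm : Small r P) {p : ℕ} (hp : P ≤ p)
    (hpr : p ≤ r) (hmod : p % 4 = r % 4) {T : ℝ} (hT : |T| ≤ 1 / (32 * (r : ℝ)))
    (h : RR δ r p T) : RR δ r (p + 8) (T - Gk 0 ((p : ℝ) + 3)) := by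
  obtain ⟨σ, hσ, hlog⟩ := h
  obtain ⟨h1, h2⟩ := hσ.pos hδ |> fun _ => RR.bound hδ hP hsm hp hpr hmod hT hσ hlog
  have hσ0 := hσ.pos hδ
  have hp15 : (15 : ℝ) ≤ p := by exact_mod_cast (show 15 ≤ p by omega)
  have h3 := Reach.step σ (p + 1) hσ (by push_cast; linarith)
  have h4 := Reach.step _ (p + 5) h3 (by
    push_cast
    rw [div_le_iff₀ hσ0]
    nlinarith)
  refine ⟨_, h4, ?_⟩
  have h5 : bet (p + 8) = bet p + (Real.log (p + 3) - Real.log (p + 1)) +
      (Real.log (p + 7) - Real.log (p + 5)) := by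
    have h6 : bet (p + 8) = bet (p + 4) + (Real.log (((p + 4 : ℕ) : ℝ) + 3) -
        Real.log (((p + 4 : ℕ) : ℝ) + 1)) := bet_add (p + 4)
    rw [bet_add p] at h6
    push_cast at h6
    have e1 : (p : ℝ) + 4 + 3 = p + 7 := by ring
    have e2 : (p : ℝ) + 4 + 1 = p + 5 := by ring
    rw [e1, e2] at h6
    exact h6
  have e3 : (p : ℝ) + 3 + 2 = p + 5 := by ring
  have e4 : (p : ℝ) + 3 + 4 = p + 7 := by ring
  push_cast
  rw [Real.log_div (by positivity) (by positivity), Real.log_div (by positivity) (by positivity),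
    Real.log_pow, Real.log_pow, hlog, h5, Gk_zero, e3, e4]
  push_cast
  ring

theorem RR.stepB (hδ : 0 < δ) (hP : 15 ≤ P) (hsm : Small r P) {p : ℕ} (hp : P ≤ p)
    (hpr : p ≤ r) (hmod : p % 4 = r % 4) {T : ℝ} (hT : |T| ≤ 1 / (32 * (r : ℝ)))
    (h : RR δ r p T) : RR δ r (p + 8) (T + Gk 0 ((p : ℝ) + 1)) := by
  obtain ⟨σ, hσ, hlog⟩ := h
  obtain ⟨h1, h2⟩ := hσ.pos hδ |> fun _ => RR.bound hδ hP hsm hp hpr hmod hT hσ hlog
  have hσ0 := hσ.pos hδ
  have hp15 : (15 : ℝ) ≤ p := by exact_mod_cast (show 15 ≤ p by omega)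
  have h3 := Reach.step σ (p + 3) hσ (by push_cast; linarith)
  have h4 := Reach.step _ (p + 7) h3 (by
    push_cast
    rw [div_le_iff₀ hσ0]
    nlinarith)
  refine ⟨_, h4, ?_⟩
  have h5 : bet (p + 8) = bet p + (Real.log (p + 3) - Real.log (p + 1)) +
      (Real.log (p + 7) - Real.log (p + 5)) := by
    have h6 : bet (p + 8) = bet (p + 4) + (Real.log (((p + 4 : ℕ) : ℝ) + 3) -
        Real.log (((p + 4 : ℕ) : ℝ) + 1)) := bet_add (p + 4)
    rw [bet_add p] at h6
    push_cast at h6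
    have e1 : (p : ℝ) + 4 + 3 = p + 7 := by ring
    have e2 : (p : ℝ) + 4 + 1 = p + 5 := by ring
    rw [e1, e2] at h6
    exact h6
  have e3 : (p : ℝ) + 1 + 2 = p + 3 := by ring
  have e4 : (p : ℝ) + 1 + 4 = p + 5 := by ring
  push_cast
  rw [Real.log_div (by positivity) (by positivity), Real.log_div (by positivity) (by positivity),
    Real.log_pow, Real.log_pow, hlog, h5, Gk_zero, e3, e4]
  push_cast
  ring

theorem RR.steps (hδ : 0 < δ) (hP : 15 ≤ P) (hsm : Small r P) {p : ℕ} (hp : P ≤ p)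
    (hmod : p % 4 = r % 4) {T : ℝ} (hT : |T| ≤ 1 / (32 * (r : ℝ)))
    (h : RR δ r p T) (n : ℕ) (hn : p + 4 * n ≤ r) : RR δ r (p + 4 * n) T := by
  induction n with
  | zero => exact h
  | succ n ih =>
    have h1 := ih (by omega)
    exact RR.stepU hδ hP hsm (p := p + 4 * n) (by omega) (by omega) (by omega) hT h1

theorem RR.to (hδ : 0 < δ) (hP : 15 ≤ P) (hsm : Small r P) {p q : ℕ} (hp : P ≤ p)
    (hmod : p % 4 = r % 4) (hmod' : q % 4 = r % 4) {T : ℝ} (hT : |T| ≤ 1 / (32 * (r : ℝ)))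
    (h : RR δ r p T) (hpq : p ≤ q) (hq : q ≤ r) : RR δ r q T := by
  obtain ⟨n, rfl⟩ : ∃ n, q = p + 4 * n := ⟨(q - p) / 4, by omega⟩
  exact RR.steps hδ hP hsm hp hmod hT h n hq

/-- Gadgets of both signs. -/
theorem RR.gad (hδ : 0 < δ) (hP : 15 ≤ P) (hsm : Small r P) (k : ℕ) :
    (∀ p y q : ℕ, ∀ T : ℝ, P ≤ p → p % 4 = r % 4 → q % 4 = r % 4 → p + 3 ≤ y →
      y % 4 = (r + 3) % 4 → y + shS k + 7 ≤ q → q ≤ r →
      |T| + (k + 1) * Gk 0 P ≤ 1 / (32 * (r : ℝ)) → RR δ r p T → RR δ r q (T - Gk k y)) ∧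
    (∀ p y q : ℕ, ∀ T : ℝ, P ≤ p → p % 4 = r % 4 → q % 4 = r % 4 → p + 1 ≤ y →
      y % 4 = (r + 1) % 4 → y + shS k + 7 ≤ q → q ≤ r →
      |T| + (k + 1) * Gk 0 P ≤ 1 / (32 * (r : ℝ)) → RR δ r p T → RR δ r q (T + Gk k y)) := by
  have hPR : (0 : ℝ) < P := by exact_mod_cast (show 0 < P by omega)
  have hG : ∀ (k y : ℕ), P ≤ y → |Gk k (y : ℝ)| ≤ Gk 0 P := by
    intro k y hy
    have hy0 : (0 : ℝ) < y := by exact_mod_cast (show 0 < y by omega)
    rw [abs_of_pos (Gk_pos k hy0)]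
    refine (Gk_le_zero k hy0).trans ?_
    rcases Nat.eq_or_lt_of_le hy with h | h
    · rw [h]
    · have h1 : (y : ℝ) = P + (y - P : ℝ) := by ring
      rw [h1]
      refine Gk_anti 0 hPR ?_
      have : (P : ℝ) < y := by exact_mod_cast h
      linarith
  have hG0 : 0 < Gk 0 P := Gk_pos 0 hPR
  induction k with
  | zero =>
    have h7 : shS 0 = 4 := rfl
    constructor
    · intro p y q T hp hmp hmq hpy hy hyq hq hT h
      rw [h7] at hyq
      have hT1 : |T| ≤ 1 / (32 * (r : ℝ)) := by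
        push_cast at hT
        linarith
      have h1 := RR.to hδ hP hsm hp hmp (q := y - 3) (by omega) hT1 h (by omega) (by omega)
      have h2 := RR.stepA hδ hP hsm (p := y - 3) (by omega) (by omega) (by omega) hT1 h1
      have h3 : ((y - 3 : ℕ) : ℝ) + 3 = y := by
        rw [Nat.cast_sub (by omega)]
        push_cast
        ring
      rw [h3] at h2
      have hT2 : |T - Gk 0 y| ≤ 1 / (32 * (r : ℝ)) := by
        refine (abs_sub _ _).trans ?_
        have := hG 0 y (by omega)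
        push_cast at hT
        linarith
      exact RR.to hδ hP hsm (p := y - 3 + 8) (by omega) (by omega) hmq hT2 h2 (by omega) hq
    · intro p y q T hp hmp hmq hpy hy hyq hq hT h
      rw [h7] at hyq
      have hT1 : |T| ≤ 1 / (32 * (r : ℝ)) := by
        push_cast at hT
        linarith
      have h1 := RR.to hδ hP hsm hp hmp (q := y - 1) (by omega) hT1 h (by omega) (by omega)
      have h2 := RR.stepB hδ hP hsm (p := y - 1) (by omega) (by omega) (by omega) hT1 h1
      have h3 : ((y - 1 : ℕ) : ℝ) + 1 = y := by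
        rw [Nat.cast_sub (by omega)]
        push_cast
        ring
      rw [h3] at h2
      have hT2 : |T + Gk 0 y| ≤ 1 / (32 * (r : ℝ)) := by
        refine (abs_add_le _ _).trans ?_
        have := hG 0 y (by omega)
        push_cast at hT
        linarith
      exact RR.to hδ hP hsm (p := y - 1 + 8) (by omega) (by omega) hmq hT2 h2 (by omega) hq
  | succ k ih =>
    have hs1 := shS_le k
    have hs2 := shi_mod k
    obtain ⟨s, hs⟩ : ∃ s, s = shi k := ⟨_, rfl⟩
    have hS1 : shS (k + 1) = shS k + shi k := rfl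
    rw [← hs] at hs1 hs2 hS1
    constructor
    · intro p y q T hp hmp hmq hpy hy hyq hq hT h
      rw [hS1] at hyq
      push_cast at hT
      have hT1 : |T| + (k + 1) * Gk 0 P ≤ 1 / (32 * (r : ℝ)) := by
        linarith
      have h1 := ih.1 p y (y + s - 1) T hp hmp (by omega) hpy hy (by omega) (by omega) hT1 h
      have hT2 : |T - Gk k y| + (k + 1) * Gk 0 P ≤ 1 / (32 * (r : ℝ)) := by
        have h2 := (abs_sub T (Gk k y))
        have := hG k y (by omega)
        linarith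
      have h2 := ih.2 (y + s - 1) (y + s) q (T - Gk k y) (by omega) (by omega) hmq (by omega)
        (by omega) (by omega) hq hT2 h1
      rw [Gk_succ, ← hs]
      have h3 : T - (Gk k y - Gk k ((y : ℝ) + (s : ℝ))) = T - Gk k y + Gk k ((y + s : ℕ) : ℝ) := by
        push_cast
        ring
      rw [h3]
      exact h2
    · intro p y q T hp hmp hmq hpy hy hyq hq hT h
      rw [hS1] at hyq
      push_cast at hT
      have hT1 : |T| + (k + 1) * Gk 0 P ≤ 1 / (32 * (r : ℝ)) := by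
        linarith
      have h1 := ih.2 p y (y + s - 3) T hp hmp (by omega) hpy hy (by omega) (by omega) hT1 h
      have hT2 : |T + Gk k y| + (k + 1) * Gk 0 P ≤ 1 / (32 * (r : ℝ)) := by
        have h2 := (abs_add_le T (Gk k y))
        have := hG k y (by omega)
        linarith
      have h2 := ih.1 (y + s - 3) (y + s) q (T + Gk k y) (by omega) (by omega) hmq (by omega)
        (by omega) (by omega) hq hT2 h1
      rw [Gk_succ, ← hs]
      have h3 : T + (Gk k y - Gk k ((y : ℝ) + (s : ℝ))) = T + Gk k y - Gk k ((y + s : ℕ) : ℝ) := by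
        push_cast
        ring
      rw [h3]
      exact h2

end

end Pool.Agent.H932R3
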