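import Mathlib
import Pool.Agent.H15.G.R_seed8.H932R3.CritMain
import Pool.Agent.H15.G.R_seed8.H932R3.Close
import Pool.Agent.H15.G.R_seed8.H932R3.Empty

set_option autoImplicit false

/-!
# All multiplicities, outside a thin wedge
-/

namespace Pool.Agent.H932R3

open Polynomial Pool.Agent.H932R2

theorem RkI_le {K : Type*} [Field K] {J : Ideal K[X][X]} {M : Set (ℕ × ℕ)} {n n' : ℕ}
    (h : n' ≤ n) (hR : RkI J M n) : RkI J M n' := by
  obtain ⟨v, hv, hli⟩ := hR
  refine ⟨fun i => v (Fin.castLE h i), fun i => hv _, fun c hc i => ?_⟩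
  let c' : Fin n → K := fun j => if hj : (j : ℕ) < n' then c ⟨j, hj⟩ else 0
  have h1 : ∑ j, c' j • v j = ∑ i, c i • v (Fin.castLE h i) := by
    symm
    refine Finset.sum_of_injOn (Fin.castLE h) (fun a _ b _ hab => Fin.castLE_injective h hab)
      (fun _ _ => Finset.mem_coe.2 (Finset.mem_univ _)) ?_ ?_
    · intro j _ hj
      have : ¬ (j : ℕ) < n' := by
        intro hj'
        exact hj ⟨⟨j, hj'⟩, Finset.mem_coe.2 (Finset.mem_univ _), by ext; rfl⟩
      simp only [c', dif_neg this, zero_smul]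
    · intro a _
      have h2 : ((Fin.castLE h a : Fin n) : ℕ) < n' := a.2
      simp only [c', dif_pos h2]
      rfl
  have h2 := hli c' (by rw [h1]; exact hc) (Fin.castLE h i)
  have h3 : ((Fin.castLE h i : Fin n) : ℕ) < n' := i.2
  simp only [c', dif_pos h3] at h2
  exact h2

theorem RkS.le {K : Type*} [Field K] {𝓘 : Set (Ideal K[X][X])} {M : Set (ℕ × ℕ)} {n n' : ℕ}
    (h : n' ≤ n) (hR : RkS 𝓘 M n) : RkS 𝓘 M n' := by
  obtain ⟨J, hJ, hR⟩ := hR
  exact ⟨J, hJ, RkI_le h hR⟩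

variable {K : Type*} [Field K] [Infinite K]

/-- Emptiness for all multiplicities, after scaling. -/
theorem wedge_upper {n : ℕ} {𝒞 : Set (Fin n → K)} {x : Fin n → K} (hx : x ∈ 𝒞)
    (h𝒞 : AffInv 𝒞) {w : Fin n → ℕ} {δ d : ℕ} {σ : ℝ} (hδ : 4 ≤ δ) (hδn : δ * δ ≤ n)
    (hσ : Reach δ σ) (h1 : (n : ℝ) - 1 ≤ σ) (h2 : σ ≤ n) (hd : 0 < d)
    (h : d * Real.sqrt σ ≤ ∑ a, (w a : ℝ) - (n - σ) * ((∑ a, (w a : ℝ)) / n))
    (hK : ∀ k : ℕ, 0 < k → k ≤ n ^ 2 * d → (k : K) ≠ 0) :
    ∃ k, 0 < k ∧ RkS (wFam 𝒞 fun a => k * w a) (Tset (k * d)) (Tfin (k * d)).card := by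
  obtain ⟨k, hk⟩ : ∃ k, k = δ * ((δ - 1) * (δ - 2)) := ⟨_, rfl⟩
  have hk0 : 0 < k := by
    rw [hk]
    exact Nat.mul_pos (by omega) (Nat.mul_pos (by omega) (by omega))
  refine ⟨k, hk0, ?_⟩
  have hn : 0 < n := lt_of_lt_of_le (Nat.mul_pos (by omega) (by omega)) hδn
  have hnR : (0 : ℝ) < n := by exact_mod_cast hn
  have hσ0 : 0 < σ := hσ.pos (by omega)
  have hτ0 : 0 < Real.sqrt σ := Real.sqrt_pos.2 hσ0
  obtain ⟨a₀, _, ha₀⟩ := Finset.exists_min_image (Finset.univ : Finset (Fin n)) w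
    ⟨⟨0, hn⟩, Finset.mem_univ _⟩
  have hkR : (0 : ℝ) < k := by exact_mod_cast hk0
  have hδR : (4 : ℝ) ≤ δ := by exact_mod_cast hδ
  obtain ⟨S, hS⟩ : ∃ S, S = ∑ a, (w a : ℝ) := ⟨_, rfl⟩
  rw [← hS] at h
  have hkS : ∑ a, ((k * w a : ℕ) : ℝ) = k * S := by
    rw [hS, Finset.mul_sum]
    exact Finset.sum_congr rfl fun a _ => by push_cast; rfl
  have hmin : n * (w a₀ : ℝ) ≤ S := by
    rw [hS]
    calc n * (w a₀ : ℝ) = ∑ _a : Fin n, (w a₀ : ℝ) := by
          rw [Finset.sum_const, Finset.card_univ, Fintype.card_fin, nsmul_eq_mul]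
      _ ≤ ∑ a, (w a : ℝ) :=
          Finset.sum_le_sum fun a _ => by exact_mod_cast ha₀ a (Finset.mem_univ _)
  have hS0 : 0 ≤ S := by
    rw [hS]
    exact Finset.sum_nonneg fun _ _ => Nat.cast_nonneg _
  have hXlt : (2 * ((k * d : ℕ) : ℝ) + 3 - δ) / 2 * Real.sqrt σ < k * (d * Real.sqrt σ) := by
    push_cast
    nlinarith
  have hk1 := mul_le_mul_of_nonneg_left h hkR.le
  refine upper_rank (wFam_stable h𝒞 _) (W := Ww fun a => k * w a) (B := δ * (k * d)) (by omega)
    (base_Ww hx _) ?_ le_rfl ?_ hσ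
    (Ww_upper (a₀ := a₀) (m := k * w a₀)
      (fun a => Nat.mul_le_mul_left _ (ha₀ a (Finset.mem_univ _))) rfl h1 ?_ ?_)
  · rw [← hk]
    exact (Nat.le_mul_of_pos_right k hd).trans (Nat.le_mul_of_pos_left _ (by norm_num))
  · intro j hj hj'
    refine hK j hj (hj'.trans ?_)
    have e1 : δ * (k * d) = (δ * δ) * ((δ - 1) * (δ - 2)) * d := by
      rw [hk]
      ring
    rw [e1]
    refine Nat.mul_le_mul_right d ?_
    rw [pow_two]
    exact Nat.mul_le_mul hδn ((Nat.mul_le_mul (Nat.sub_le _ _) (Nat.sub_le _ _)).trans hδn)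
  · rw [hkS]
    have : 0 ≤ k * ((n - σ) * (S / n)) := by
      have : 0 ≤ n - σ := by linarith
      positivity
    nlinarith
  · rw [hkS]
    push_cast
    have h5 : (w a₀ : ℝ) ≤ S / n := by
      rw [le_div_iff₀ hnR]
      linarith
    have h6 : (n - σ) * (w a₀ : ℝ) ≤ (n - σ) * (S / n) :=
      mul_le_mul_of_nonneg_left h5 (by linarith)
    have h7 : k * ((n - σ) * (w a₀ : ℝ)) ≤ k * ((n - σ) * (S / n)) :=
      mul_le_mul_of_nonneg_left h6 hkR.le
    nlinarith

/-- Independence for equal multiplicities. -/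
theorem wedge_lower {n M : ℕ} (hn : 16 ≤ n) {𝒞 : Set (Fin n → K)} {x : Fin n → K} (hx : x ∈ 𝒞)
    (h𝒞 : AffInv 𝒞) {δ d : ℕ} {σ : ℝ} (hδ : 4 ≤ δ) (hδn : δ * δ ≤ n)
    (hσ : Reach δ σ) (h2 : σ ≤ n)
    (h : (n : ℝ) * M ≤ (d - Real.sqrt n) * Real.sqrt σ)
    (hd : Real.sqrt n * (M + 1) ≤ d)
    (hK : ∀ k : ℕ, 0 < k → k ≤ n * (d + 1) → (k : K) ≠ 0) :
    RkS (wFam 𝒞 fun _ => M) (Tset d) (∑ _a : Fin n, (M + 1).choose 2) := by
  have hnR : (16 : ℝ) ≤ n := by exact_mod_cast hn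
  have hσ0 : 0 < σ := hσ.pos (by omega)
  have hτ0 : 0 < Real.sqrt σ := Real.sqrt_pos.2 hσ0
  obtain ⟨s, hs⟩ : ∃ s, s = Real.sqrt n := ⟨_, rfl⟩
  have hss : s * s = n := by rw [hs]; exact Real.mul_self_sqrt (by linarith)
  have hs4 : 4 ≤ s := by rw [hs]; exact Real.le_sqrt_of_sq_le (by norm_num; linarith)
  have hτs : Real.sqrt σ ≤ s := by rw [hs]; exact Real.sqrt_le_sqrt h2
  have hM0 : (0 : ℝ) ≤ M := Nat.cast_nonneg M
  have hδR : (4 : ℝ) ≤ δ := by exact_mod_cast hδ
  have hδs : (δ : ℝ) ≤ s := by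
    rw [hs]
    apply Real.le_sqrt_of_sq_le
    have : ((δ * δ : ℕ) : ℝ) ≤ n := by exact_mod_cast hδn
    push_cast at this
    nlinarith
  rw [← hs] at h hd
  rcases Nat.eq_zero_or_pos M with rfl | hM
  · refine ⟨_, ⟨x, hx, 0, rfl⟩, ?_⟩
    have h0 : ∑ _a : Fin n, (0 + 1).choose 2 = 0 := by simp
    rw [h0]
    exact ⟨fun i => i.elim0, fun i => i.elim0, fun _ _ i => i.elim0⟩
  by_cases hlin : ((M : ℕ) : ℝ) ≤ n - 6 * Real.sqrt n + 11
  · have hcnt : 2 * ∑ _a : Fin n, (M + 1).choose 2 = n * M * (M + 1) := by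
      rw [two_mul_sum (fun _ => M), Finset.sum_const, Finset.card_univ, Fintype.card_fin,
        smul_eq_mul, mul_assoc]
    obtain ⟨e, h5, h6⟩ := near_rank (m := M) (w := fun _ => M) (by omega) hM hx h𝒞
      (fun _ => Or.inl rfl) (by
        obtain ⟨δ', κ, h8, h9, h10⟩ := cond_of_le (r := n) (m := M) (by omega) hlin
        refine ⟨δ', κ, h8, h9, ?_⟩
        rcases h10 with h10 | h10
        · exact Or.inl h10
        · right
          rw [hcnt]
          exact h10) (fun k hk hk' => hK k hk (hk'.trans (Nat.mul_le_mul_left _ (by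
            have h7 : ((M : ℝ) + 1) ≤ d := by nlinarith
            have h8 : ((M + 1 : ℕ) : ℝ) ≤ d := by push_cast; exact h7
            have h9 : M + 1 ≤ d := by exact_mod_cast h8
            omega))))
    rcases Nat.lt_or_ge e d with h7 | h7
    · exact h6.mono (Tset_mono h7)
    · have h9 : RkS (wFam 𝒞 fun _ => M) (Tset d) (Tfin d).card := by
        have h10 : (↑(Tfin e) : Set (ℕ × ℕ)) = Tset e := coe_Tfin e
        rw [← h10] at h5
        have h11 : Tfin d ⊆ Tfin e := by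
          have := Tset_mono h7
          rw [← coe_Tfin, ← coe_Tfin] at this
          exact_mod_cast this
        have := h5.subset h11
        rwa [coe_Tfin] at this
      refine h9.le ?_
      have h12 := card_Tfin d
      have h13 : n * M * (M + 1) ≤ (d + 1) * (d + 2) := by
        have h14 : (n : ℝ) * M * (M + 1) ≤ (d + 1) * (d + 2) := by
          have h15 : s * (M + 1) * (s * (M + 1)) ≤ d * d :=
            mul_le_mul hd hd (by positivity) (by positivity)
          have h16 : (0 : ℝ) ≤ d := Nat.cast_nonneg d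
          have h17 : s * (M + 1) * (s * (M + 1)) = n * (M + 1) * (M + 1) := by
            rw [← hss]
            ring
          have h18 : (n : ℝ) * M * (M + 1) ≤ n * (M + 1) * (M + 1) := by
            have : (n : ℝ) * M ≤ n * (M + 1) := by linarith
            exact mul_le_mul_of_nonneg_right this (by linarith)
          have h19 : ((d : ℝ) + 1) * (d + 2) = d * d + 3 * d + 2 := by ring
          linarith
        exact_mod_cast h14
      omega
  · have hlin' := not_le.1 hlin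
    rw [← hs] at hlin'
    have hδ3 : δ * ((δ - 1) * (δ - 2)) ≤ 2 * d := by
      have h5 : ((δ * ((δ - 1) * (δ - 2)) : ℕ) : ℝ) ≤ ((2 * d : ℕ) : ℝ) := by
        rw [Nat.cast_mul, Nat.cast_mul, Nat.cast_sub (by omega), Nat.cast_sub (by omega)]
        push_cast
        have h5 : (δ : ℝ) * ((δ - 1) * (δ - 2)) ≤ s * ((s - 1) * (s - 2)) := by
          apply mul_le_mul hδs _ _ (by linarith)
          · apply mul_le_mul (by linarith) (by linarith) (by linarith) (by linarith)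
          · apply mul_nonneg <;> linarith
        have h6 : s * (s * s - 6 * s + 12) ≤ s * (M + 1) :=
          mul_le_mul_of_nonneg_left (by linarith) (by linarith)
        have h7 : 0 ≤ s * (s * s - 9 * s + 22) := by
          apply mul_nonneg (by linarith)
          nlinarith [sq_nonneg (s - 9 / 2)]
        nlinarith
      exact_mod_cast h5
    have hBd : δ * d ≤ n * (d + 1) := by
      have h5 : δ ≤ n := (Nat.le_mul_self δ).trans hδn
      exact Nat.mul_le_mul h5 (by omega)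
    have h2δ : 2 / (δ : ℝ) ≤ 1 := by
      rw [div_le_one (by linarith)]
      linarith
    have hY : (n : ℝ) * M ≤ (2 * (d : ℝ) + 3 + δ - 2 * Real.sqrt σ - 2 / δ) * Real.sqrt σ / 2 := by
      refine h.trans ?_
      have : (d - s) * Real.sqrt σ ≤
          ((2 * (d : ℝ) + 3 + δ - 2 * Real.sqrt σ - 2 / δ) / 2) * Real.sqrt σ :=
        mul_le_mul_of_nonneg_right (by linarith) hτ0.le
      linarith
    have hsum : ∑ _a : Fin n, ((M : ℕ) : ℝ) = n * M := by
      rw [Finset.sum_const, Finset.card_univ, Fintype.card_fin, nsmul_eq_mul]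
    have hcard := card_Ww (fun _ : Fin n => M)
    rw [← hcard]
    refine lower_rank (wFam_stable h𝒞 _) (W := Ww fun _ => M) (by omega) (base_Ww hx _) hδ3 hBd
      hK hσ (Ww_lower (m := M) (fun _ => Or.inl rfl) ?_ ?_)
    · rw [hsum]
      linarith
    · rw [hsum]
      have : (σ - n) * M ≤ 0 := mul_nonpos_of_nonpos_of_nonneg (by linarith) hM0
      linarith

end Pool.Agent.H932R3
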