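import Mathlib
import Pool.Agent.H15.G.R_seed8.H932R3.Wedge

set_option autoImplicit false

/-!
# All multiplicities, outside a thin wedge: dimensions
-/

namespace Pool.Agent.H932R3

open Polynomial Pool.Agent.H932R2

/-- The numerical input. -/
structure WedgeData (k n δ : ℕ) (σ : ℝ) : Prop where
  four : 4 ≤ δ
  sq : δ * δ ≤ n
  reach : Reach δ σ
  low : (n : ℝ) - 1 ≤ σ
  high : σ ≤ n
  up : ∀ S d : ℝ, 0 ≤ S → 0 ≤ d → Real.sqrt n * d ≤ (1 - 1 / (n : ℝ) ^ k) * S →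
    d * Real.sqrt σ ≤ S - (n - σ) * (S / n)
  down : ∀ M d : ℝ, 0 ≤ M → (1 + 1 / (n : ℝ) ^ k) * (Real.sqrt n * M) + Real.sqrt n ≤ d →
    n * M ≤ (d - Real.sqrt n) * Real.sqrt σ

theorem exists_wedge (k : ℕ) : ∃ N : ℕ, 16 ≤ N ∧ ∀ n : ℕ, N ≤ n → ∃ δ σ, WedgeData k n δ σ := by
  obtain ⟨N, hN⟩ := exists_close k
  refine ⟨max N 16, le_max_right _ _, fun n hn => ?_⟩
  obtain ⟨δ, σ, h1, h2, h3, h4, h5⟩ := hN n ((le_max_left _ _).trans hn)
  have hn16 : 16 ≤ n := (le_max_right _ _).trans hn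
  have hnR : (16 : ℝ) ≤ n := by exact_mod_cast hn16
  have hn0 : (0 : ℝ) < n := by linarith
  have hnk : 1 ≤ (n : ℝ) ^ k := one_le_pow₀ (by linarith)
  obtain ⟨ε, hε⟩ : ∃ ε : ℝ, ε = 1 / (n : ℝ) ^ k := ⟨_, rfl⟩
  have hε0 : 0 < ε := by rw [hε]; positivity
  have hε1 : ε ≤ 1 := by
    rw [hε, div_le_one (by positivity)]
    exact hnk
  rw [← hε] at h5
  have hσ0 : 0 < σ := h3.pos (by omega)
  have hτ0 : 0 < Real.sqrt σ := Real.sqrt_pos.2 hσ0
  have hss : Real.sqrt n * Real.sqrt n = n := Real.mul_self_sqrt hn0.le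
  have hττ : Real.sqrt σ * Real.sqrt σ = σ := Real.mul_self_sqrt hσ0.le
  have hτs : Real.sqrt σ ≤ Real.sqrt n := Real.sqrt_le_sqrt (by linarith)
  refine ⟨δ, σ, h1, h2, h3, by linarith, by linarith, ?_, ?_⟩
  · intro S d hS hd h
    rw [← hε] at h
    have h6 : d * Real.sqrt σ ≤ d * Real.sqrt n := mul_le_mul_of_nonneg_left hτs hd
    have h7 : (n - σ) * (S / n) ≤ ε * S := by
      have h8 : S / n ≤ S := div_le_self hS (by linarith)
      exact mul_le_mul h5 h8 (by positivity) hε0.le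
    linarith
  · intro M d hM h
    rw [← hε] at h
    have h6 : (1 + ε) * (Real.sqrt n * M) * Real.sqrt σ ≤ (d - Real.sqrt n) * Real.sqrt σ :=
      mul_le_mul_of_nonneg_right (by linarith) hτ0.le
    refine le_trans ?_ h6
    have h7 : σ ≤ Real.sqrt n * Real.sqrt σ := by
      rw [← hττ]
      rw [hττ]
      calc σ = Real.sqrt σ * Real.sqrt σ := hττ.symm
        _ ≤ Real.sqrt n * Real.sqrt σ := mul_le_mul_of_nonneg_right hτs hτ0.le
    have h8 : (n : ℝ) ≤ (1 + ε) * σ := by nlinarith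
    have h9 : (1 + ε) * σ ≤ (1 + ε) * (Real.sqrt n * Real.sqrt σ) :=
      mul_le_mul_of_nonneg_left h7 (by linarith)
    calc n * M ≤ (1 + ε) * (Real.sqrt n * Real.sqrt σ) * M :=
          mul_le_mul_of_nonneg_right (h8.trans h9) hM
      _ = (1 + ε) * (Real.sqrt n * M) * Real.sqrt σ := by ring

/-- From ranks over `ℚ` to general points over an extension. -/
theorem hop {L : Type*} [Field L] [CharZero L] {n : ℕ} {w : Fin n → ℕ} {T : Set (ℕ × ℕ)} {N : ℕ}
    (h : RkS (wFam {x : Fin n → ℚ | Function.Injective x} w) T N) :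
    ∃ F : MvPolynomial (Fin n × Fin 2) ℚ, F ≠ 0 ∧ ∀ P : Fin n × Fin 2 → L,
      MvPolynomial.aeval P F ≠ 0 →
      RkI (vIdeal 1 w (fun a => P (a, 0)) (fun a => C (P (a, 1)))) T N := by
  classical
  let c : Fin n → MvPolynomial (Fin n × Fin 2) ℚ := fun a => MvPolynomial.X (a, 0)
  let γ : Fin n → (MvPolynomial (Fin n × Fin 2) ℚ)[X] := fun a => C (MvPolynomial.X (a, 1))
  obtain ⟨_, ⟨x, hx, g, rfl⟩, hR⟩ := h
  have h3 := hR.anti (iInf_le_wIdeal hx g w)
  let P0 : Fin n × Fin 2 → ℚ := fun ij => if ij.2 = 0 then x ij.1 else g.eval (x ij.1)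
  obtain ⟨F, hF, hF'⟩ := exists_openV_ext (L := L) 1 w c γ T N P0 (by
    simpa [P0, c, γ, vIdeal] using h3)
  refine ⟨F, hF, fun P hP => ?_⟩
  have h4 := hF' P hP
  have e1 : (fun a => MvPolynomial.aeval P (c a)) = fun a => P (a, 0) := by
    funext a
    exact MvPolynomial.aeval_X _ _
  have e2 : (fun a => (γ a).map
      ((MvPolynomial.aeval P : MvPolynomial (Fin n × Fin 2) ℚ →ₐ[ℚ] L) :
        MvPolynomial (Fin n × Fin 2) ℚ →+* L)) = fun a => C (P (a, 1)) := by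
    funext a
    show (C (MvPolynomial.X (a, 1))).map _ = _
    rw [Polynomial.map_C]
    congr 1
    exact MvPolynomial.aeval_X _ _
  rw [e1, e2] at h4
  exact h4

theorem finrank_full {K : Type*} [Field K] {ι : Type*} [Fintype ι] {r : ℕ} {w : ι → ℕ}
    {c : ι → K} {γ : ι → K[X]} {e : ℕ}
    (h2 : RkI (vIdeal r w c γ) (Tset e) (Tfin e).card) (d : ℕ) (hd : d ≤ e) :
    Module.finrank K ↥(mspan K (Tset d) ⊓ Submodule.restrictScalars K (vIdeal r w c γ)) =
      (d + 2).choose 2 - ∑ a, (EE r (w a)).card := by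
  have hN : (Tfin d).card = (d + 2).choose 2 := by
    have h4 := card_Tfin d
    have h5 : (d + 2).choose 2 * 2 = (d + 2) * (d + 1) := by
      rw [Nat.choose_two_right, Nat.div_mul_cancel (Nat.even_mul_pred_self _).two_dvd]
      rfl
    linarith
  rw [← coe_Tfin, ← hN]
  refine finrank_infV (n := (Tfin d).card) ?_ (Or.inl rfl)
  rw [← coe_Tfin] at h2
  refine h2.subset ?_
  have := Tset_mono hd
  rw [← coe_Tfin, ← coe_Tfin] at this
  exact_mod_cast this

theorem finrank_indep {K : Type*} [Field K] {ι : Type*} [Fintype ι] {r : ℕ} {w : ι → ℕ}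
    {c : ι → K} {γ : ι → K[X]} {f : ℕ}
    (h3 : RkI (vIdeal r w c γ) (Tset f) (∑ a, (EE r (w a)).card)) (d : ℕ) (hd : f ≤ d) :
    Module.finrank K ↥(mspan K (Tset d) ⊓ Submodule.restrictScalars K (vIdeal r w c γ)) =
      (d + 2).choose 2 - ∑ a, (EE r (w a)).card := by
  have hN : (Tfin d).card = (d + 2).choose 2 := by
    have h4 := card_Tfin d
    have h5 : (d + 2).choose 2 * 2 = (d + 2) * (d + 1) := by
      rw [Nat.choose_two_right, Nat.div_mul_cancel (Nat.even_mul_pred_self _).two_dvd]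
      rfl
    linarith
  rw [← coe_Tfin, ← hN]
  refine finrank_infV (n := ∑ a, (EE r (w a)).card) ?_ (Or.inr rfl)
  rw [coe_Tfin]
  exact h3.mono (Tset_mono hd)

theorem wedge_points {L : Type*} [Field L] [CharZero L] {k n δ : ℕ} {σ : ℝ} (hn : 16 ≤ n)
    (hD : WedgeData k n δ σ) (w : Fin n → ℕ) :
    ∃ F : MvPolynomial (Fin n × Fin 2) ℚ, F ≠ 0 ∧
      ∀ P : Fin n → Fin 2 → L,
        MvPolynomial.aeval (fun ij : Fin n × Fin 2 => P ij.1 ij.2) F ≠ 0 →
        ∀ d : ℕ, 0 < d →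
          (Real.sqrt n * d ≤ (1 - 1 / (n : ℝ) ^ k) * ∑ a, (w a : ℝ) ∨
            ∀ a, (1 + 1 / (n : ℝ) ^ k) * (Real.sqrt n * w a) + Real.sqrt n ≤ d) →
          Module.finrank L
            ↥(MvPolynomial.homogeneousSubmodule (Fin 3) L d ⊓
              Submodule.restrictScalars L
                (⨅ i : Fin n,
                  (Ideal.span
                    ({MvPolynomial.X 0 - MvPolynomial.C (P i 0) * MvPolynomial.X 2,
                      MvPolynomial.X 1 - MvPolynomial.C (P i 1) * MvPolynomial.X 2} :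
                      Set (MvPolynomial (Fin 3) L))) ^ (w i)))
          = Nat.choose (d + 2) 2 - ∑ i, Nat.choose (w i + 1) 2 := by
  classical
  have hx0 : (fun i : Fin n => Infinite.natEmbedding ℚ i) ∈
      {x : Fin n → ℚ | Function.Injective x} := by
    intro a b hab
    exact Fin.ext ((Infinite.natEmbedding ℚ).injective hab)
  have hnR : (16 : ℝ) ≤ n := by exact_mod_cast hn
  have hs0 : 0 < Real.sqrt n := Real.sqrt_pos.2 (by linarith)
  have hQ : ∀ (B k : ℕ), 0 < k → k ≤ B → (k : ℚ) ≠ 0 := fun _ k hk _ => by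
    exact_mod_cast hk.ne'
  have hε0 : 0 ≤ 1 / (n : ℝ) ^ k := by positivity
  -- the first part
  obtain ⟨S, hS⟩ : ∃ S, S = ∑ a, (w a : ℝ) := ⟨_, rfl⟩
  have hS0 : 0 ≤ S := by
    rw [hS]
    exact Finset.sum_nonneg fun _ _ => Nat.cast_nonneg _
  have part1 : ∃ F : MvPolynomial (Fin n × Fin 2) ℚ, F ≠ 0 ∧ ∀ P : Fin n × Fin 2 → L,
      MvPolynomial.aeval P F ≠ 0 → ∀ d : ℕ, 0 < d →
        Real.sqrt n * d ≤ (1 - 1 / (n : ℝ) ^ k) * S →
        Module.finrank L ↥(mspan L (Tset d) ⊓ Submodule.restrictScalars L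
          (vIdeal 1 w (fun a => P (a, 0)) (fun a => C (P (a, 1))))) =
          (d + 2).choose 2 - ∑ a, (EE 1 (w a)).card := by
    obtain ⟨e, he⟩ : ∃ e, e = ⌊(1 - 1 / (n : ℝ) ^ k) * S / Real.sqrt n⌋₊ := ⟨_, rfl⟩
    have hde : ∀ d : ℕ, 0 < d → Real.sqrt n * d ≤ (1 - 1 / (n : ℝ) ^ k) * S → d ≤ e := by
      intro d hd h
      rw [he]
      refine Nat.le_floor ?_
      rw [le_div_iff₀ hs0]
      linarith
    rcases Nat.eq_zero_or_pos e with h0 | h0
    · refine ⟨1, one_ne_zero, fun P _ d hd h => ?_⟩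
      have := hde d hd h
      omega
    · have h1 : (e : ℝ) ≤ (1 - 1 / (n : ℝ) ^ k) * S / Real.sqrt n := by
        rw [he]
        refine Nat.floor_le ?_
        by_contra h
        rw [he, Nat.floor_of_nonpos (not_le.1 h).le] at h0
        exact lt_irrefl _ h0
      rw [le_div_iff₀ hs0] at h1
      have h2 := hD.up S e hS0 (Nat.cast_nonneg _) (by linarith)
      rw [hS] at h2
      obtain ⟨k', hk', h3⟩ := wedge_upper (K := ℚ) hx0 (affInv_inj n) hD.four hD.sq hD.reach hD.low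
        hD.high h0 h2 (hQ _)
      obtain ⟨F, hF, hF'⟩ := hop (L := L) h3
      refine ⟨F, hF, fun P hP d hd h => ?_⟩
      have h4 := NoForm.of_rk (hF' P hP)
      have h5 : NoForm (vIdeal 1 w (fun a => P (a, 0)) (fun a => C (P (a, 1)))) e := by
        refine NoForm.of_pow (k := k') (fun f hf => ?_) h4
        unfold vIdeal at hf ⊢
        rw [Ideal.mem_iInf] at hf ⊢
        intro i
        have h6 := hf i
        unfold cIdeal at h6 ⊢
        exact ideal_pow_mem h6 k'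
      exact finrank_full h5.rk d (hde d hd h)
  -- the second part
  have part2 : ∃ F : MvPolynomial (Fin n × Fin 2) ℚ, F ≠ 0 ∧ ∀ P : Fin n × Fin 2 → L,
      MvPolynomial.aeval P F ≠ 0 → ∀ d : ℕ,
        (∀ a, (1 + 1 / (n : ℝ) ^ k) * (Real.sqrt n * w a) + Real.sqrt n ≤ d) →
        Module.finrank L ↥(mspan L (Tset d) ⊓ Submodule.restrictScalars L
          (vIdeal 1 w (fun a => P (a, 0)) (fun a => C (P (a, 1))))) =
          (d + 2).choose 2 - ∑ a, (EE 1 (w a)).card := by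
    obtain ⟨a₁, _, ha₁⟩ := Finset.exists_max_image (Finset.univ : Finset (Fin n)) w
      ⟨⟨0, by omega⟩, Finset.mem_univ _⟩
    obtain ⟨f, hf⟩ : ∃ f, f = ⌈(1 + 1 / (n : ℝ) ^ k) * (Real.sqrt n * w a₁) + Real.sqrt n⌉₊ :=
      ⟨_, rfl⟩
    have hf1 : (1 + 1 / (n : ℝ) ^ k) * (Real.sqrt n * w a₁) + Real.sqrt n ≤ f := by
      rw [hf]
      exact Nat.le_ceil _
    have hwa : (0 : ℝ) ≤ w a₁ := Nat.cast_nonneg _
    have h3 := wedge_lower (K := ℚ) (M := w a₁) hn hx0 (affInv_inj n) hD.four hD.sq hD.reach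
      hD.high (hD.down _ _ hwa hf1) (by
        have : 0 ≤ 1 / (n : ℝ) ^ k * (Real.sqrt n * w a₁) := by positivity
        nlinarith) (hQ _)
    obtain ⟨F, hF, hF'⟩ := hop (L := L) h3
    refine ⟨F, hF, fun P hP d h => ?_⟩
    have h4 := hF' P hP
    rw [← coe_Tfin] at h4
    have h5 : RkI (vIdeal 1 w (fun a => P (a, 0)) (fun a => C (P (a, 1)))) (↑(Tfin f) : Set (ℕ × ℕ))
        (∑ a, (EE 1 (w a)).card) := by
      refine RkI.smaller (w' := fun _ => w a₁) (fun a => ha₁ a (Finset.mem_univ _)) ?_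
      have h6 : ∑ _a : Fin n, (EE 1 (w a₁)).card = ∑ _a : Fin n, (w a₁ + 1).choose 2 :=
        Finset.sum_congr rfl fun i _ => card_EE_eq (w a₁)
      rw [h6]
      exact h4
    rw [coe_Tfin] at h5
    refine finrank_indep h5 d ?_
    rw [hf, Nat.ceil_le]
    exact h a₁
  obtain ⟨F1, hF1, hF1'⟩ := part1
  obtain ⟨F2, hF2, hF2'⟩ := part2
  refine ⟨F1 * F2, mul_ne_zero hF1 hF2, fun P hP d hd h => ?_⟩
  rw [map_mul] at hP
  have h3 := hF1' _ (left_ne_zero_of_mul hP)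
  have h4 := hF2' _ (right_ne_zero_of_mul hP)
  rw [← hS] at h
  have hsum : ∑ a, (EE 1 (w a)).card = ∑ i, (w i + 1).choose 2 :=
    Finset.sum_congr rfl fun i _ => card_EE_eq (w i)
  have h5 : Module.finrank L ↥(mspan L (Tset d) ⊓ Submodule.restrictScalars L
      (vIdeal 1 w (fun a => P a 0) (fun a => C (P a 1)))) =
      (d + 2).choose 2 - ∑ a, (EE 1 (w a)).card := by
    rcases h with h | h
    · exact h3 d hd h
    · exact h4 d h
  rw [hsum] at h5
  rw [← h5]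
  refine finrank_forms _ _ fun F hF => ?_
  rw [Submodule.restrictScalars_mem, Submodule.restrictScalars_mem]
  unfold vIdeal
  rw [Ideal.mem_iInf, Ideal.mem_iInf]
  exact forall_congr' fun i => mem_ptIdeal_iff hF

end Pool.Agent.H932R3
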