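import Mathlib
import Pool.Agent.H15.G.R_seed8.H932R3.Nagata

set_option autoImplicit false

/-!
# Subsets of the points, and the cone of curves
-/

namespace Pool.Agent.H932R3

open Polynomial Pool.Agent.H932R2

variable {K : Type*} [Field K]

theorem exists_conds_sub [CharZero K] [Infinite K] (n : ℕ) :
    ∃ f : ℕ → MvPolynomial (Fin n × Fin 2) K, (∀ j, f j ≠ 0) ∧ ∀ P : Fin n → Fin 2 → K,
      (∀ j, MvPolynomial.eval (fun q : Fin n × Fin 2 => P q.1 q.2) (f j) ≠ 0) →
      ∀ (T : Finset (Fin n)) (d : ℕ) (w : Fin n → ℕ), 0 < d → 0 < T.card →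
        Empt T.card (∑ i ∈ T, w i) (T.card * d) → NoForm (ptJ P w) d := by
  classical
  obtain ⟨e, he⟩ := exists_surjective_nat (Finset (Fin n) × ℕ × (Fin n → ℕ))
  have h1 : ∀ j : ℕ, ∃ f : MvPolynomial (Fin n × Fin 2) K, f ≠ 0 ∧
      ∀ P : Fin n → Fin 2 → K,
      MvPolynomial.eval (fun q : Fin n × Fin 2 => P q.1 q.2) f ≠ 0 →
      0 < (e j).2.1 → 0 < (e j).1.card →
      Empt (e j).1.card (∑ i ∈ (e j).1, (e j).2.2 i) ((e j).1.card * (e j).2.1) →
      NoForm (ptJ P (e j).2.2) (e j).2.1 := by
    intro j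
    obtain ⟨T, d, w⟩ := e j
    simp only
    by_cases h : 0 < d ∧ 0 < T.card ∧ Empt T.card (∑ i ∈ T, w i) (T.card * d)
    · obtain ⟨hd, hT, hE⟩ := h
      have : NeZero T.card := ⟨hT.ne'⟩
      let g : Fin T.card → Fin n := fun i => (T.equivFin.symm i : Fin n)
      have hg : Function.Injective g := fun a b hab =>
        T.equivFin.symm.injective (Subtype.ext hab)
      have hsum : ∑ i, (w ∘ g) i = ∑ i ∈ T, w i := by
        rw [← Finset.sum_coe_sort T w]
        exact Equiv.sum_comp T.equivFin.symm (fun i : T => w (i : Fin n))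
      obtain ⟨F0, hF0, hF0'⟩ := points_empty (K := K) (n := T.card) (m := ∑ i, (w ∘ g) i)
        (d := T.card * d) (fun q hq _ => by exact_mod_cast hq.ne') (Nat.mul_pos hT hd)
        (by rw [hsum]; exact hE)
      obtain ⟨x, hx⟩ : ∃ x : Fin T.card × Fin 2 → K, MvPolynomial.eval x F0 ≠ 0 := by
        by_contra hcon
        push Not at hcon
        exact hF0 (MvPolynomial.funext fun x => by rw [hcon x, map_zero])
      obtain ⟨P0, hP0⟩ := NoForm.prod (hF0' (fun i j => x (i, j)) hx)
      obtain ⟨F1, hF1, hF1'⟩ := points_open (w ∘ g) P0 hP0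
      have hinj : Function.Injective (fun q : Fin T.card × Fin 2 => (g q.1, q.2)) := by
        rintro ⟨a, b⟩ ⟨a', b'⟩ hab
        rw [Prod.mk.injEq] at hab
        rw [Prod.mk.injEq]
        exact ⟨hg hab.1, hab.2⟩
      refine ⟨MvPolynomial.rename (fun q : Fin T.card × Fin 2 => (g q.1, q.2)) F1, ?_,
        fun P hP _ _ _ => ?_⟩
      · intro h0
        exact hF1 (MvPolynomial.rename_injective _ hinj (by rw [h0, map_zero]))
      · rw [MvPolynomial.eval_rename] at hP
        refine (hF1' (fun i j => P (g i) j) hP).anti ?_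
        unfold ptJ vIdeal
        refine le_iInf fun i => ?_
        exact iInf_le (fun a => cIdeal (fun _ : Fin 1 => P a 0) (C (P a 1)) (w a)) (g i)
    · exact ⟨1, one_ne_zero, fun P _ h1 h2 h3 => absurd ⟨h1, h2, h3⟩ h⟩
  choose f hf hf' using h1
  refine ⟨f, hf, fun P hP T d w hd hT hE => ?_⟩
  obtain ⟨j, hj⟩ := he (T, d, w)
  have h2 := hf' j P (hP j)
  rw [hj] at h2
  exact h2 hd hT hE

/-- Plane polynomials in two variables as iterated polynomials. -/
noncomputable def it2 (K : Type*) [Field K] : MvPolynomial (Fin 2) K →ₐ[K] K[X][X] :=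
  MvPolynomial.aeval ![C X, X]

theorem coeff_it2 (A : MvPolynomial (Fin 2) K) (i l : ℕ) :
    ((it2 K A).coeff l).coeff i =
      A.coeff (Finsupp.single 0 i + Finsupp.single 1 l) := by
  classical
  have h : ∀ (s : Fin 2 →₀ ℕ) (a : K),
      ((it2 K (MvPolynomial.monomial s a)).coeff l).coeff i =
        (MvPolynomial.monomial s a).coeff (Finsupp.single 0 i + Finsupp.single 1 l) := by
    intro s a
    rw [it2, MvPolynomial.aeval_monomial, Finsupp.prod_fintype _ _ (fun i => by simp),
      Fin.prod_univ_two, MvPolynomial.coeff_monomial]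
    have h3 : (algebraMap K K[X][X]) a * ((![C X, X] : Fin 2 → K[X][X]) 0 ^ s 0 *
        (![C X, X] : Fin 2 → K[X][X]) 1 ^ s 1) = a • mon K (s 0, s 1) := by
      rw [Algebra.smul_def, mon]
      simp
    rw [h3, coeff_smul, coeff_smul, coeff_mon]
    by_cases h4 : s = Finsupp.single 0 i + Finsupp.single 1 l
    · rw [if_pos h4, if_pos]
      · simp
      · rw [h4]
        simp
    · rw [if_neg h4, if_neg]
      · simp
      · intro h5
        rw [Prod.mk.injEq] at h5
        apply h4
        ext j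
        fin_cases j
        · simp [← h5.1]
        · simp [← h5.2]
  conv_lhs => rw [A.as_sum]
  conv_rhs => rw [A.as_sum]
  rw [map_sum, finsetSum_coeff, finsetSum_coeff, MvPolynomial.coeff_sum]
  exact Finset.sum_congr rfl fun s _ => h s _

theorem mem_of_support {p : Fin 2 → K} {F : MvPolynomial (Fin 3) K} {m : ℕ}
    (h : ∀ s ∈ (MvPolynomial.aeval
        ![(MvPolynomial.X 0 : MvPolynomial (Fin 2) K) + MvPolynomial.C (p 0),
          (MvPolynomial.X 1 : MvPolynomial (Fin 2) K) + MvPolynomial.C (p 1),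
          (1 : MvPolynomial (Fin 2) K)] F).support, m ≤ s 0 + s 1) :
    deh K F ∈ cIdeal (fun _ : Fin 1 => p 0) (C (p 1)) m := by
  rw [mem_cIdeal_iff]
  intro l hl i hi
  have h1 : it2 K (MvPolynomial.aeval
        ![(MvPolynomial.X 0 : MvPolynomial (Fin 2) K) + MvPolynomial.C (p 0),
          (MvPolynomial.X 1 : MvPolynomial (Fin 2) K) + MvPolynomial.C (p 1),
          (1 : MvPolynomial (Fin 2) K)] F) = sh (p 0) (C (p 1)) (deh K F) := by
    have h2 : ((it2 K : MvPolynomial (Fin 2) K →+* K[X][X])).comp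
        ((MvPolynomial.aeval
        ![(MvPolynomial.X 0 : MvPolynomial (Fin 2) K) + MvPolynomial.C (p 0),
          (MvPolynomial.X 1 : MvPolynomial (Fin 2) K) + MvPolynomial.C (p 1),
          (1 : MvPolynomial (Fin 2) K)] : MvPolynomial (Fin 3) K →ₐ[K] MvPolynomial (Fin 2) K) :
            MvPolynomial (Fin 3) K →+* MvPolynomial (Fin 2) K) =
        (sh (p 0) (C (p 1))).comp (deh K : MvPolynomial (Fin 3) K →+* K[X][X]) := by
      have hC : ∀ a : K, it2 K (MvPolynomial.C a) = C (C a) := fun a => (it2 K).commutes a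
      refine MvPolynomial.ringHom_ext (fun c => ?_) fun j => ?_
      · have h5 : deh K (MvPolynomial.C c) = C (C c) := (deh K).commutes c
        simp only [RingHom.comp_apply, RingHom.coe_coe, h5, sh_C, C_comp, MvPolynomial.aeval_C]
        exact hC c
      · fin_cases j
        · show it2 K (MvPolynomial.aeval _ (MvPolynomial.X 0)) = sh (p 0) (C (p 1))
            (deh K (MvPolynomial.X 0))
          rw [MvPolynomial.aeval_X, deh_X0, sh_C]
          show it2 K (MvPolynomial.X 0 + MvPolynomial.C (p 0)) = _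
          rw [map_add, hC]
          simp [it2]
        · show it2 K (MvPolynomial.aeval _ (MvPolynomial.X 1)) = sh (p 0) (C (p 1))
            (deh K (MvPolynomial.X 1))
          rw [MvPolynomial.aeval_X, deh_X1, sh_X]
          show it2 K (MvPolynomial.X 1 + MvPolynomial.C (p 1)) = _
          rw [map_add, hC]
          simp [it2]
        · show it2 K (MvPolynomial.aeval _ (MvPolynomial.X 2)) = sh (p 0) (C (p 1))
            (deh K (MvPolynomial.X 2))
          rw [MvPolynomial.aeval_X, deh_X2, map_one]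
          show it2 K 1 = 1
          rw [map_one]
    exact congrArg (fun φ : MvPolynomial (Fin 3) K →+* K[X][X] => φ F) h2
  rw [← h1, coeff_it2]
  by_contra hne
  have h3 := h _ (MvPolynomial.mem_support_iff.2 hne)
  simp at h3
  omega

end Pool.Agent.H932R3
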